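import Pool.Agent.L0h10.RP.Cst
import Pool.Agent.N996.FP.Alg2
import Pool.Agent.N996.FP.Cha

/-!
# Algebras in coordinates
-/

set_option linter.unusedSectionVars false

namespace Pool.Agent.L0h10.RP

open Matrix Pool.Agent.N996.BP Pool.Agent.N996.FP ComplexConjugate

variable {ι : Type} [Fintype ι] [DecidableEq ι] {H : HData ι}
variable {A : Type} [Ring A] [Algebra ℂ A]

/-- An algebra in coordinates, generated by elements of degree one. -/
structure AData (H : HData ι) (A : Type) [Ring A] [Algebra ℂ A] where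
  /-- the coordinates -/
  ε : A ≃ₗ[ℂ] (ι → ℂ)
  /-- the structure constants -/
  c : ι → ι → ι → ℂ
  /-- the degrees -/
  deg : ι → ℕ
  hc : ∀ i j k, ε (ε.symm (Pi.single i 1) * ε.symm (Pi.single j 1)) k = c k i j
  lm : ∀ (s : H.S) (t : ℂ), t ≠ 0 → ∀ x y,
    aop ε (H.l s t) (x * y) = aop ε (H.l s t) x * aop ε (H.l s t) y
  one : ε 1 = Pi.single H.D.o 1
  ldeg : ∀ (s : H.S) (t : ℂ), t ≠ 0 → ∀ i j, deg i ≠ deg j → H.l s t i j = 0
  sq : ∀ x, (∀ i, deg i ≠ 1 → ε x i = 0) → x * x = 0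
  gen : Algebra.adjoin ℂ {x | ∀ i, deg i ≠ 1 → ε x i = 0} = ⊤

namespace AData

variable (D : AData H A)

/-- The matrix of the multiplication. -/
def mu : Matrix (Unit → ι) (Unit ⊕ Unit → ι) ℂ :=
  Matrix.of fun k i => D.c (k ()) (i (Sum.inl ())) (i (Sum.inr ()))

lemma prod_apply (x y : A) (k : ι) : D.ε (x * y) k = ∑ i, ∑ j, D.c k i j * (D.ε x i * D.ε y j) := by
  have hx : ∀ x : A, x = ∑ i, D.ε x i • D.ε.symm (Pi.single i 1) := by
    intro x
    apply D.ε.injective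
    rw [map_sum]
    simp only [map_smul, LinearEquiv.apply_symm_apply]
    funext i
    rw [Finset.sum_apply, Finset.sum_eq_single i]
    · simp
    · intro b _ hb; simp [Pi.single_eq_of_ne (Ne.symm hb)]
    · intro h; exact absurd (Finset.mem_univ _) h
  conv_lhs => rw [hx x, hx y, Finset.sum_mul_sum, map_sum, Finset.sum_apply]
  refine Finset.sum_congr rfl fun i _ => ?_
  rw [map_sum, Finset.sum_apply]
  refine Finset.sum_congr rfl fun j _ => ?_
  rw [smul_mul_smul_comm, map_smul, Pi.smul_apply, D.hc, smul_eq_mul, mul_comm]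

lemma mu_tens (x y : A) : cQ D.mu *ᵥ tens (un (D.ε x)) (un (D.ε y)) = un (D.ε (x * y)) := by
  funext k
  rw [Matrix.mulVec, dotProduct, sum_sumElim, sum_unit, un, D.prod_apply]
  refine Finset.sum_congr rfl fun i _ => ?_
  rw [sum_unit]
  refine Finset.sum_congr rfl fun j _ => ?_
  rw [tens_elim]
  rfl

lemma mul_of_itw {g : Matrix ι ι ℂ} (h : kp Unit g * cQ D.mu = cQ D.mu * kp (Unit ⊕ Unit) g)
    (x y : A) : aop D.ε g (x * y) = aop D.ε g x * aop D.ε g y := by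
  have h1 := congrArg (fun M => M *ᵥ tens (un (D.ε x)) (un (D.ε y))) h
  simp only [← Matrix.mulVec_mulVec] at h1
  rw [kp_tens, kp_un, kp_un, D.mu_tens, kp_un, ← ep_aop, ← ep_aop, ← ep_aop, D.mu_tens] at h1
  exact D.ε.injective (un_inj h1)

lemma itw_of_mul {g : Matrix ι ι ℂ}
    (h : ∀ x y, aop D.ε g (x * y) = aop D.ε g x * aop D.ε g y) :
    kp Unit g * cQ D.mu = cQ D.mu * kp (Unit ⊕ Unit) g := by
  refine ext_tens fun i j => ?_
  have h1 := h (D.ε.symm (Pi.single i 1)) (D.ε.symm (Pi.single j 1))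
  have h2 : ∀ i : ι, (Pi.single i 1 : ι → ℂ) = D.ε (D.ε.symm (Pi.single i 1)) := fun i => by
    rw [LinearEquiv.apply_symm_apply]
  rw [h2 i, h2 j, ← Matrix.mulVec_mulVec, ← Matrix.mulVec_mulVec, kp_tens, kp_un, kp_un,
    D.mu_tens, kp_un, ← ep_aop, ← ep_aop, ← ep_aop, D.mu_tens, h1]

lemma isItw_mu : IsItw H D.mu := fun s t ht => D.itw_of_mul (D.lm s t ht)

lemma der_ho {z : Matrix ι ι ℂ} (hz : z ∈ ho H) (x y : A) :
    aop D.ε z (x * y) = aop D.ε z x * y + x * aop D.ε z y := by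
  have h1 := congrArg (fun M => M *ᵥ tens (un (D.ε x)) (un (D.ε y))) (itw_dk D.isItw_mu hz)
  simp only [← Matrix.mulVec_mulVec] at h1
  rw [dk_tens, dk_un, dk_un, D.mu_tens, dk_un, ← ep_aop, ← ep_aop, ← ep_aop, Matrix.mulVec_add,
    D.mu_tens, D.mu_tens] at h1
  have h2 : ∀ a b : A, un (D.ε a) + un (D.ε b) = un (D.ε (a + b)) := by
    intro a b
    rw [map_add]
    rfl
  rw [h2] at h1
  exact D.ε.injective (un_inj h1)

lemma mul_fix {p : Matrix ι ι ℂ} (h1 : Fixes H p (Unit ⊕ (Unit ⊕ Unit)))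
    (h2 : Fixes H p ((Unit ⊕ Unit) ⊕ (Unit ⊕ Unit))) (x y : A) :
    aop D.ε p (x * y) = aop D.ε p x * aop D.ε p y :=
  D.mul_of_itw (itw_kp D.isItw_mu h1 h2) x y

/-- The projector to the degree one part. -/
def pr1 : Matrix ι ι ℂ := Matrix.diagonal fun i => if D.deg i = 1 then 1 else 0

lemma cQ_pr1 : cQ D.pr1 = Matrix.diagonal fun i => if D.deg i = 1 then 1 else 0 := rfl

lemma pr1_HE : IsHE H D.pr1 := by
  intro s t ht
  rw [D.cQ_pr1]
  ext i j
  rw [Matrix.mul_diagonal, Matrix.diagonal_mul]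
  by_cases h : D.deg i = D.deg j
  · rw [h]; ring
  · rw [D.ldeg s t ht i j h, mul_zero, zero_mul]

/-- The degree one part. -/
def V : Submodule ℂ (ι → ℂ) where
  carrier := {v | ∀ i, D.deg i ≠ 1 → v i = 0}
  add_mem' {u v} hu hv i hi := by rw [Pi.add_apply, hu i hi, hv i hi, add_zero]
  zero_mem' i _ := rfl
  smul_mem' c u hu i hi := by rw [Pi.smul_apply, hu i hi, smul_zero]

lemma mem_V {v : ι → ℂ} : v ∈ D.V ↔ ∀ i, D.deg i ≠ 1 → v i = 0 := Iff.rfl

lemma mem_V' {v : ι → ℂ} : v ∈ D.V ↔ cQ D.pr1 *ᵥ v = v := by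
  rw [mem_V, D.cQ_pr1]
  constructor
  · intro h
    funext i
    rw [Matrix.mulVec_diagonal]
    by_cases hi : D.deg i = 1
    · rw [if_pos hi, one_mul]
    · rw [if_neg hi, zero_mul, h i hi]
  · intro h i hi
    rw [← h, Matrix.mulVec_diagonal, if_neg hi, zero_mul]

lemma V_stab {g : Matrix ι ι ℂ} (h : g * cQ D.pr1 = cQ D.pr1 * g) {v : ι → ℂ} (hv : v ∈ D.V) :
    g *ᵥ v ∈ D.V := by
  rw [mem_V'] at hv ⊢
  rw [Matrix.mulVec_mulVec, ← h, ← Matrix.mulVec_mulVec, hv]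

lemma V_ho {z : Matrix ι ι ℂ} (hz : z ∈ ho H) {v : ι → ℂ} (hv : v ∈ D.V) : z *ᵥ v ∈ D.V :=
  D.V_stab (D.pr1_HE.comm_ho hz) hv

/-- Algebra homomorphisms are determined by the degree one part. -/
lemma ext_mul {g h : Matrix ι ι ℂ} (hg : ∀ x y, aop D.ε g (x * y) = aop D.ε g x * aop D.ε g y)
    (hh : ∀ x y, aop D.ε h (x * y) = aop D.ε h x * aop D.ε h y) (hg1 : aop D.ε g 1 = 1)
    (hh1 : aop D.ε h 1 = 1) (H0 : ∀ v ∈ D.V, g *ᵥ v = h *ᵥ v) : g = h := by
  refine aop_inj (ε := D.ε) fun x => ?_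
  have hx : x ∈ Algebra.adjoin ℂ {x | ∀ i, D.deg i ≠ 1 → D.ε x i = 0} := by
    rw [D.gen]; trivial
  induction hx using Algebra.adjoin_induction with
  | mem x hx => rw [aop_apply, aop_apply, H0 _ hx]
  | algebraMap r => rw [Algebra.algebraMap_eq_smul_one, map_smul, map_smul, hg1, hh1]
  | add x y _ _ hx hy => rw [map_add, map_add, hx, hy]
  | mul x y _ _ hx hy => rw [hg, hh, hx, hy]

/-- Derivations are determined by the degree one part. -/
lemma der_zero {z : Matrix ι ι ℂ} (hz : z ∈ ho H) (h0 : ∀ v ∈ D.V, z *ᵥ v = 0) : z = 0 := by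
  have hd := D.der_ho hz
  have h1 : aop D.ε z 1 = 0 := by
    have h2 := hd 1 1
    rw [mul_one, mul_one, one_mul] at h2
    exact left_eq_add.1 h2
  refine aop_inj (ε := D.ε) fun x => ?_
  have hx : x ∈ Algebra.adjoin ℂ {x | ∀ i, D.deg i ≠ 1 → D.ε x i = 0} := by
    rw [D.gen]; trivial
  have h3 : ∀ x, aop D.ε (0 : Matrix ι ι ℂ) x = 0 := fun x => by
    rw [aop_apply, Matrix.zero_mulVec, map_zero]
  rw [h3]
  induction hx using Algebra.adjoin_induction with
  | mem x hx => rw [aop_apply, h0 _ hx, map_zero]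
  | algebraMap r => rw [Algebra.algebraMap_eq_smul_one, map_smul, h1, smul_zero]
  | add x y _ _ hx hy => rw [map_add, hx, hy, add_zero]
  | mul x y _ _ hx hy => rw [hd, hx, hy, zero_mul, mul_zero, add_zero]

/-- The inclusion of the degree one part. -/
noncomputable def L : D.V →ₗ[ℂ] A := D.ε.symm.toLinearMap ∘ₗ D.V.subtype

lemma L_apply (v : D.V) : D.L v = D.ε.symm v := rfl

lemma L_sq (v : D.V) : D.L v * D.L v = 0 := by
  refine D.sq _ fun i hi => ?_
  rw [L_apply, LinearEquiv.apply_symm_apply]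
  exact v.2 i hi

/-- The array valued linear map. -/
noncomputable def unL : A →ₗ[ℂ] ((Unit → ι) → ℂ) where
  toFun x := un (D.ε x)
  map_add' x y := by rw [map_add]; rfl
  map_smul' c x := by rw [map_smul]; rfl

/-- The test maps. -/
lemma tests (htop : ∃ v : Fin (Module.finrank ℂ D.V) → D.V, pL D.L v ≠ 0) {p : Matrix ι ι ℂ}
    (hp : Fixes H p (Unit ⊕ Unit)) (k : ℕ) :
    ∃ (κ : Type) (_ : Fintype κ) (_ : DecidableEq κ)
      (Pi : D.V [⋀^Fin k]→ₗ[ℂ] ((κ → ι) → ℂ)),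
      (∀ z (hz : z ∈ ho H) (v : Fin k → D.V), dk κ z *ᵥ Pi v =
        ∑ j, Pi (Function.update v j ⟨z *ᵥ (v j : ι → ℂ), D.V_ho hz (v j).2⟩)) ∧
      (∀ v, LinearIndependent ℂ v → Pi v ≠ 0) ∧ Fixes H p (κ ⊕ κ) := by
  refine ⟨Unit, inferInstance, inferInstance, D.unL.compAlternatingMap (pA D.L D.L_sq k), ?_, ?_,
    hp⟩
  · intro z hz v
    have h1 : ∀ v : Fin k → D.V, (D.unL.compAlternatingMap (pA D.L D.L_sq k)) v =
        un (D.ε (pL D.L v)) := by
      intro v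
      rw [LinearMap.compAlternatingMap_apply, pA_apply]
      rfl
    simp only [h1]
    rw [dk_un, ← ep_aop, der_pL D.L (aop D.ε z) (D.der_ho hz)
      (fun v => ⟨z *ᵥ (v : ι → ℂ), D.V_ho hz v.2⟩) (fun v => by
        rw [aop_apply, L_apply, LinearEquiv.apply_symm_apply, L_apply])]
    change D.unL _ = _
    rw [map_sum]
    rfl
  · intro v hv h0
    rw [LinearMap.compAlternatingMap_apply, pA_apply] at h0
    refine pL_ne' D.L D.L_sq htop v hv ?_
    apply D.ε.injective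
    rw [map_zero]
    exact un_inj h0

end AData

end Pool.Agent.L0h10.RP
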