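import Pool.Agent.L0h10.RW.Alg

/-!
# Central isometries
-/

set_option linter.unusedSectionVars false

namespace Pool.Agent.L0h10.RP

open Matrix Pool.Agent.N996.BP Pool.Agent.N996.FP ComplexConjugate

variable {ι : Type} [Fintype ι] [DecidableEq ι]

section

variable (H : HData ι)

/-- **The decomposition theorem for Hodge structures.** -/
theorem exists_decH {V : Submodule ℂ (ι → ℂ)} (hV : ∀ z ∈ ho H, ∀ v ∈ V, z *ᵥ v ∈ V)
    (hV0 : ∀ z ∈ ho H, (∀ v ∈ V, z *ᵥ v = 0) → z = 0) {p : Matrix ι ι ℂ}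
    (hp2 : Fixes H p (Unit ⊕ Unit)) (hp4 : Fixes H p ((Unit ⊕ Unit) ⊕ (Unit ⊕ Unit)))
    (hPi : ∀ k, ∃ (κ : Type) (_ : Fintype κ) (_ : DecidableEq κ)
      (Pi : V [⋀^Fin k]→ₗ[ℂ] ((κ → ι) → ℂ)),
      (∀ z (hz : z ∈ ho H) (v : Fin k → V), dk κ z *ᵥ Pi v =
        ∑ j, Pi (Function.update v j ⟨z *ᵥ (v j : ι → ℂ), hV z hz _ (v j).2⟩)) ∧
      (∀ v, LinearIndependent ℂ v → Pi v ≠ 0) ∧ Fixes H p (κ ⊕ κ)) :
    ∃ q ∈ So H, ∃ q' ∈ So H, q * q' = 1 ∧ ∀ w ∈ ho H, (q' * p) * w = w * (q' * p) := by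
  obtain ⟨p', hp', hpp⟩ := Fixes.inv hp2
  have hp2' : Fixes H p' (Unit ⊕ Unit) := Fixes.of_inv hp' hp2
  have hp4' : Fixes H p' ((Unit ⊕ Unit) ⊕ (Unit ⊕ Unit)) := Fixes.of_inv hp' hp4
  -- the subspace in orthonormal coordinates
  let Vn : Submodule ℂ (ι → ℂ) := V.comap (Matrix.mulVecLin (Mi H))
  have hVn : ∀ z ∈ hn H, ∀ v ∈ Vn, z *ᵥ v ∈ Vn := by
    intro z hz v hv
    change Mi H *ᵥ (z *ᵥ v) ∈ V
    have h1 : Mi H *ᵥ (z *ᵥ v) = cj H z *ᵥ (Mi H *ᵥ v) := by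
      rw [Matrix.mulVec_mulVec, Matrix.mulVec_mulVec, cj]
      congr 1
      rw [Matrix.mul_assoc (Mi H * z), Mm_Mi, Matrix.mul_one]
    rw [h1]
    exact hV _ hz _ hv
  have hVn0 : ∀ z ∈ hn H, (∀ v ∈ Vn, z *ᵥ v = 0) → z = 0 := by
    intro z hz h0
    have h1 := hV0 _ hz (fun v hv => by
      have h2 : Mm H *ᵥ v ∈ Vn := by
        change Mi H *ᵥ (Mm H *ᵥ v) ∈ V
        rw [Matrix.mulVec_mulVec, Mi_Mm, Matrix.one_mulVec]
        exact hv
      rw [cj, ← Matrix.mulVec_mulVec, ← Matrix.mulVec_mulVec, h0 _ h2, Matrix.mulVec_zero])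
    rw [← cji_cj H z, h1, cji, Matrix.mul_zero, Matrix.zero_mul]
  let L : Vn →ₗ[ℂ] V :=
    { toFun := fun v => ⟨Mi H *ᵥ (v : ι → ℂ), v.2⟩
      map_add' := fun a b => Subtype.ext (Matrix.mulVec_add _ _ _)
      map_smul' := fun c a => Subtype.ext (Matrix.mulVec_smul _ _ _) }
  have hL : Function.Injective L := by
    intro a b hab
    have h1 : Mi H *ᵥ (a : ι → ℂ) = Mi H *ᵥ (b : ι → ℂ) := congrArg Subtype.val hab
    have h2 := congrArg (fun w => Mm H *ᵥ w) h1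
    simp only [Matrix.mulVec_mulVec, Mm_Mi, Matrix.one_mulVec] at h2
    exact Subtype.ext h2
  obtain ⟨q, hq, q', hq', hqq, hc⟩ := exists_dec (isLA_hn H) (isGrp_Sn H) hVn hVn0
    (p := cji H p) (p' := cji H p') (by rw [← cji_mul, hpp, cji_one])
    (fun z hz => by
      rw [mem_hn, cj_mul, cj_mul, cj_cji, cj_cji]
      exact ad_fix hp' hp2 hp4 hz)
    (fun z hz => by
      rw [mem_hn, cj_mul, cj_mul, cj_cji, cj_cji]
      exact ad_fix hpp hp2' hp4' hz)
    (by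
      intro k
      obtain ⟨κ, _, _, Pi, h1, h2, h3⟩ := hPi k
      refine ⟨κ → ι, inferInstance, inferInstance, dkL κ,
        (Matrix.mulVecLin (kp κ (Mm H))).compAlternatingMap (Pi.compLinearMap L), kpH κ,
        fun a b => dk_br a b, fun a => dk_conjTranspose a, fun a => kp_conjT a, ?_, ?_, ?_, ?_,
        ?_, ?_⟩
      · intro z hz v
        change dk κ z *ᵥ (kp κ (Mm H) *ᵥ Pi (fun i => L (v i))) =
          ∑ j, kp κ (Mm H) *ᵥ Pi (fun i => L (Function.update v j ⟨z *ᵥ (v j : ι → ℂ), hVn z hz _ (v j).2⟩ i))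
        rw [Matrix.mulVec_mulVec, dk_cj_Mm, ← Matrix.mulVec_mulVec, h1 _ hz, ← Matrix.mulVec_sum]
        congr 1
        refine Finset.sum_congr rfl fun j _ => ?_
        congr 1
        funext i
        by_cases hij : i = j
        · subst hij
          rw [Function.update_self, Function.update_self]
          apply Subtype.ext
          change cj H z *ᵥ (Mi H *ᵥ (v i : ι → ℂ)) = Mi H *ᵥ (z *ᵥ (v i : ι → ℂ))
          rw [Matrix.mulVec_mulVec, Matrix.mulVec_mulVec, cj]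
          congr 1
          rw [Matrix.mul_assoc (Mi H * z), Mm_Mi, Matrix.mul_one]
        · rw [Function.update_of_ne hij, Function.update_of_ne hij]
      · intro v hv h0
        change kp κ (Mm H) *ᵥ Pi (fun i => L (v i)) = 0 at h0
        have h4 := congrArg (fun w => kp κ (Mi H) *ᵥ w) h0
        simp only [Matrix.mulVec_mulVec, ← kp_mul, Mi_Mm, kp_one, Matrix.one_mulVec,
          Matrix.mulVec_zero] at h4
        exact h2 _ (hv.map' L (LinearMap.ker_eq_bot.2 hL)) h4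
      · intro g g' z hgg
        exact kp_dk (mul_eq_one_comm.1 hgg) z
      · intro U hU d hd W hW
        exact sqrt_mem U hU d hd W hW
      · intro q hq
        exact pres_fix H (hq (κ ⊕ κ))
      · refine pres_fix H ?_
        rw [cj_cji]
        exact h3)
  refine ⟨cj H q, hq, cj H q', hq', by rw [← cj_mul, hqq, cj_one], fun w hw => ?_⟩
  have h1 := hc (cji H w) (by rw [mem_hn, cj_cji]; exact hw)
  have h2 := congrArg (cj H) h1
  rw [cj_mul, cj_mul, cj_mul, cj_mul, cj_cji, cj_cji] at h2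
  exact h2


end

/-- The column of the unit. -/
lemma Fixes.ucol {p : Matrix ι ι ℂ} {H : HData ι} (hp : Fixes H p Unit) : UCol H.D.o p := by
  intro i
  have h0 := hp _ (uni_BB Unit)
  have h1 : ca (uni ℂ H.D.o Unit) = uni ℂ H.D.o Unit := rfl
  rw [h1, kp_uni] at h0
  have h2 := congrFun h0 fun _ => i
  rw [uni, Fintype.prod_unique, Fintype.prod_unique] at h2
  exact h2

variable {H : HData ι}
  {A : Type} [Ring A] [Algebra ℂ A]

namespace AData

variable (D : AData H A)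

/-- Central isometries. -/
structure IsCI (z : Matrix ι ι ℂ) : Prop where
  comm : ∀ g ∈ GG H, z * g = g * z
  commE : ∀ x : Matrix ι ι ℂ, IsHE H x → z * cQ x = cQ x * z
  mul : ∀ x y, aop D.ε z (x * y) = aop D.ε z x * aop D.ε z y
  one : aop D.ε z 1 = 1
  iso : z * cQ H.Qir * zᵀ = cQ H.Qir

lemma ucol_one {z : Matrix ι ι ℂ} (h : UCol H.D.o z) : aop D.ε z 1 = 1 := by
  apply D.ε.injective
  rw [ep_aop, D.one]
  funext i
  rw [Matrix.mulVec_single_one, Matrix.col_apply, h i, Pi.single_apply]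

/-- **Decomposition of the matrices which fix the Hodge classes of degree at most four.** -/
theorem exists_qz (htop : ∃ v : Fin (Module.finrank ℂ D.V) → D.V, pL D.L v ≠ 0)
    {p : Matrix ι ι ℂ} (hp : ∀ (κ : Type) [Fintype κ] [DecidableEq κ], Fintype.card κ ≤ 4 →
      Fixes H p κ) : ∃ q ∈ So H, ∃ z, D.IsCI z ∧ p = q * z := by
  have hp2 : Fixes H p (Unit ⊕ Unit) := hp _ (by simp)
  have hp3 : Fixes H p (Unit ⊕ (Unit ⊕ Unit)) := hp _ (by simp)
  have hp4 : Fixes H p ((Unit ⊕ Unit) ⊕ (Unit ⊕ Unit)) := hp _ (by simp)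
  obtain ⟨q, hq, q', hq', hqq, hc⟩ := exists_decH H (V := D.V) (fun z hz v hv => D.V_ho hz hv)
    (fun z hz h0 => D.der_zero hz h0) hp2 hp4 (D.tests htop hp2)
  have hq2 : Fixes H q' (Unit ⊕ Unit) := hq' _
  have hq4 : Fixes H q' ((Unit ⊕ Unit) ⊕ (Unit ⊕ Unit)) := hq' _
  refine ⟨q, hq, q' * p, ⟨fun g hg => comm_GG hc hg, fun x hx => ?_, fun x y => ?_, ?_, ?_⟩, ?_⟩
  · rw [Matrix.mul_assoc, hx.comm_fix hp2, ← Matrix.mul_assoc, hx.comm_fix hq2,
      Matrix.mul_assoc]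
  · rw [aop_mul, D.mul_fix hp3 hp4, D.mul_fix (hq' _) hq4, aop_mul, aop_mul]
  · rw [aop_mul, D.ucol_one (Fixes.ucol (hp Unit (by simp))), D.ucol_one (Fixes.ucol (hq' Unit))]
  · have h1 := fix_Q H hp2
    have h2 := fix_Q H hq2
    calc q' * p * cQ H.Qir * (q' * p)ᵀ = q' * (p * cQ H.Qir * pᵀ) * q'ᵀ := by
          rw [Matrix.transpose_mul]; simp only [Matrix.mul_assoc]
      _ = _ := by rw [h1, h2]
  · rw [← Matrix.mul_assoc, hqq, Matrix.one_mul]

/-! ### The centre -/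

/-- Hodge endomorphisms of the degree one part. -/
def IsHE1 (x : Matrix ι ι ℂ) : Prop := IsHE H x ∧ D.pr1 * x = x ∧ x * D.pr1 = x

/-- Central Hodge endomorphisms of the degree one part. -/
def IsCE (x : Matrix ι ι ℂ) : Prop := D.IsHE1 x ∧ ∀ y, D.IsHE1 y → x * y = y * x

lemma pr1_mul : D.pr1 * D.pr1 = D.pr1 := by
  rw [pr1, Matrix.diagonal_mul_diagonal]
  congr 1
  funext i
  split_ifs <;> simp

/-- A central matrix acts on the degree one part as a central endomorphism. -/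
lemma ce_span {z : Matrix ι ι ℂ} (hzc : ∀ g ∈ GG H, z * g = g * z)
    (hze : ∀ x : Matrix ι ι ℂ, IsHE H x → z * cQ x = cQ x * z) :
    D.IsCE (z * cQ D.pr1) := by
  have hP2 := D.pr1_mul
  have hzp : z * D.pr1 = D.pr1 * z := hze _ D.pr1_HE
  refine ⟨⟨fun s t ht => ?_, ?_, ?_⟩, fun y hy => ?_⟩
  · have h1 : H.l s t * z = z * H.l s t := isHE_of hzc s t ht
    have h2 : H.l s t * D.pr1 = D.pr1 * H.l s t := D.pr1_HE s t ht
    rw [cQ_eq, cQ_eq, ← Matrix.mul_assoc, h1, Matrix.mul_assoc, h2, Matrix.mul_assoc]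
  · rw [cQ_eq, ← Matrix.mul_assoc, ← hzp, Matrix.mul_assoc, hP2]
  · rw [cQ_eq, Matrix.mul_assoc, hP2]
  · have h1 : z * y = y * z := hze y hy.1
    rw [cQ_eq, Matrix.mul_assoc, hy.2.1, h1, hzp, ← Matrix.mul_assoc, hy.2.2]

end AData

end Pool.Agent.L0h10.RP
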