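import Pool.Agent.L0h10.RW.Mc
import Pool.Agent.L0h10.RU.Wcx

/-!
# The characters of the cosets
-/

set_option linter.unusedSectionVars false

namespace Pool.Agent.L0h10.RP

open Matrix Pool.Agent.N996.BP Pool.Agent.N996.FP ComplexConjugate ComplexOrder

variable {ι : Type} [Fintype ι] [DecidableEq ι] {H : HData ι}
  {A : Type} [Ring A] [Algebra ℂ A]

namespace AData

variable (D : AData H A) {x z : Matrix ι ι ℂ} {n : ℕ}

/-- The cosets are stable. -/
lemma stab_coset (hx : IsReg (hn H) x) (B : Bz (hn H) x z D.Vn n) {k : Fin n}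
    {S : Finset (Fin n)} (hS : ∀ i, i ∈ S ↔ B.T i - B.T k ∈ QL (hn H) x) {w : Matrix ι ι ℂ}
    (hw : w ∈ hn H) {j : Fin n} (hj : j ∈ S) {i : Fin n} (hi : i ∉ S) :
    B.bas.repr ⟨w *ᵥ (B.v j : ι → ℂ), D.Vn_hn hw (B.v j).2⟩ i = 0 := by
  classical
  obtain ⟨y, hy1, -, hy3⟩ := D.exists_proj hx (B.T k)
  have hyS : ∀ i ∈ S, y *ᵥ (B.v i : ι → ℂ) = B.v i := fun i hi =>
    (hy3 _ _ (B.v_ne i) (B.wt i)).1 ((hS i).1 hi)
  have hyS' : ∀ i, i ∉ S → y *ᵥ (B.v i : ι → ℂ) = 0 := fun i hi =>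
    (hy3 _ _ (B.v_ne i) (B.wt i)).2 fun h => hi ((hS i).2 h)
  by_contra hne
  have h1 := B.coef (y := y) (c' := fun i => if i ∈ S then 1 else 0) (fun i => by
    by_cases hi : i ∈ S
    · rw [if_pos hi, one_smul, hyS i hi]
    · rw [if_neg hi, zero_smul, hyS' i hi])
    (u := ⟨w *ᵥ (B.v j : ι → ℂ), D.Vn_hn hw (B.v j).2⟩)
    (d := 1) (by
      change y *ᵥ (w *ᵥ (B.v j : ι → ℂ)) = _
      rw [Matrix.mulVec_mulVec, hy1 _ hw, ← Matrix.mulVec_mulVec, hyS j hj, one_smul]) i hne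
  rw [if_neg hi] at h1
  exact zero_ne_one h1

variable (htop : ∃ v : Fin (Module.finrank ℂ D.V) → D.V, pL D.L v ≠ 0)
    {z : Matrix ι ι ℂ} (hz : D.IsCI z)

/-- The Lie algebra acts on the top exterior power of a coset by a character. -/
lemma delta_act (hx : IsReg (hn H) x) (B : Bz (hn H) x (cji H z) D.Vn n) {k : Fin n}
    {S : Finset (Fin n)} (hS : ∀ i, i ∈ S ↔ B.T i - B.T k ∈ QL (hn H) x) {w : Matrix ι ι ℂ}
    (hw : w ∈ hn H) : w *ᵥ (D.toPD htop hz).pS B.v S =
      ((∑ j ∈ S, B.T j) * w).trace • (D.toPD htop hz).pS B.v S := by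
  have hcomm : x * (∑ j ∈ S, B.T j) = (∑ j ∈ S, B.T j) * x := by
    rw [Finset.mul_sum, Finset.sum_mul]
    exact Finset.sum_congr rfl fun j _ => (B.wt j).mem.2
  refine ad_ind hx.herm (h := hn H) (fun z hz => (isLA_hn H).lie x hx.mem z hz)
    (P := fun w => w *ᵥ (D.toPD htop hz).pS B.v S =
      ((∑ j ∈ S, B.T j) * w).trace • (D.toPD htop hz).pS B.v S) ?_ ?_ ?_ hw
  · rw [Matrix.zero_mulVec, Matrix.mul_zero, Matrix.trace_zero, zero_smul]
  · intro a b ha hb
    rw [Matrix.add_mulVec, ha, hb, Matrix.mul_add, Matrix.trace_add, add_smul]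
  · intro a w hw hwa
    by_cases ha : a = 0
    · subst ha
      rw [Complex.ofReal_zero, zero_smul, sub_eq_zero] at hwa
      rw [(D.toPD htop hz).pS_eig S hw (s := fun i => (B.T i * w).trace) fun j =>
        (B.wt j).val w ⟨hw, hwa⟩, Finset.sum_mul, Matrix.trace_sum]
    · have h1 : ((∑ j ∈ S, B.T j) * w).trace = 0 := by
        have h2 : ((∑ j ∈ S, B.T j) * (x * w - w * x)).trace = 0 := by
          rw [Matrix.mul_sub, Matrix.trace_sub, ← Matrix.mul_assoc, ← hcomm, Matrix.mul_assoc,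
            Matrix.trace_mul_comm x, Matrix.mul_assoc, sub_self]
        rw [hwa, Matrix.mul_smul, Matrix.trace_smul, smul_eq_mul] at h2
        exact (mul_eq_zero.1 h2).resolve_left (by exact_mod_cast ha)
      have hZ := isZ_of hz.comm hz.commE
      rw [h1, zero_smul]
      refine (D.toPD htop hz).pS_zero S hw fun j hj => ?_
      refine Submodule.span_mono ?_
        (B.root_span (isLA_hn H) hx hZ.comm (fun w hw v hv => D.Vn_hn hw hv) ha hw hwa j)
      rintro _ ⟨i, ⟨hi1, hi2⟩, rfl⟩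
      refine ⟨i, ⟨(hS i).2 ?_, ?_⟩, rfl⟩
      · have := (QL _ x).add_mem hi2 ((hS j).1 hj)
        rwa [sub_add_sub_cancel] at this
      · rintro rfl
        apply ha
        linarith

lemma delta_ne (B : Bz (hn H) x (cji H z) D.Vn n) (S : Finset (Fin n)) :
    (D.toPD htop hz).pS B.v S ≠ 0 := (D.toPD htop hz).pS_ne B.li S

include htop hz in
/-- The characters are orthogonal to the roots. -/
lemma char_root (hx : IsReg (hn H) x) (B : Bz (hn H) x (cji H z) D.Vn n) {k : Fin n}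
    {S : Finset (Fin n)} (hS : ∀ i, i ∈ S ↔ B.T i - B.T k ∈ QL (hn H) x) {q : Matrix ι ι ℂ}
    (hq : q ∈ QL (hn H) x) : ((∑ j ∈ S, B.T j) * q).trace = 0 := by
  induction hq using AddSubgroup.closure_induction with
  | mem q hq =>
    obtain ⟨e, he, rfl⟩ := hq
    have heH := (isLA_hn H).star _ he.mem
    have hhe : br e eᴴ = nsq e • Rt e := by
      rw [Rt, smul_smul, mul_inv_cancel₀ (nsq_pos he.ne).ne', one_smul]
    have h1 : br e eᴴ *ᵥ (D.toPD htop hz).pS B.v S = 0 := by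
      rw [br, Matrix.sub_mulVec, ← Matrix.mulVec_mulVec, ← Matrix.mulVec_mulVec,
        D.delta_act htop hz hx B hS he.mem, D.delta_act htop hz hx B hS heH,
        Matrix.mulVec_smul, Matrix.mulVec_smul, D.delta_act htop hz hx B hS he.mem,
        D.delta_act htop hz hx B hS heH, smul_smul, smul_smul, mul_comm, sub_self]
    rw [hhe, Matrix.smul_mulVec, D.delta_act htop hz hx B hS (he.ct (isLA_hn H) hx).1,
      smul_smul] at h1
    rcases smul_eq_zero.1 h1 with h2 | h2
    · exact (mul_eq_zero.1 h2).resolve_left (nsq_pos he.ne).ne'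
    · exact absurd h2 (D.delta_ne htop hz B S)
  | zero => rw [Matrix.mul_zero, Matrix.trace_zero]
  | add a b _ _ ha hb => rw [Matrix.mul_add, Matrix.trace_add, ha, hb, add_zero]
  | neg a _ ha => rw [Matrix.mul_neg, Matrix.trace_neg, ha, neg_zero]

include htop hz in
/-- **Relations between the characters.** -/
lemma char_rel {p : H.S → Prop} (hp : GenBy H p) (hx : IsReg (hn H) x)
    (B : Bz (hn H) x (cji H z) D.Vn n)
    {S : Fin n → Finset (Fin n)} (hS : ∀ k i, i ∈ S k ↔ B.T i - B.T k ∈ QL (hn H) x)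
    (y : Fin n → ℕ) (hy : ∀ σ : H.S, p σ → ∑ k, (y k : ℂ) *
      ((∑ j ∈ S k, B.T j) * cji H (Ng H σ)).trace = 0) :
    ∑ k, (y k : ℂ) • ∑ j ∈ S k, B.T j = 0 := by
  let κ := Σ k : Fin n, Fin (y k)
  obtain ⟨r, hr⟩ : ∃ r : κ → ι → ℂ, r = fun k => (D.toPD htop hz).pS B.v (S k.1) := ⟨_, rfl⟩
  obtain ⟨δ, hδ⟩ : ∃ δ : (κ → ι) → ℂ, δ = pt r := ⟨_, rfl⟩
  have hδ0 : δ ≠ 0 := by
    rw [hδ]
    exact pt_ne fun k => by rw [hr]; exact D.delta_ne htop hz B _
  have hact : ∀ w ∈ hn H, dk κ w *ᵥ δ =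
      (∑ k, (y k : ℂ) * ((∑ j ∈ S k, B.T j) * w).trace) • δ := by
    intro w hw
    have h1 := dk_pt_eig (κ := κ) (w := w) (p := r)
      (s := fun k => ((∑ j ∈ S k.1, B.T j) * w).trace) fun k => by
        rw [hr]
        exact D.delta_act htop hz hx B (hS k.1) hw
    rw [hδ, h1]
    congr 1
    rw [Fintype.sum_sigma]
    refine Finset.sum_congr rfl fun k _ => ?_
    change ∑ _ : Fin (y k), ((∑ j ∈ S k, B.T j) * w).trace = _
    rw [Finset.sum_const, Finset.card_univ, Fintype.card_fin, nsmul_eq_mul]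
  have hlin : ∀ w, (∑ k, (y k : ℂ) * ((∑ j ∈ S k, B.T j) * w).trace) =
      ((∑ k, (y k : ℂ) • ∑ j ∈ S k, B.T j) * w).trace := by
    intro w
    rw [Finset.sum_mul, Matrix.trace_sum]
    refine Finset.sum_congr rfl fun k _ => ?_
    rw [Matrix.smul_mul, Matrix.trace_smul, smul_eq_mul]
  have hall : ∀ m ∈ hn H, ((∑ k, (y k : ℂ) • ∑ j ∈ S k, B.T j) * m).trace = 0 := by
    intro m hm
    have h0 := hp m hm
    clear hm
    induction h0 using Submodule.span_induction with
    | mem m hm =>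
      rcases hm with ⟨a, ha, b, hb, rfl⟩ | ⟨σ, hσ, rfl⟩
      · have hab : a * b - b * a ∈ hn H := (isLA_hn H).lie a ha b hb
        have h1 := hact _ hab
        have h2 : dk κ (a * b - b * a) *ᵥ δ = 0 := by
          have h3 : dk κ (a * b - b * a) = br (dk κ a) (dk κ b) := dk_br (κ := κ) a b
          rw [h3, br, Matrix.sub_mulVec, ← Matrix.mulVec_mulVec, ← Matrix.mulVec_mulVec,
            hact a ha, hact b hb, Matrix.mulVec_smul, Matrix.mulVec_smul, hact a ha, hact b hb,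
            smul_smul, smul_smul, mul_comm, sub_self]
        rw [h2, hlin] at h1
        exact (smul_eq_zero.1 h1.symm).resolve_right hδ0
      · rw [← hlin]
        exact hy σ hσ
    | zero => rw [Matrix.mul_zero, Matrix.trace_zero]
    | add a b _ _ ha hb => rw [Matrix.mul_add, Matrix.trace_add, ha, hb, add_zero]
    | smul c a _ ha => rw [Matrix.mul_smul, Matrix.trace_smul, ha, smul_zero]
  exact ct_nondeg (isLA_hn H) hx.herm (Submodule.sum_mem _ fun k _ => Submodule.smul_mem _ _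
    (Submodule.sum_mem _ fun i _ => (B.wt i).mem)) fun t ht => hall t ht.1

include htop hz in
/-- The characters have small integral values on the generators. -/
lemma char_int {w : ℕ} {σ : H.S} (hE : ∀ (u : ι → ℂ), u ∈ D.V → u ≠ 0 → ∀ μ : ℂ,
      Ng H σ *ᵥ u = μ • u → ∃ a : ℤ, |a| ≤ w ∧ μ = a)
    (hx : IsReg (hn H) x) (B : Bz (hn H) x (cji H z) D.Vn n) {k : Fin n}
    {S : Finset (Fin n)} (hS : ∀ i, i ∈ S ↔ B.T i - B.T k ∈ QL (hn H) x) :
    ∃ a : ℤ, |a| ≤ (w : ℤ) * S.card ∧ ((∑ j ∈ S, B.T j) * cji H (Ng H σ)).trace = a := by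
  classical
  have hw : cji H (Ng H σ) ∈ hn H := by rw [mem_hn, cj_cji]; exact Ng_mem σ
  obtain ⟨w', hwe⟩ : ∃ w', w' = cji H (Ng H σ) := ⟨_, rfl⟩
  rw [← hwe] at hw ⊢
  -- the eigenvalues
  have heig : ∀ v ∈ D.Vn, v ≠ 0 → ∀ μ : ℂ, w' *ᵥ v = μ • v → ∃ a : ℤ, |a| ≤ w ∧ μ = a := by
    intro v hv hv0 μ hμ
    obtain ⟨v', hv'⟩ : ∃ v', v' = Mi H *ᵥ v := ⟨_, rfl⟩
    have h0 : v = Mm H *ᵥ v' := by
      rw [hv', Matrix.mulVec_mulVec, Mm_Mi, Matrix.one_mulVec]
    have h1 : Ng H σ *ᵥ v' = μ • v' := by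
      have h2 : Ng H σ = Mi H * w' * Mm H := by
        rw [hwe]; exact (cj_cji H (Ng H σ)).symm
      rw [h2, ← Matrix.mulVec_mulVec, ← h0, ← Matrix.mulVec_mulVec, hμ, Matrix.mulVec_smul, ← hv']
    have hv'0 : v' ≠ 0 := by
      rintro h4
      apply hv0
      rw [h0, h4, Matrix.mulVec_zero]
    exact hE v' (by rw [hv']; exact hv) hv'0 μ h1
  have htr := pS_tr (D.toPD htop hz) B S hw fun j hj i hi => D.stab_coset hx B hS hw hj hi
  rw [D.delta_act htop hz hx B hS hw] at htr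
  have htr2 := smul_left_injective ℂ (D.delta_ne htop hz B S) htr
  rw [htr2]
  let u : Fin n → D.Vn := fun j => ⟨w' *ᵥ (B.v j : ι → ℂ), D.Vn_hn hw (B.v j).2⟩
  let E : Matrix S S ℂ := Matrix.of fun i j => B.bas.repr (u j) i
  obtain ⟨a, ha1, ha2⟩ := int_traceW (w := w) E fun c hc μ hμ => by
    let v : D.Vn := ∑ j : S, c j • B.v j
    have hv0 : v ≠ 0 := by
      intro h0
      apply hc
      funext j
      have h1 := congrArg (fun v => B.bas.repr v j) h0
      simp only [v, map_sum, map_smul, Finsupp.finsetSum_apply, Finsupp.smul_apply,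
        smul_eq_mul, map_zero, Finsupp.zero_apply] at h1
      rw [Finset.sum_eq_single j] at h1
      · rw [← B.bas_apply, Module.Basis.repr_self, Finsupp.single_eq_same, mul_one] at h1
        exact h1
      · intro b _ hb
        rw [← B.bas_apply, Module.Basis.repr_self, Finsupp.single_apply,
          if_neg (fun h => hb (Subtype.ext h)), mul_zero]
      · intro h; exact absurd (Finset.mem_univ _) h
    refine heig v v.2 (fun h => hv0 (Subtype.ext h)) μ ?_
    have h1 : (⟨w' *ᵥ (v : ι → ℂ), D.Vn_hn hw v.2⟩ : D.Vn) =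
        ∑ j : S, c j • u j := by
      apply Subtype.ext
      simp only [v, Submodule.coe_sum, Submodule.coe_smul, Matrix.mulVec_sum,
        Matrix.mulVec_smul, u]
    have h2 : (⟨w' *ᵥ (v : ι → ℂ), D.Vn_hn hw v.2⟩ : D.Vn) = μ • v := by
      rw [h1]
      apply B.bas.repr.injective
      ext i
      rw [map_sum, Finsupp.finsetSum_apply, map_smul, Finsupp.smul_apply]
      simp only [map_smul, Finsupp.smul_apply, smul_eq_mul, v, map_sum,
        Finsupp.finsetSum_apply]
      by_cases hi : i ∈ S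
      · have h3 := congrFun hμ ⟨i, hi⟩
        rw [Matrix.mulVec, dotProduct, Pi.smul_apply, smul_eq_mul] at h3
        rw [Finset.sum_congr rfl fun (j : S) _ => mul_comm (c j) (B.bas.repr (u j) i)]
        change ∑ j : S, B.bas.repr (u j) i * c j = _
        change ∑ j : S, B.bas.repr (u j) i * c j = _ at h3
        rw [h3, Finset.sum_eq_single (⟨i, hi⟩ : S)]
        · rw [← B.bas_apply, Module.Basis.repr_self, Finsupp.single_eq_same, mul_one]
        · intro b _ hb
          rw [← B.bas_apply, Module.Basis.repr_self, Finsupp.single_apply,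
            if_neg (fun h => hb (Subtype.ext h)), mul_zero]
        · intro h; exact absurd (Finset.mem_univ _) h
      · rw [Finset.sum_eq_zero, Finset.sum_eq_zero, mul_zero]
        · intro j _
          rw [← B.bas_apply, Module.Basis.repr_self, Finsupp.single_apply,
            if_neg (fun h : (j : Fin n) = i => hi (h ▸ j.2)), mul_zero]
        · intro j _
          have h3 : B.bas.repr (u j) i = 0 := D.stab_coset hx B hS hw j.2 hi
          rw [h3, mul_zero]
    exact congrArg Subtype.val h2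
  refine ⟨a, ?_, ?_⟩
  · rwa [Fintype.card_coe] at ha1
  · rw [← ha2, Matrix.trace, ← Finset.sum_coe_sort S]
    rfl

end AData

end Pool.Agent.L0h10.RP
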