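import Pool.Agent.L0h10.RW.Geo4

/-!
# Abelian varieties: the bounded power theorem
-/

set_option linter.unusedSectionVars false

open CategoryTheory AlgebraicGeometry TensorProduct Matrix

universe u v

namespace Pool.Agent.L0h10.RU

open Module
open Pool.Agent.H914 Pool.Agent.H914.VarClass Pool.Agent.H914.VarClass.Obj
  Pool.Agent.H914.WeilCohomology
open Pool.Agent.Y121.AHS
open Pool.Agent.Y133.Half (pw pfst psnd wb wb_zero wb_succ ClassPred PH)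
open Pool.Agent.Y121.AH (hodgePred)
open Pool.Agent.N996.BP Pool.Agent.N996.FP Pool.Agent.N996.BP.Geo
open Pool.Agent.L0h10.TS (GaloisAction IsTate ve ve_zero toRep isT_iff isDeg_ve
  vB vB_apply gal_vB mt mt_spec mt_inj vB_single up_em IsLin
  isDeg_vB Operators IsInfinitesimal KillsTate opOf opOf_zero opOf_inf inf_eq opOf_kill up_ve up
  IsComb jj vB_inj vB_smul smL_eq ActsSemisimply ss_coord gal_ve ve_smul map_mul_th GRep)
open Pool.Agent.L0h10.RQ Pool.Agent.L0h10.RT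

section Coord

variable {ι : Type} [Fintype ι] [DecidableEq ι] {deg : ι → ℕ} {H : HData ι}
  {A : ∀ n : ℕ, Submodule ℚ ((Fin (n + 1) → ι) → ℚ)}
  {B : Type} [Ring B] [Algebra ℂ B] (E : AData H B)
  {ℓ : ℕ} [hℓ : Fact ℓ.Prime] {Γ : Type*} [Group Γ] [TopologicalSpace Γ]
  {P : GRep deg ℚ_[ℓ] Γ} {j : ℚ_[ℓ] →+* ℂ} {N : ℕ}

/-- Equivariant projectors from semisimplicity in degree one. -/
theorem Crd1.hasPr1 [IsTopologicalGroup Γ] (D : Crd1 deg j P H A N) (hE : E.deg = deg)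
    (hmu : arr (E.mu * kp (Unit ⊕ Unit) H.Qir) ∈ AQ A (Unit ⊕ (Unit ⊕ Unit)))
    (hS : SS1 P) : HasPr j P := by
  refine hasPr_of_rad fun x hx => ?_
  obtain ⟨Δ, hQ⟩ := D.form
  have h1 : x.map j ∈ LA A := LT_le_LA D.fam D.le hx.1
  have h2 := rad_pd hS D.hd hQ hx
  apply map_inj_j (j := j)
  have h3 : x.map j = 0 := by
    refine der_zero' E (der_LA E D.fam D.hinv hmu h1) fun v hv => ?_
    rw [aop_V E hE] at hv
    rw [← hv, Matrix.mulVec_mulVec, ← pdL_map (ℓ := ℓ) deg 1 j, ← map_mul_j, h2]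
    have h4 : (0 : Matrix ι ι ℚ_[ℓ]).map j = 0 := by
      ext i k
      exact map_zero j
    rw [h4, Matrix.zero_mulVec]
  rw [h3]
  ext i k
  exact (map_zero j).symm

end Coord

variable {k : Type u} [Field k] {𝒱 : VarClass k} {ops : CycleOps 𝒱} {T : HodgeTheory ops}
  {X : 𝒱.Obj} {Γ : Type v} [Group Γ] [TopologicalSpace Γ]

variable {ℓ : ℕ} [hℓ : Fact ℓ.Prime] [Algebra T.W.K ℚ_[ℓ]] {G : GaloisAction T X Γ ℚ_[ℓ]}
  {Ω : Type} [Field Ω] [Algebra T.W.K Ω] [Algebra ℚ_[ℓ] Ω] [IsScalarTower T.W.K ℚ_[ℓ] Ω]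

variable (Ω G) in
/-- The height of the monodromy in degree one. -/
noncomputable def hgt1 : ℕ := sInf {w | HGT1 Ω G w}

/-- **The bounded power theorem for abelian varieties.** -/
theorem coreA [IsTopologicalGroup Γ] [CompactSpace Γ] (θ : Ω ≃+* ℂ) {Q : ClassPred T.W}
    {ψ : Pool.Agent.N996.FP.RForm T.W X} (hψ : Pool.Agent.N996.FP.IsPolarisation T X ψ)
    (hX : OfAbelianType T X)
    (hQH : ∀ n, Q.sp (pw X n) ≤ (hodgePred (toH T)).sp (pw X n))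
    (hQT : QTate G Q) (hI : InvForm G (formL ℚ_[ℓ] ψ)) (hc : IsCts G) (hss : SSG G) {N : ℕ}
    (hN : (CentreAdj1 G (formL ℚ_[ℓ] ψ) ∧ N = 4) ∨
      (CentreZero Ω G ∧ N = max 4 (2 * X.dim)) ∨
        N = max 8 (4 * (max 1 (hgt1 G Ω) * X.dim ^ 2) ^ X.dim))
    (hT : TateQ G Q (N - 1)) (n : ℕ) : TateQ G Q n := by
  rcases subsingleton_or_nontrivial (T.W.H X) with hs | hs
  · exact (sub_case hs).2 n
  have hN4 : 4 ≤ N := by
    rcases hN with ⟨-, rfl⟩ | ⟨-, rfl⟩ | rfl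
    · exact le_rfl
    · exact le_max_left _ _
    · exact le_trans (by norm_num) (le_max_left _ _)
  obtain ⟨ι, _, _, e, deg, hdeg, H, r, hQ, D, B, _, _, E, hE, hmu, htop, hfin⟩ :=
    exists_crdA (T := T) (G := G) (jj ℚ_[ℓ] θ) hψ.toBP.isPHS hX hQH hQT hI hc hN4 hT
  have D2 := D.crd2 (D.hasPr1 E hE hmu (ss1_coord G hdeg hss))
  refine tateQ_of hdeg (j := jj ℚ_[ℓ] θ) ?_
  rcases hN with ⟨h1, h2⟩ | ⟨h1, h2⟩ | h2
  · exact D2.all_adj1 E hE hmu htop (fun u hu => adj_coord1 G hdeg hψ.toBP.isPHS hQ h1 hu) n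
  · exact D2.all_tr1 E hE hmu htop hfin (fun y hy hc => cen_coord G hdeg θ h1 hy hc)
      (by rw [h2]; exact le_max_right _ _) n
  · have hp : ∀ m ∈ LT (TT (jj ℚ_[ℓ] θ) (toRep G e hdeg)), m * pd deg 1 = pd deg 1 * m :=
      fun m hm => D2.LT_pd hm 1
    obtain ⟨w, hw⟩ := D2.exists_height1
    have h3 : HGT1 Ω G (hgt1 G Ω) :=
      Nat.sInf_mem (s := {w | HGT1 Ω G w}) ⟨w, hgt1_of G hdeg θ hp hw⟩
    exact D2.all_gen1 E hE hmu htop hfin (hgt1_coord G hdeg θ hp h3)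
      (by rw [h2]; exact le_max_left _ _) (by rw [h2]; exact le_max_right _ _) n

end Pool.Agent.L0h10.RU
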