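import Pool.Agent.L0h10.RW.Fx
import Pool.Agent.L0h10.RU.Par2
import Pool.Agent.N996.FP.Sh

/-!
# The algebra in coordinates and the Lie algebras
-/

set_option linter.unusedSectionVars false

namespace Pool.Agent.L0h10.RP

open Matrix Pool.Agent.N996.BP Pool.Agent.N996.FP ComplexConjugate

variable {ι : Type} [Fintype ι] [DecidableEq ι] {H : HData ι}
  {κ : Type} [Fintype κ] [DecidableEq κ] {l : Type} [Fintype l] [DecidableEq l]

/-- Intertwining operators from invariant arrays. -/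
lemma isItw_of {P : Matrix (l → ι) (κ → ι) ℂ} (hP : arr (P * kp κ H.Qir) ∈ BB H (l ⊕ κ)) :
    IsItw H P := by
  intro s t ht
  obtain ⟨p, hp⟩ : ∃ p, p = H.l s t := ⟨_, rfl⟩
  have hS : p ∈ So H := by
    rw [hp]; exact GG_So (Submonoid.subset_closure (l_mem_gens H s ht))
  rw [← hp]
  have h3 := hS (l ⊕ κ) _ hP
  rw [itw_arr, kp_arr] at h3
  have h4 := congrArg mat h3
  rw [mat_arr, mat_arr] at h4
  have h5 := kp_fix_inv (hS (κ ⊕ κ))
  obtain ⟨R, hR⟩ : ∃ R, R = kp κ (cQ H.Qir) * (kp κ p)ᵀ * kp κ (cQ H.Qr) := ⟨_, rfl⟩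
  have h6 : kp κ p * R = 1 := by
    rw [hR]
    calc kp κ p * (kp κ (cQ H.Qir) * (kp κ p)ᵀ * kp κ (cQ H.Qr)) =
        (kp κ p * kp κ (cQ H.Qir) * (kp κ p)ᵀ) * kp κ (cQ H.Qr) := by simp only [Matrix.mul_assoc]
      _ = 1 := by rw [h5, QiQ]
  have h7 : kp l p * cQ P * R = cQ P := by
    rw [hR]
    calc kp l p * cQ P * (kp κ (cQ H.Qir) * (kp κ p)ᵀ * kp κ (cQ H.Qr)) =
        (kp l p * (cQ P * kp κ (cQ H.Qir)) * (kp κ p)ᵀ) * kp κ (cQ H.Qr) := by
          simp only [Matrix.mul_assoc]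
      _ = cQ P * (kp κ (cQ H.Qir) * kp κ (cQ H.Qr)) := by rw [h4, Matrix.mul_assoc]
      _ = _ := by rw [QiQ, Matrix.mul_one]
  calc kp l p * cQ P = kp l p * cQ P * (R * kp κ p) := by
        rw [mul_eq_one_comm.1 h6, Matrix.mul_one]
    _ = (kp l p * cQ P * R) * kp κ p := by simp only [Matrix.mul_assoc]
    _ = _ := by rw [h7]

end Pool.Agent.L0h10.RP

namespace Pool.Agent.L0h10.RU

open Matrix Module
open Pool.Agent.N996.BP Pool.Agent.N996.FP
open Pool.Agent.L0h10.TS (ar2 ar2_inj ar2_surj dk_ar2 kp_ar2 dk_rei dk_empty dk_mulVec_apply GRep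
  desc_sol desc_span dv dv_eq dv_map)
open Pool.Agent.L0h10.RQ
open Pool.Agent.N996.FP.Geo (e3)

variable {ι : Type} [Fintype ι] [DecidableEq ι] {deg : ι → ℕ} {H : HData ι}
  {A : ∀ n : ℕ, Submodule ℚ ((Fin (n + 1) → ι) → ℚ)}
  {T : ∀ n : ℕ, Submodule ℂ ((Fin (n + 1) → ι) → ℂ)} {w : ℕ}
  {B : Type} [Ring B] [Algebra ℂ B] (E : AData H B)

/-- The elements of the Lie algebra of the family are derivations. -/
lemma der_LA (fam : RFam H A) (hinv : arr (kp Unit H.Qir) ∈ AQ A (Unit ⊕ Unit))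
    (hmu : arr (E.mu * kp (Unit ⊕ Unit) H.Qir) ∈ AQ A (Unit ⊕ (Unit ⊕ Unit)))
    {z : Matrix ι ι ℂ} (hz : z ∈ LA A) (x y : B) :
    aop E.ε z (x * y) = aop E.ε z x * y + x * aop E.ε z y := by
  have h1 := hz _ _ hmu
  rw [itw_arr] at h1
  have h2 := congrArg mat h1
  rw [mat_dk, mat_arr] at h2
  -- the form on the two factors
  have h0 := congrArg mat (kill_AC hz (AC_of (invQ' fam hinv (Unit ⊕ Unit))))
  have e0 : ca (arr (kp (Unit ⊕ Unit) H.Qir)) = arr (kp (Unit ⊕ Unit) (cQ H.Qir)) := by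
    rw [kp_cQ]; rfl
  rw [e0, mat_dk, mat_arr] at h0
  have h3 : kp (Unit ⊕ Unit) (cQ H.Qir) * (dk (Unit ⊕ Unit) z)ᵀ =
      -(dk (Unit ⊕ Unit) z * kp (Unit ⊕ Unit) (cQ H.Qir)) := by
    rw [eq_neg_iff_add_eq_zero, add_comm]; exact h0
  have h4 : dk Unit z * (cQ E.mu * kp (Unit ⊕ Unit) (cQ H.Qir)) =
      cQ E.mu * (dk (Unit ⊕ Unit) z * kp (Unit ⊕ Unit) (cQ H.Qir)) := by
    have h5 : mat (0 : (Unit ⊕ (Unit ⊕ Unit) → ι) → ℂ) = 0 := rfl
    rw [h5, Matrix.mul_assoc (cQ E.mu), h3, Matrix.mul_neg, add_neg_eq_zero] at h2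
    exact h2
  have hQQ : kp (Unit ⊕ Unit) (cQ H.Qir) * kp (Unit ⊕ Unit) (cQ H.Qr) = 1 := by
    rw [← kp_mul, Qi_Q, kp_one]
  have h5 : dk Unit z * cQ E.mu = cQ E.mu * dk (Unit ⊕ Unit) z := by
    calc dk Unit z * cQ E.mu = dk Unit z * (cQ E.mu * kp (Unit ⊕ Unit) (cQ H.Qir)) *
          kp (Unit ⊕ Unit) (cQ H.Qr) := by
          rw [Matrix.mul_assoc, Matrix.mul_assoc (cQ E.mu), hQQ, Matrix.mul_one]
      _ = cQ E.mu * dk (Unit ⊕ Unit) z * (kp (Unit ⊕ Unit) (cQ H.Qir) *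
          kp (Unit ⊕ Unit) (cQ H.Qr)) := by
          rw [h4]; simp only [Matrix.mul_assoc]
      _ = _ := by rw [hQQ, Matrix.mul_one]
  have h1 := congrArg (fun M => M *ᵥ tens (un (E.ε x)) (un (E.ε y))) h5
  simp only [← Matrix.mulVec_mulVec] at h1
  rw [dk_tens, dk_un, dk_un, E.mu_tens, dk_un, ← ep_aop, ← ep_aop, ← ep_aop, Matrix.mulVec_add,
    E.mu_tens, E.mu_tens] at h1
  have h2 : ∀ a b : B, un (E.ε a) + un (E.ε b) = un (E.ε (a + b)) := by
    intro a b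
    rw [map_add]
    rfl
  rw [h2] at h1
  exact E.ε.injective (un_inj h1)

/-- Derivations are determined by the degree one part. -/
lemma der_zero' {z : Matrix ι ι ℂ}
    (hd : ∀ x y, aop E.ε z (x * y) = aop E.ε z x * y + x * aop E.ε z y)
    (h0 : ∀ v ∈ E.V, z *ᵥ v = 0) : z = 0 := by
  have h1 : aop E.ε z 1 = 0 := by
    have h2 := hd 1 1
    rw [mul_one, mul_one, one_mul] at h2
    exact left_eq_add.1 h2
  refine aop_inj (ε := E.ε) fun x => ?_
  have hx : x ∈ Algebra.adjoin ℂ {x | ∀ i, E.deg i ≠ 1 → E.ε x i = 0} := by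
    rw [E.gen]; trivial
  have h3 : ∀ x, aop E.ε (0 : Matrix ι ι ℂ) x = 0 := fun x => by
    rw [aop_apply, Matrix.zero_mulVec, map_zero]
  rw [h3]
  induction hx using Algebra.adjoin_induction with
  | mem x hx => rw [aop_apply, h0 _ hx, map_zero]
  | algebraMap r => rw [Algebra.algebraMap_eq_smul_one, map_smul, h1, smul_zero]
  | add x y _ _ hx hy => rw [map_add, hx, hy, add_zero]
  | mul x y _ _ hx hy => rw [hd, hx, hy, zero_mul, mul_zero, add_zero]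

/-- The algebra for the group of the Tate arrays. -/
noncomputable def adata (D : Dat H A T w)
    (hmu : arr (E.mu * kp (Unit ⊕ Unit) H.Qir) ∈ AQ A (Unit ⊕ (Unit ⊕ Unit)))
    (hdeg : ∀ y ∈ LT T, ∀ i k, E.deg i ≠ E.deg k → y i k = 0) : RP.AData D.hd B where
  ε := E.ε
  c := fun k i j => (E.c k i j : ℂ)
  deg := E.deg
  hc i j k := E.hc i j k
  lm s t ht := by
    refine E.mul_of_itw ?_
    have h1 : arr (cQ E.mu * kp (Unit ⊕ Unit) (RP.HData.Qir D.hd)) ∈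
        RP.BB D.hd (Unit ⊕ (Unit ⊕ Unit)) := by
      have e1 : RP.HData.Qir D.hd = cQ H.Qir := by
        change RP.cR H.D.Qi = cQ H.Qir
        rw [H.hQir]
        ext i k
        change (((H.Qir i k : ℚ) : ℝ) : ℂ) = ((H.Qir i k : ℚ) : ℂ)
        push_cast
        rfl
      have h2 : arr (cQ E.mu * kp (Unit ⊕ Unit) (cQ H.Qir)) =
          ca (arr (E.mu * kp (Unit ⊕ Unit) H.Qir)) := (itw_arr E.mu).symm
      rw [e1, h2]
      have h3 : ca (rei e3 (arr (E.mu * kp (Unit ⊕ Unit) H.Qir))) ∈ T 2 := D.le 2 _ (hmu 2 e3)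
      have h4 := D.BB_rei' e3.symm (D.mem_BB.2 h3)
      exact h4
    exact RP.isItw_of (P := cQ E.mu) h1 s t ht
  one := E.one
  ldeg s t ht i k h := by
    have hP := isPj_pS s
    have h1 : ∀ m ∈ Finset.Icc (-(w : ℤ)) w, pS s m * pd E.deg (E.deg k) =
        pd E.deg (E.deg k) * pS s m := fun m hm =>
      (hP.comm (c := pd E.deg (E.deg k)) (pd_comm (fun i k h => hdeg _ s.2.1 i k h) _).symm hm).symm
    have h2 : ∀ m ∈ Finset.Icc (-(w : ℤ)) w, pS s m i k = 0 := by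
      intro m hm
      have h3 := congrFun (congrFun (h1 m hm) i) k
      rw [pd, Matrix.mul_diagonal, Matrix.diagonal_mul, if_pos rfl, if_neg h, mul_one,
        zero_mul] at h3
      exact h3
    change D.hd.l s t i k = 0
    rw [D.hd.l_apply, Matrix.sum_apply]
    refine Finset.sum_eq_zero fun m hm => ?_
    rw [Matrix.smul_apply]
    have h3 : D.hd.π s m i k = 0 := h2 m hm
    rw [h3, smul_zero]
  sq := E.sq
  gen := E.gen

end Pool.Agent.L0h10.RU
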