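import Pool.Agent.L0h10.RW.Crd

/-!
# Structures of abelian type: the Lie algebras
-/

set_option linter.unusedSectionVars false

namespace Pool.Agent.L0h10.RU

open Matrix Module
open Pool.Agent.N996.BP Pool.Agent.N996.FP
open Pool.Agent.L0h10.TS (ar2 ar2_inj ar2_surj dk_ar2 kp_ar2 dk_rei dk_empty dk_mulVec_apply GRep
  desc_sol desc_span dv dv_eq dv_map)
open Pool.Agent.L0h10.RQ

variable {ι : Type} [Fintype ι] [DecidableEq ι] {deg : ι → ℕ} {H : HData ι}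
  {A : ∀ n : ℕ, Submodule ℚ ((Fin (n + 1) → ι) → ℚ)}
  {B : Type} [Ring B] [Algebra ℂ B] (E : AData H B)

/-- The action on a top exterior power. -/
lemma alt_tr {V W : Type*} [AddCommGroup V] [Module ℂ V] [AddCommGroup W] [Module ℂ W] {d : ℕ}
    (f : V [⋀^Fin d]→ₗ[ℂ] W) (b u : Fin d → V) (C : Matrix (Fin d) (Fin d) ℂ)
    (hu : ∀ r, u r = ∑ s, C r s • b s) :
    ∑ r, f (Function.update b r (u r)) = C.trace • f b := by
  rw [Matrix.trace, Finset.sum_smul]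
  refine Finset.sum_congr rfl fun r _ => ?_
  let Φ : V →ₗ[ℂ] W := f.toMultilinearMap.toLinearMap b r
  have hΦ : ∀ v, Φ v = f (Function.update b r v) := fun v => rfl
  rw [← hΦ, hu r, map_sum, Finset.sum_eq_single r]
  · rw [map_smul, hΦ, Function.update_eq_self, Matrix.diag_apply]
  · intro s _ hs
    have h3 : Φ (b s) = 0 := by
      rw [hΦ]
      exact f.map_update_self b (Ne.symm hs)
    rw [map_smul, h3, smul_zero]
  · intro hn; exact absurd (Finset.mem_univ _) hn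

/-- The action on the product of elements of degree one. -/
lemma act_pL {z : Matrix ι ι ℂ}
    (hd : ∀ x y, aop E.ε z (x * y) = aop E.ε z x * y + x * aop E.ε z y)
    (hV : ∀ v ∈ E.V, z *ᵥ v ∈ E.V) {d : ℕ} (v : Fin d → E.V) (C : Matrix (Fin d) (Fin d) ℂ)
    (hC : ∀ r, z *ᵥ (v r : ι → ℂ) = ∑ s, C r s • (v s : ι → ℂ)) :
    z *ᵥ E.ε (pL E.L v) = C.trace • E.ε (pL E.L v) := by
  have h1 := der_pL E.L (aop E.ε z) hd (fun v => ⟨z *ᵥ (v : ι → ℂ), hV _ v.2⟩) (fun v => by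
    rw [aop_apply, E.L_apply, LinearEquiv.apply_symm_apply, E.L_apply]) v
  have h2 := alt_tr (pA E.L E.L_sq d) v (fun r => ⟨z *ᵥ (v r : ι → ℂ), hV _ (v r).2⟩) C
    fun r => by
      apply Subtype.ext
      rw [Submodule.coe_sum]
      exact hC r
  simp only [pA_apply] at h2
  rw [h2] at h1
  rw [← ep_aop, h1, map_smul]

lemma aop_V (hdeg : E.deg = deg) {v : ι → ℂ} : v ∈ E.V ↔ pd deg 1 *ᵥ v = v := by
  rw [E.mem_V', E.cQ_pr1, hdeg]
  rfl

section H

/-- The projectors to the degrees are self-adjoint. -/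
lemma nz_pd (hd : Hom2 deg H) (hC : cR H.D.C * pd deg 1 = pd deg 1 * cR H.D.C) :
    (nz H (pd deg 1))ᴴ = nz H (pd deg 1) := by
  have h5 : (cR H.D.M)ᴴ * cR H.D.M = cQ H.Qr * cR H.D.C := by
    rw [cR_conjTranspose, ← cR_mul, H.D.hS, cR_mul, cR_Q]
  have h6 : (cR H.D.M)ᴴ * (cR H.D.Mi)ᴴ = 1 := by
    rw [← Matrix.conjTranspose_mul, Mi_M, Matrix.conjTranspose_one]
  have h6' : (cR H.D.Mi)ᴴ * (cR H.D.M)ᴴ = 1 := mul_eq_one_comm.1 h6
  have hx : (pd deg 1)ᴴ = pd deg 1 := by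
    rw [pd, Matrix.diagonal_conjTranspose]
    congr 1
    funext i
    rw [Pi.star_apply]
    split_ifs <;> simp
  have hQ : cQ H.Qr * pd deg 1 = pd deg 1 * cQ H.Qr := pd_comm (fun i k h => by
    rw [cQ, Matrix.map_apply, hd.Q i k h, Rat.cast_zero]) 1
  have h7 : (cR H.D.M)ᴴ * nz H (pd deg 1) = pd deg 1 * (cR H.D.M)ᴴ := by
    rw [nz]
    calc (cR H.D.M)ᴴ * (cR H.D.M * pd deg 1 * cR H.D.Mi) =
        ((cR H.D.M)ᴴ * cR H.D.M) * pd deg 1 * cR H.D.Mi := by simp only [Matrix.mul_assoc]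
      _ = pd deg 1 * ((cR H.D.M)ᴴ * cR H.D.M) * cR H.D.Mi := by
          rw [h5, Matrix.mul_assoc (cQ H.Qr), hC, ← Matrix.mul_assoc, hQ]
          simp only [Matrix.mul_assoc]
      _ = pd deg 1 * (cR H.D.M)ᴴ := by
          rw [Matrix.mul_assoc, Matrix.mul_assoc _ (cR H.D.M), M_Mi, Matrix.mul_one]
  have h8 : nz H (pd deg 1) = (cR H.D.Mi)ᴴ * pd deg 1 * (cR H.D.M)ᴴ := by
    calc nz H (pd deg 1) = ((cR H.D.Mi)ᴴ * (cR H.D.M)ᴴ) * nz H (pd deg 1) := by
          rw [h6', Matrix.one_mul]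
      _ = _ := by rw [Matrix.mul_assoc, h7, Matrix.mul_assoc]
  rw [h8, Matrix.conjTranspose_mul, Matrix.conjTranspose_mul,
    Matrix.conjTranspose_conjTranspose, Matrix.conjTranspose_conjTranspose, hx, ← h8, nz,
    Matrix.mul_assoc]

end H

variable {ℓ : ℕ} [hℓ : Fact ℓ.Prime] {Γ : Type*} [Group Γ] [TopologicalSpace Γ]
  {P : GRep deg ℚ_[ℓ] Γ} {j : ℚ_[ℓ] →+* ℂ} {N : ℕ}

variable (P) in
/-- Tate endomorphisms of the degree one part. -/
def IsE1 (a : Matrix ι ι ℚ_[ℓ]) : Prop :=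
  IsE P a ∧ ∀ i k, deg i ≠ 1 ∨ deg k ≠ 1 → a i k = 0

variable (P) in
/-- The centre of the algebra of the Tate endomorphisms of the degree one part. -/
def IsCE1 (u : Matrix ι ι ℚ_[ℓ]) : Prop := IsE1 P u ∧ ∀ a, IsE1 P a → u * a = a * u

namespace Crd2

variable [IsTopologicalGroup Γ] [CompactSpace Γ] (D : Crd2 deg j P H A N)
include D

lemma pd_AC (d : ℕ) : ar2 (pd deg d * cQ H.Qir) ∈ AC A (Fin (1 + 1)) := by
  obtain ⟨Δ, hQ⟩ := D.form
  exact D.small 1 (by have := D.hN; omega) _ (pd_TT D.hd hQ d)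

lemma LT_pd {z : Matrix ι ι ℂ} (hz : z ∈ LT (TT j P)) (d : ℕ) : z * pd deg d = pd deg d * z := by
  obtain ⟨Δ, hQ⟩ := D.form
  exact pd_comm (M := z) (deg := deg) (fun i k h => LT_deg D.hd hQ hz h) d

lemma LA_pd {z : Matrix ι ι ℂ} (hz : z ∈ LA A) (d : ℕ) : z * pd deg d = pd deg d * z :=
  (D.dat0.AC_comm (D.pd_AC d) hz).symm

lemma C_pd : cR H.D.C * pd deg 1 = pd deg 1 * cR H.D.C := by
  obtain ⟨w, DD⟩ := D.dat0.exists_dat
  exact DD.AC_C (D.pd_AC 1) (fixA_C D.fam)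

lemma LT_LA {z : Matrix ι ι ℂ} (hz : z ∈ LT (TT j P)) : z ∈ LA A :=
  D.dat0.sub (by rw [LT_TI]; exact hz)

variable (hE : E.deg = deg)
  (hmu : arr (E.mu * kp (Unit ⊕ Unit) H.Qir) ∈ AQ A (Unit ⊕ (Unit ⊕ Unit)))
include hE hmu

/-- Elements of the Lie algebra of the family which kill the degree one part. -/
lemma zero_of_V {c : Matrix ι ι ℂ} (hc : c ∈ LA A) (h : c * pd deg 1 = 0) : c = 0 := by
  refine der_zero' E (der_LA E D.fam D.hinv hmu hc) fun v hv => ?_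
  rw [aop_V E hE] at hv
  rw [← hv, Matrix.mulVec_mulVec, h, Matrix.zero_mulVec]

/-- If the centre is zero, then the elements of the Lie algebra of the family which commute with the
Lie algebra of the Tate arrays are zero. -/
theorem cen_zero1 (htop : ∃ v : Fin (finrank ℂ E.V) → E.V, pL E.L v ≠ 0)
    (hcen : ∀ y ∈ LT (TT j P), (∀ z ∈ LT (TT j P), y * z = z * y) → y = 0)
    {c : Matrix ι ι ℂ} (hcA : c ∈ LA A)
    (hcT : ∀ z ∈ LT (TT j P), c * z = z * c) (hn : Commute (nz H c)ᴴ (nz H c)) : c = 0 := by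
  classical
  obtain ⟨w₀, DD⟩ := D.dat0.exists_dat
  have hcp := D.LA_pd hcA 1
  obtain ⟨c', hc'⟩ : ∃ c', c' = c * pd deg 1 := ⟨_, rfl⟩
  have hpp : pd deg 1 * pd deg 1 = (pd deg 1 : Matrix ι ι ℂ) := by
    rw [pd, Matrix.diagonal_mul_diagonal]
    congr 1
    funext i
    split_ifs <;> simp
  -- normality
  have hn' : Commute (nz H c')ᴴ (nz H c') := by
    obtain ⟨C₀, hC₀⟩ : ∃ C₀, C₀ = nz H c := ⟨_, rfl⟩
    obtain ⟨P₀, hP₀⟩ : ∃ P₀, P₀ = nz H (pd deg 1) := ⟨_, rfl⟩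
    have h1 : P₀ᴴ = P₀ := by rw [hP₀]; exact nz_pd D.hd D.C_pd
    have h2 : C₀ * P₀ = P₀ * C₀ := by rw [hC₀, hP₀, ← nz_mul, hcp, nz_mul]
    have h3 : P₀ * C₀ᴴ = C₀ᴴ * P₀ := by
      have h4 := congrArg Matrix.conjTranspose h2
      rwa [Matrix.conjTranspose_mul, Matrix.conjTranspose_mul, h1] at h4
    rw [← hC₀] at hn
    have h5 : C₀ᴴ * C₀ = C₀ * C₀ᴴ := hn
    rw [hc', nz_mul, ← hC₀, ← hP₀]
    change (C₀ * P₀)ᴴ * (C₀ * P₀) = (C₀ * P₀) * (C₀ * P₀)ᴴ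
    rw [Matrix.conjTranspose_mul, h1]
    calc P₀ * C₀ᴴ * (C₀ * P₀) = C₀ᴴ * (P₀ * C₀) * P₀ := by
          rw [h3]; simp only [Matrix.mul_assoc]
      _ = C₀ᴴ * C₀ * P₀ * P₀ := by rw [← h2]; simp only [Matrix.mul_assoc]
      _ = C₀ * (C₀ᴴ * P₀) * P₀ := by rw [h5]; simp only [Matrix.mul_assoc]
      _ = C₀ * P₀ * (P₀ * C₀ᴴ) := by rw [← h3, ← Matrix.mul_assoc C₀, Matrix.mul_assoc, h3]
  obtain ⟨S, S', μ, h⟩ := exists_dg hn'
  have hSS : S * S' = 1 := mul_eq_one_comm.1 h.inv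
  by_contra hc0
  have hc'0 : c' ≠ 0 := fun h0 => hc0 (D.zero_of_V E hE hmu hcA (by rw [← hc', h0]))
  -- an eigenvalue
  obtain ⟨i₀, hi₀⟩ : ∃ i, μ i ≠ 0 := by
    by_contra hcon
    push Not at hcon
    apply hc'0
    have h1 := h.eq
    have h2 : Matrix.diagonal μ = (0 : Matrix ι ι ℂ) := by
      rw [show μ = fun _ => 0 from funext hcon, Matrix.diagonal_zero]
    rw [add_zero, h2] at h1
    calc c' = (S * S') * c' * (S * S') := by rw [hSS, Matrix.one_mul, Matrix.mul_one]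
      _ = S * (S' * c' * S) * S' := by simp only [Matrix.mul_assoc]
      _ = 0 := by rw [h1, Matrix.mul_zero, Matrix.zero_mul]
  obtain ⟨l, hl⟩ : ∃ l, l = μ i₀ := ⟨_, rfl⟩
  have hl0 : l ≠ 0 := by rw [hl]; exact hi₀
  obtain ⟨d, hd⟩ : ∃ d, Fintype.card {i // μ i = l} = d := ⟨_, rfl⟩
  have hd0 : 0 < d := by
    rw [← hd]
    exact Fintype.card_pos_iff.2 ⟨⟨i₀, hl.symm⟩⟩
  obtain ⟨R, hR, hRc, hRz⟩ := exists_eig h l hd
  have hrow : ∀ (z : Matrix ι ι ℂ) (C : Matrix (Fin d) (Fin d) ℂ), R * zᵀ = C * R →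
      ∀ r, z *ᵥ R r = ∑ s, C r s • R s := by
    intro z C hC r
    funext i
    have h1 := congrFun (congrFun hC r) i
    rw [Matrix.mul_apply, Matrix.mul_apply] at h1
    rw [Matrix.mulVec, dotProduct, Finset.sum_apply]
    simp only [Pi.smul_apply, smul_eq_mul]
    rw [← h1]
    refine Finset.sum_congr rfl fun k _ => ?_
    rw [Matrix.transpose_apply, mul_comm]
  have hceig : ∀ r, c' *ᵥ R r = l • R r := by
    intro r
    rw [hrow c' _ hRc r, Finset.sum_eq_single r]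
    · rw [Matrix.diagonal_apply_eq]
    · intro s _ hs
      rw [Matrix.diagonal_apply_ne _ (Ne.symm hs), zero_smul]
    · intro hn; exact absurd (Finset.mem_univ _) hn
  have hRV : ∀ r, R r ∈ E.V := by
    intro r
    rw [aop_V E hE]
    have h1 : pd deg 1 *ᵥ (l • R r) = l • R r := by
      rw [← hceig r, Matrix.mulVec_mulVec, hc', hcp, ← Matrix.mul_assoc, hpp]
    rw [Matrix.mulVec_smul] at h1
    exact smul_right_injective _ hl0 h1
  let v : Fin d → E.V := fun r => ⟨R r, hRV r⟩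
  have hli : LinearIndependent ℂ v := LinearIndependent.of_comp E.V.subtype hR
  have hω := pL_ne' E.L E.L_sq htop v hli
  obtain ⟨a, ha⟩ : ∃ a : ι → ℂ, a = E.ε (pL E.L v) := ⟨_, rfl⟩
  have ha0 : a ≠ 0 := by
    rw [ha]
    intro h0
    exact hω (E.ε.injective (by rw [h0, map_zero]))
  have hstab : ∀ z : Matrix ι ι ℂ, z * pd deg 1 = pd deg 1 * z → ∀ v ∈ E.V, z *ᵥ v ∈ E.V := by
    intro z hz v hv
    rw [aop_V E hE] at hv ⊢
    rw [Matrix.mulVec_mulVec, ← hz, ← Matrix.mulVec_mulVec, hv]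
  -- the top exterior power of the eigenspace
  have hm : (fun w : Fin (0 + 1) → ι => a (w 0)) ∈ TI j P 0 := by
    rw [mem_TI]
    intro z hz
    have hzp := D.LT_pd hz 1
    have hzc : z * c' = c' * z := by
      rw [hc', ← Matrix.mul_assoc, ← hcT z hz, Matrix.mul_assoc, hzp, Matrix.mul_assoc]
    obtain ⟨C, hC, p, hp, htr⟩ := hRz z hzc
    have h1 : C.trace = 0 := by
      rw [htr]
      refine DD.tr_comm (by rw [LT_TI]; exact hcen) (fun z hz => ?_) (by rw [LT_TI]; exact hz)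
      rw [LT_TI] at hz
      refine hp z ?_
      rw [hc', ← Matrix.mul_assoc, ← hcT z hz, Matrix.mul_assoc, D.LT_pd hz 1, Matrix.mul_assoc]
    have h2 := act_pL E (der_LA E D.fam D.hinv hmu (D.LT_LA hz)) (hstab z hzp) v C
      (hrow z C hC)
    rw [← ha, h1, zero_smul] at h2
    funext w
    have h3 : w = fun _ => w 0 := by
      funext i
      have h4 : i = 0 := Fin.fin_one_eq_zero i
      rw [h4]
    rw [h3, TS.dv_one]
    exact congrFun h2 (w 0)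
  have h1 := kill_AC hcA (D.small' (n := 0) (by have := D.hN; omega) hm)
  have h2 : c *ᵥ a = 0 := by
    funext i
    have h4 := congrFun h1 fun _ => i
    rw [dv_eq, TS.dv_one] at h4
    exact h4
  have h3 := act_pL E (der_LA E D.fam D.hinv hmu hcA) (hstab c hcp) v
    (Matrix.diagonal fun _ => l) (fun r => by
      rw [Finset.sum_eq_single r]
      · rw [Matrix.diagonal_apply_eq]
        change c *ᵥ R r = l • R r
        have h5 := (aop_V E hE).1 (hRV r)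
        rw [← hceig r, hc', ← Matrix.mulVec_mulVec, h5]
      · intro s _ hs
        rw [Matrix.diagonal_apply_ne _ (Ne.symm hs), zero_smul]
      · intro hn; exact absurd (Finset.mem_univ _) hn)
  rw [← ha, h2, Matrix.trace_diagonal, Finset.sum_const, Finset.card_univ, Fintype.card_fin,
    nsmul_eq_mul] at h3
  have h4 := (smul_eq_zero.1 h3.symm).resolve_right ha0
  rw [mul_eq_zero, or_iff_left hl0, Nat.cast_eq_zero] at h4
  omega

/-- If the centre is zero, then the Lie algebras coincide. -/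
theorem LA_le_tr1 (htop : ∃ v : Fin (finrank ℂ E.V) → E.V, pL E.L v ≠ 0)
    (hcen : ∀ y ∈ LT (TT j P), (∀ z ∈ LT (TT j P), y * z = z * y) → y = 0)
    {x : Matrix ι ι ℂ} (hx : x ∈ LA A) : x ∈ LT (TT j P) := by
  have D0 := D.dat0
  obtain ⟨y', hy', hort⟩ := exists_dec (H := H) (LT (TI j P)) x
  obtain ⟨c, hcdef⟩ : ∃ c, c = x - y' := ⟨_, rfl⟩
  rw [← hcdef] at hort
  have hcA : c ∈ LA A := by
    rw [hcdef]
    exact Submodule.sub_mem _ hx (D0.sub hy')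
  have hcT : ∀ z ∈ LT (TI j P), c * z = z * c := fun z hz => D0.orth_comm hcA hort hz
  have hcen' : ∀ z ∈ LA A, c * z = z * c := fun z hz => D0.AC_comm (D0.orth_AC hcT) hz
  have h1 : c = 0 := by
    refine D.cen_zero1 E hE hmu htop hcen hcA (fun z hz => hcT z (by rw [LT_TI]; exact hz)) ?_
    have h2 : nz H (adj H c) = (nz H c)ᴴ := (nz_adj D.hinv hcA).symm
    change (nz H c)ᴴ * nz H c = nz H c * (nz H c)ᴴ
    rw [← h2, ← nz_mul, ← nz_mul, hcen' _ (adj_LA D.fam hcA)]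
  rw [hcdef, sub_eq_zero] at h1
  rw [h1, ← LT_TI]
  exact hy'

end Crd2

end Pool.Agent.L0h10.RU
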