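import Pool.Agent.L0h10.RW.Crd1

/-!
# Structures of abelian type: the cases
-/

set_option linter.unusedSectionVars false

namespace Pool.Agent.L0h10.RU

open Matrix Module
open Pool.Agent.N996.BP Pool.Agent.N996.FP
open Pool.Agent.L0h10.TS (ar2 ar2_inj ar2_surj dk_ar2 kp_ar2 dk_rei dk_empty dk_mulVec_apply GRep
  desc_sol desc_span dv dv_eq dv_map)
open Pool.Agent.L0h10.RQ

variable {ι : Type} [Fintype ι] [DecidableEq ι] {deg : ι → ℕ} {H : HData ι}
  {A : ∀ n : ℕ, Submodule ℚ ((Fin (n + 1) → ι) → ℚ)}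
  {B : Type} [Ring B] [Algebra ℂ B] (E : AData H B)
  {ℓ : ℕ} [hℓ : Fact ℓ.Prime] {Γ : Type*} [Group Γ] [TopologicalSpace Γ]
  {P : GRep deg ℚ_[ℓ] Γ} {j : ℚ_[ℓ] →+* ℂ} {N : ℕ}

/-- The projector over `L`. -/
def pdL (L : Type) [Field L] (deg : ι → ℕ) (d : ℕ) : Matrix ι ι L :=
  Matrix.diagonal fun i => if deg i = d then 1 else 0

lemma pdL_map (deg : ι → ℕ) (d : ℕ) (j : ℚ_[ℓ] →+* ℂ) :
    (pdL ℚ_[ℓ] deg d).map j = pd deg d := by
  ext a b
  rw [Matrix.map_apply, pdL, pd, Matrix.diagonal_apply, Matrix.diagonal_apply]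
  split_ifs <;> simp

lemma pdL_sq (L : Type) [Field L] (deg : ι → ℕ) (d : ℕ) :
    pdL L deg d * pdL L deg d = pdL L deg d := by
  rw [pdL, Matrix.diagonal_mul_diagonal]
  congr 1
  funext i
  split_ifs <;> simp

lemma pdL_comm {L : Type} [Field L] {M : Matrix ι ι L} (hM : ∀ i k, deg i ≠ deg k → M i k = 0)
    (d : ℕ) : M * pdL L deg d = pdL L deg d * M := by
  ext i k
  rw [pdL, Matrix.mul_diagonal, Matrix.diagonal_mul]
  by_cases h : deg i = deg k
  · rw [h]; ring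
  · rw [hM i k h]; ring

lemma pd_sq (deg : ι → ℕ) (d : ℕ) : pd deg d * pd deg d = (pd deg d : Matrix ι ι ℂ) := by
  rw [pd, Matrix.diagonal_mul_diagonal]
  congr 1
  funext i
  split_ifs <;> simp

lemma pd_tr (deg : ι → ℕ) (d : ℕ) : (pd deg d)ᵀ = (pd deg d : Matrix ι ι ℂ) := by
  rw [pd, Matrix.diagonal_transpose]

/-- Matrices which are supported in degree one. -/
lemma supp_pd {y : Matrix ι ι ℂ} (h1 : pd deg 1 * y = y) (h2 : y * pd deg 1 = y) {i k : ι}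
    (h : deg i ≠ 1 ∨ deg k ≠ 1) : y i k = 0 := by
  rcases h with h | h
  · have h3 := congrFun (congrFun h1 i) k
    rw [pd, Matrix.diagonal_mul, if_neg h, zero_mul] at h3
    exact h3.symm
  · have h3 := congrFun (congrFun h2 i) k
    rw [pd, Matrix.mul_diagonal, if_neg h, mul_zero] at h3
    exact h3.symm

namespace Crd2

variable [IsTopologicalGroup Γ] [CompactSpace Γ] (D : Crd2 deg j P H A N)
include D

/-- The centre of the commutant in degree one is defined over `L`. -/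
lemma cen_span1 {y : Matrix ι ι ℂ} (hp1 : pd deg 1 * y = y) (hp2 : y * pd deg 1 = y)
    (h1 : ∀ z ∈ LT (TT j P), z * y = y * z)
    (h2 : ∀ x', (∀ z ∈ LT (TT j P), z * x' = x' * z) → pd deg 1 * x' = x' →
      x' * pd deg 1 = x' → y * x' = x' * y) :
    y ∈ Submodule.span ℂ {x | ∃ u : Matrix ι ι ℚ_[ℓ], IsCE1 P u ∧ x = u.map j} := by
  obtain ⟨Δ, hQ⟩ := D.form
  have hpp := pd_sq deg 1
  -- the matrix commutes with the endomorphisms
  have hE : ∀ a : Matrix ι ι ℚ_[ℓ], IsE P a → y * a.map j = a.map j * y := by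
    intro a ha
    have hap : a.map j * pd deg 1 = pd deg 1 * a.map j :=
      pd_comm (M := a.map j) (deg := deg) (fun i k h => by
        rw [Matrix.map_apply, ha.1 i k h, map_zero]) 1
    have h3 := h2 (pd deg 1 * a.map j) (fun z hz => by
      rw [← Matrix.mul_assoc, D.LT_pd hz 1, Matrix.mul_assoc, D.LT_E ha hz, Matrix.mul_assoc])
      (by rw [← Matrix.mul_assoc, hpp])
      (by rw [← hap, Matrix.mul_assoc, hpp])
    rw [← Matrix.mul_assoc, hp2, ← hap, Matrix.mul_assoc, hp1] at h3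
    exact h3
  have hdeg : ∀ i k, deg i ≠ deg k → y i k = 0 := by
    intro i k hik
    by_cases h : deg i = 1
    · exact supp_pd hp1 hp2 (Or.inr fun h' => hik (h.trans h'.symm))
    · exact supp_pd hp1 hp2 (Or.inl h)
  -- it commutes with an open subgroup
  obtain ⟨Δ', hΔ'⟩ := TT_fix (D.comm_TT' h1)
  have hR : ∀ g ∈ Δ ⊓ Δ', y * (P.R g).map j = (P.R g).map j * y := by
    intro g hg
    obtain ⟨hg1, hg2⟩ := OpenSubgroup.mem_inf.1 hg
    obtain ⟨s, hs⟩ := exists_sq (j (P.χ g))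
    have hs0 : s ≠ 0 := by
      rintro rfl
      apply chi_ne (P := P) g
      have h1 : j (P.χ g) = 0 := by rw [← hs]; ring
      exact (map_eq_zero j).1 h1
    have h3 := hΔ' g hg2 s hs
    rw [kp_ar2] at h3
    have h4 : Rs j P s g * (y * cQ H.Qir) * (Rs j P s g)ᵀ = y * cQ H.Qir := ar2_inj h3
    have h5 := Rs_Qi hQ hg1 hs
    have h6 := Ri_Rs hQ hg1 hs
    rw [Ri] at h6
    obtain ⟨R, hRR⟩ : ∃ R, R = Rs j P s g := ⟨_, rfl⟩
    rw [← hRR] at h4 h5 h6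
    have h7 : R * y = y * R := by
      calc R * y = R * y * (cQ H.Qir * Rᵀ * cQ H.Qr * R) := by rw [h6, Matrix.mul_one]
        _ = (R * (y * cQ H.Qir) * Rᵀ) * cQ H.Qr * R := by simp only [Matrix.mul_assoc]
        _ = y * (R * cQ H.Qir * Rᵀ) * cQ H.Qr * R := by rw [h4, h5]
        _ = y * R * (cQ H.Qir * Rᵀ * cQ H.Qr * R) := by simp only [Matrix.mul_assoc]
        _ = y * R := by rw [h6, Matrix.mul_one]
    rw [hRR, Rs] at h7
    have h8 : Matrix.diagonal (fun i => s ^ deg i) * y =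
        y * Matrix.diagonal (fun i => s ^ deg i) := by
      ext i k
      rw [Matrix.diagonal_mul, Matrix.mul_diagonal]
      by_cases h : deg i = deg k
      · rw [h, mul_comm]
      · rw [hdeg i k h, zero_mul, mul_zero]
    rw [← Matrix.mul_assoc y, ← h8, Matrix.mul_assoc, Matrix.mul_assoc] at h7
    have h9 : Matrix.diagonal (fun i => (s ^ deg i)⁻¹) *
        Matrix.diagonal (fun i => s ^ deg i) = (1 : Matrix ι ι ℂ) := by
      rw [Matrix.diagonal_mul_diagonal, ← Matrix.diagonal_one]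
      congr 1
      funext i
      exact inv_mul_cancel₀ (pow_ne_zero _ hs0)
    have h10 := congrArg (fun z => Matrix.diagonal (fun i => (s ^ deg i)⁻¹) * z) h7
    beta_reduce at h10
    rw [← Matrix.mul_assoc, h9, Matrix.one_mul, ← Matrix.mul_assoc, h9, Matrix.one_mul] at h10
    exact h10.symm
  have h3 := comm_desc (j := j) ({a | IsE P a} ∪ {a | ∃ g ∈ Δ ⊓ Δ', a = P.R g}) (y := y) (by
    rintro a (ha | ⟨g, hg, rfl⟩)
    · exact hE a ha
    · exact hR g hg)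
  -- the projection to degree one
  have h4 : ∀ x ∈ Submodule.span ℂ {x | ∃ u : Matrix ι ι ℚ_[ℓ],
      (∀ a ∈ ({a | IsE P a} ∪ {a | ∃ g ∈ Δ ⊓ Δ', a = P.R g} : Set (Matrix ι ι ℚ_[ℓ])),
        u * a = a * u) ∧ x = u.map j},
      pd deg 1 * x ∈ Submodule.span ℂ {x | ∃ u : Matrix ι ι ℚ_[ℓ], IsCE1 P u ∧ x = u.map j} := by
    intro x hx
    induction hx using Submodule.span_induction with
    | mem x hx =>
      obtain ⟨u, hu, rfl⟩ := hx
      have hudeg : ∀ i k, deg i ≠ deg k → u i k = 0 := by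
        intro i k hik
        have h5 := congrFun (congrFun (hu _ (Or.inl (diag_E (P := P)
          fun n => if n = deg k then 1 else 0))) i) k
        rw [Matrix.mul_diagonal, Matrix.diagonal_mul, if_pos rfl, if_neg hik, mul_one,
          zero_mul] at h5
        exact h5
      have hup := pdL_comm (deg := deg) hudeg 1
      refine Submodule.subset_span ⟨pdL ℚ_[ℓ] deg 1 * u, ⟨⟨⟨fun i k hik => ?_, Δ ⊓ Δ',
        fun g hg => ?_⟩, fun i k hik => ?_⟩, fun a ha => ?_⟩, ?_⟩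
      · rw [pdL, Matrix.diagonal_mul, hudeg i k hik, mul_zero]
      · rw [Matrix.mul_assoc, hu _ (Or.inr ⟨g, hg, rfl⟩), ← Matrix.mul_assoc,
          ← pdL_comm (M := P.R g) (deg := deg) (fun i k h => P.deg' g i k h) 1, Matrix.mul_assoc]
      · rcases hik with h | h
        · rw [pdL, Matrix.diagonal_mul, if_neg h, zero_mul]
        · rw [← hup, pdL, Matrix.mul_diagonal, if_neg h, mul_zero]
      · have hap := pdL_comm (M := a) (deg := deg) ha.1.1 1
        rw [Matrix.mul_assoc, hu a (Or.inl ha.1), ← Matrix.mul_assoc, ← hap, Matrix.mul_assoc]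
      · rw [map_mul_j, pdL_map]
    | zero => rw [Matrix.mul_zero]; exact Submodule.zero_mem _
    | add a b _ _ ha hb => rw [Matrix.mul_add]; exact Submodule.add_mem _ ha hb
    | smul r a _ ha => rw [Matrix.mul_smul]; exact Submodule.smul_mem _ _ ha
  have h5 := h4 _ h3
  rwa [hp1] at h5

/-- Consequence. -/
lemma adj_span1 (hadj : ∀ u, IsCE1 P u → u.map j * cQ H.Qir = cQ H.Qir * (u.map j)ᵀ)
    {y : Matrix ι ι ℂ} (hp1 : pd deg 1 * y = y) (hp2 : y * pd deg 1 = y)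
    (h1 : ∀ z ∈ LT (TT j P), z * y = y * z)
    (h2 : ∀ x', (∀ z ∈ LT (TT j P), z * x' = x' * z) → pd deg 1 * x' = x' →
      x' * pd deg 1 = x' → y * x' = x' * y) : y * cQ H.Qir = cQ H.Qir * yᵀ := by
  have h3 := D.cen_span1 hp1 hp2 h1 h2
  clear hp1 hp2 h1 h2
  induction h3 using Submodule.span_induction with
  | mem x hx => obtain ⟨u, hu, rfl⟩ := hx; exact hadj u hu
  | zero => rw [Matrix.zero_mul, Matrix.transpose_zero, Matrix.mul_zero]
  | add a b _ _ ha hb => rw [Matrix.add_mul, ha, hb, Matrix.transpose_add, Matrix.mul_add]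
  | smul r a _ ha => rw [Matrix.smul_mul, ha, Matrix.transpose_smul, Matrix.mul_smul]

variable (hE : E.deg = deg)
  (hmu : arr (E.mu * kp (Unit ⊕ Unit) H.Qir) ∈ AQ A (Unit ⊕ (Unit ⊕ Unit)))

include hE hmu in
/-- If the centre is self-adjoint, then the Lie algebras coincide. -/
theorem LA_le1 (hadj : ∀ u, IsCE1 P u → u.map j * cQ H.Qir = cQ H.Qir * (u.map j)ᵀ)
    {x : Matrix ι ι ℂ} (hx : x ∈ LA A) : x ∈ LT (TT j P) := by
  have D0 := D.dat0
  obtain ⟨y', hy', hort⟩ := exists_dec (H := H) (LT (TI j P)) x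
  obtain ⟨c, hcdef⟩ : ∃ c, c = x - y' := ⟨_, rfl⟩
  rw [← hcdef] at hort
  have hcA : c ∈ LA A := by
    rw [hcdef]
    exact Submodule.sub_mem _ hx (D0.sub hy')
  have hcT : ∀ z ∈ LT (TI j P), c * z = z * c := fun z hz => D0.orth_comm hcA hort hz
  have hcp := D.LA_pd hcA 1
  have hpp := pd_sq deg 1
  obtain ⟨Δ, hQ⟩ := D.form
  have hQp : cQ H.Qir * pd deg 1 = pd deg 1 * cQ H.Qir :=
    pd_comm (M := cQ H.Qir) (deg := deg) (fun i k h => by
      rw [cQ, Matrix.map_apply, D.hd.Qi i k h, Rat.cast_zero]) 1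
  have h2 : (c * pd deg 1) * cQ H.Qir = cQ H.Qir * (c * pd deg 1)ᵀ := by
    refine D.adj_span1 hadj ?_ ?_ (fun z hz => ?_) fun x' hx' h3 h4 => ?_
    · rw [hcp, ← Matrix.mul_assoc, hpp]
    · rw [Matrix.mul_assoc, hpp]
    · rw [← Matrix.mul_assoc, ← hcT z (by rw [LT_TI]; exact hz), Matrix.mul_assoc, D.LT_pd hz 1,
        Matrix.mul_assoc]
    · have h5 : x' * c = c * x' :=
        D0.AC_comm (D0.orth_AC fun z hz => (hx' z (by rwa [LT_TI] at hz)).symm) hcA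
      rw [Matrix.mul_assoc, h3, hcp, ← Matrix.mul_assoc, h4, h5]
  have h3 := LA_skew D0.hinv hcA
  have h4 : (c * pd deg 1) * cQ H.Qir = -(cQ H.Qir * (c * pd deg 1)ᵀ) := by
    have h5 : cQ H.Qir * cᵀ = -(c * cQ H.Qir) := by
      rw [eq_neg_iff_add_eq_zero, add_comm]; exact h3
    rw [hcp, Matrix.transpose_mul, pd_tr, ← Matrix.mul_assoc, h5, Matrix.neg_mul, neg_neg,
      Matrix.mul_assoc c, hQp, ← Matrix.mul_assoc, hcp]
  have h5 : (c * pd deg 1) * cQ H.Qir = 0 := by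
    rw [← h2, eq_neg_iff_add_eq_zero, ← two_smul ℂ] at h4
    exact (smul_eq_zero.1 h4).resolve_left two_ne_zero
  have h6 : c * pd deg 1 = 0 := D0.mulQi_inj (by rw [h5, Matrix.zero_mul])
  have h7 := D.zero_of_V E hE hmu hcA h6
  rw [hcdef, sub_eq_zero] at h7
  rw [h7, ← LT_TI]
  exact hy'

omit D in
lemma Qir_eq {T : ∀ n : ℕ, Submodule ℂ ((Fin (n + 1) → ι) → ℂ)} {w : ℕ} (DD : Dat H A T w) :
    RP.cQ (RP.HData.Qir DD.hd) = cQ H.Qir := by
  change RP.cR H.D.Qi = cQ H.Qir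
  rw [H.hQir]
  ext i k
  change (((H.Qir i k : ℚ) : ℝ) : ℂ) = ((H.Qir i k : ℚ) : ℂ)
  push_cast
  rfl

lemma pd_Qir : pd deg 1 * cQ H.Qir = cQ H.Qir * (pd deg 1)ᵀ := by
  rw [pd_tr]
  exact (pd_comm (M := cQ H.Qir) (deg := deg) (fun i k h => by
    rw [cQ, Matrix.map_apply, D.hd.Qi i k h, Rat.cast_zero]) 1).symm

include hE in
lemma hdegE {y : Matrix ι ι ℂ} (hy : y ∈ LT (TI j P)) (i k : ι) (h : E.deg i ≠ E.deg k) :
    y i k = 0 := by
  obtain ⟨Δ, hQ⟩ := D.form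
  rw [LT_TI] at hy
  rw [hE] at h
  exact LT_deg D.hd hQ hy h

include hE hmu in
/-- **Self-adjoint centres.** -/
theorem all_adj1 (htop : ∃ v : Fin (finrank ℂ E.V) → E.V, pL E.L v ≠ 0)
    (hadj : ∀ u, IsCE1 P u → u.map j * cQ H.Qir = cQ H.Qir * (u.map j)ᵀ) (n : ℕ) :
    ∀ c ∈ TT j P n, c ∈ AC A (Fin (n + 1)) := by
  obtain ⟨w, DD⟩ := D.dat0.exists_dat
  obtain ⟨AD, hAD⟩ : ∃ AD, AD = adata E DD hmu (fun y hy => D.hdegE E hE hy) := ⟨_, rfl⟩
  have htop' : ∃ v : Fin (finrank ℂ AD.V) → AD.V, pL AD.L v ≠ 0 := by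
    rw [hAD]
    exact htop
  have hpr : AD.pr1 = pd deg 1 := by
    rw [RP.AData.pr1, hAD]
    change (Matrix.diagonal fun i => if E.deg i = 1 then (1 : ℂ) else 0) = _
    rw [hE]
    rfl
  intro c hc
  refine DD.all (N := N) (fun n hn c hc => D.small n hn c
      (D.TI_le_TT_of (fun x hx => D.LA_le1 E hE hmu hadj hx) hc))
    (fun g hfix => AD.fix_adj htop' (fun x hx => ?_) D.hN hfix) n c (TT_le_TI n hc)
  obtain ⟨⟨h1, h2, h3⟩, h4⟩ := hx
  rw [Qir_eq, RP.cQ_eq]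
  rw [hpr] at h2 h3
  refine D.adj_span1 hadj h2 h3 (fun z hz => DD.isHE_iff.1 h1 z (by rw [LT_TI]; exact hz))
    fun x' hx' h5 h6 => h4 x' ⟨DD.isHE_iff.2 fun z hz => hx' z (by rwa [LT_TI] at hz), ?_, ?_⟩
  · rw [hpr]; exact h5
  · rw [hpr]; exact h6

include hE hmu in
/-- **Semisimple Lie algebras.** -/
theorem all_tr1 (htop : ∃ v : Fin (finrank ℂ E.V) → E.V, pL E.L v ≠ 0) {d : ℕ}
    (hfin : finrank ℂ E.V = 2 * d)
    (hcen : ∀ y ∈ LT (TT j P), (∀ z ∈ LT (TT j P), y * z = z * y) → y = 0) (hN : 2 * d ≤ N)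
    (n : ℕ) : ∀ c ∈ TT j P n, c ∈ AC A (Fin (n + 1)) := by
  obtain ⟨w, DD⟩ := D.dat0.exists_dat
  obtain ⟨AD, hAD⟩ : ∃ AD, AD = adata E DD hmu (fun y hy => D.hdegE E hE hy) := ⟨_, rfl⟩
  have htop' : ∃ v : Fin (finrank ℂ AD.V) → AD.V, pL AD.L v ≠ 0 := by
    rw [hAD]
    exact htop
  have hfin' : finrank ℂ AD.V = 2 * d := by
    rw [hAD]
    exact hfin
  have hpr : AD.pr1 = pd deg 1 := by
    rw [RP.AData.pr1, hAD]
    change (Matrix.diagonal fun i => if E.deg i = 1 then (1 : ℂ) else 0) = _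
    rw [hE]
    rfl
  intro c hc
  refine DD.all (N := N) (fun n hn c hc => D.small n hn c
      (D.TI_le_TT_of (fun x hx => D.LA_le_tr1 E hE hmu htop hcen hx) hc))
    (fun g hfix => AD.fix_tr htop' ?_ (fun σ x hx => ?_) hfin' D.hN hN hfix) n c (TT_le_TI n hc)
  · rw [Qir_eq, hpr, RP.cQ_eq]
    exact D.pd_Qir
  · rw [DD.Ng_eq, RP.cQ_eq]
    exact DD.tr_comm (by rw [LT_TI]; exact hcen) (DD.isHE_iff.1 hx.1.1) σ.2.1

end Crd2

end Pool.Agent.L0h10.RU
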