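import Pool.Agent.L0h10.RW.Crd3

/-!
# Structures of abelian type: the height in degree one
-/

set_option linter.unusedSectionVars false

namespace Pool.Agent.L0h10.RU

open Matrix Module
open Pool.Agent.N996.BP Pool.Agent.N996.FP
open Pool.Agent.L0h10.TS (ar2 ar2_inj ar2_surj dk_ar2 kp_ar2 dk_rei dk_empty dk_mulVec_apply GRep
  desc_sol desc_span dv dv_eq dv_map)
open Pool.Agent.L0h10.RQ

variable {ι : Type} [Fintype ι] [DecidableEq ι] {deg : ι → ℕ} {H : HData ι}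
  {A : ∀ n : ℕ, Submodule ℚ ((Fin (n + 1) → ι) → ℚ)}
  {T : ∀ n : ℕ, Submodule ℂ ((Fin (n + 1) → ι) → ℂ)}
  {B : Type} [Ring B] [Algebra ℂ B] (E : AData H B)
  {ℓ : ℕ} [hℓ : Fact ℓ.Prime] {Γ : Type*} [Group Γ] [TopologicalSpace Γ]
  {P : GRep deg ℚ_[ℓ] Γ} {j : ℚ_[ℓ] →+* ℂ} {N : ℕ}

/-- Integral eigenvectors. -/
def evs (z : Matrix ι ι ℂ) : Submodule ℂ (ι → ℂ) :=
  Submodule.span ℂ {u | ∃ k : ℤ, z *ᵥ u = (k : ℂ) • u}

lemma evs_bd {z : Matrix ι ι ℂ} {v : ι → ℂ} (hv : v ∈ evs z) : ∃ W : ℕ,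
    v ∈ Submodule.span ℂ {u | ∃ k : ℤ, |k| ≤ (W : ℤ) ∧ z *ᵥ u = (k : ℂ) • u} := by
  have mono : ∀ {W W' : ℕ}, W ≤ W' →
      Submodule.span ℂ {u | ∃ k : ℤ, |k| ≤ (W : ℤ) ∧ z *ᵥ u = (k : ℂ) • u} ≤
      Submodule.span ℂ {u | ∃ k : ℤ, |k| ≤ (W' : ℤ) ∧ z *ᵥ u = (k : ℂ) • u} := by
    intro W W' h
    refine Submodule.span_mono ?_
    rintro u ⟨k, hk, h1⟩
    exact ⟨k, hk.trans (by exact_mod_cast h), h1⟩
  rw [evs] at hv
  induction hv using Submodule.span_induction with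
  | mem u hu =>
    obtain ⟨k, hk⟩ := hu
    exact ⟨k.natAbs, Submodule.subset_span ⟨k, by rw [Int.natCast_natAbs], hk⟩⟩
  | zero => exact ⟨0, Submodule.zero_mem _⟩
  | add a b _ _ ha hb =>
    obtain ⟨W, hW⟩ := ha
    obtain ⟨W', hW'⟩ := hb
    exact ⟨max W W', Submodule.add_mem _ (mono (le_max_left _ _) hW)
      (mono (le_max_right _ _) hW')⟩
  | smul c a _ ha =>
    obtain ⟨W, hW⟩ := ha
    exact ⟨W, Submodule.smul_mem _ _ hW⟩

/-- Matrices with integral eigenvalues. -/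
lemma int_of_evs {z : Matrix ι ι ℂ} (h : ∀ v, v ∈ evs z) : ∃ W : ℕ, IsInt W z := by
  classical
  have h1 : ∀ i : ι, ∃ W : ℕ, (Pi.single i (1 : ℂ) : ι → ℂ) ∈
      Submodule.span ℂ {u | ∃ k : ℤ, |k| ≤ (W : ℤ) ∧ z *ᵥ u = (k : ℂ) • u} :=
    fun i => evs_bd (h _)
  choose f hf using h1
  refine ⟨Finset.univ.sup f, isInt_of fun v => ?_⟩
  rw [sum_single v]
  refine Submodule.sum_mem _ fun i _ => Submodule.smul_mem _ _ (Submodule.span_mono ?_ (hf i))
  rintro u ⟨k, hk, h1⟩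
  exact ⟨k, hk.trans (by exact_mod_cast Finset.le_sup (f := f) (Finset.mem_univ i)), h1⟩

/-- Derivations which are integral in degree one are integral. -/
lemma int_of_one (hE : E.deg = deg) {z : Matrix ι ι ℂ}
    (hd : ∀ x y, aop E.ε z (x * y) = aop E.ε z x * y + x * aop E.ε z y)
    (hp : z * pd deg 1 = pd deg 1 * z) {w : ℕ} (h : IsInt w (z * pd deg 1)) :
    ∃ W, IsInt W z := by
  have hmul : ∀ a b : B, E.ε a ∈ evs z → E.ε b ∈ evs z → E.ε (a * b) ∈ evs z := by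
    intro a b ha hb
    have h1 : ∀ u ∈ evs z, ∀ v ∈ evs z, E.ε (E.ε.symm u * E.ε.symm v) ∈ evs z := by
      intro u hu v hv
      rw [evs] at hu
      induction hu using Submodule.span_induction with
      | mem u hu =>
        obtain ⟨k, hk⟩ := hu
        rw [evs] at hv
        induction hv using Submodule.span_induction with
        | mem v hv =>
          obtain ⟨l, hl⟩ := hv
          refine Submodule.subset_span ⟨k + l, ?_⟩
          have h2 := hd (E.ε.symm u) (E.ε.symm v)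
          rw [aop_apply, aop_apply, aop_apply, LinearEquiv.apply_symm_apply,
            LinearEquiv.apply_symm_apply, hk, hl, map_smul, map_smul, smul_mul_assoc,
            mul_smul_comm, ← add_smul] at h2
          have h3 := congrArg E.ε h2
          rw [LinearEquiv.apply_symm_apply, map_smul] at h3
          rw [h3]
          push_cast
          rfl
        | zero => rw [map_zero, mul_zero, map_zero]; exact Submodule.zero_mem _
        | add a b _ _ ha hb => rw [map_add, mul_add, map_add]; exact Submodule.add_mem _ ha hb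
        | smul c a _ ha => rw [map_smul, mul_smul_comm, map_smul]; exact Submodule.smul_mem _ _ ha
      | zero => rw [map_zero, zero_mul, map_zero]; exact Submodule.zero_mem _
      | add a b _ _ ha hb => rw [map_add, add_mul, map_add]; exact Submodule.add_mem _ ha hb
      | smul c a _ ha => rw [map_smul, smul_mul_assoc, map_smul]; exact Submodule.smul_mem _ _ ha
    have h2 := h1 _ ha _ hb
    rwa [LinearEquiv.symm_apply_apply, LinearEquiv.symm_apply_apply] at h2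
  have hone : E.ε 1 ∈ evs z := by
    have h2 := hd 1 1
    rw [mul_one, mul_one, one_mul] at h2
    have h3 : aop E.ε z 1 = 0 := left_eq_add.1 h2
    rw [aop_apply] at h3
    have h4 : z *ᵥ E.ε 1 = 0 := by
      have h5 := congrArg E.ε h3
      rwa [LinearEquiv.apply_symm_apply, map_zero] at h5
    exact Submodule.subset_span ⟨0, by rw [h4, Int.cast_zero, zero_smul]⟩
  have hV : ∀ v ∈ E.V, v ∈ evs z := by
    intro v hv
    rw [aop_V E hE] at hv
    obtain ⟨π, hπ⟩ := h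
    have h1 : v = ∑ k ∈ Finset.Icc (-w : ℤ) w, pd deg 1 *ᵥ (π k *ᵥ v) := by
      conv_lhs => rw [← hv, ← Matrix.one_mulVec v, ← hπ.sum, Matrix.sum_mulVec]
      rw [Matrix.mulVec_sum]
    rw [h1]
    refine Submodule.sum_mem _ fun k hk => Submodule.subset_span ⟨k, ?_⟩
    have h2 := hπ.left k hk
    have h3 : z * pd deg 1 * π k = pd deg 1 * (z * pd deg 1) * π k := by
      rw [hp, ← Matrix.mul_assoc (pd deg 1), pd_sq]
    have h4 : z * pd deg 1 * π k = (k : ℂ) • (pd deg 1 * π k) := by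
      rw [h3, Matrix.mul_assoc, h2, Matrix.mul_smul]
    calc z *ᵥ (pd deg 1 *ᵥ (π k *ᵥ v)) = (z * pd deg 1 * π k) *ᵥ v := by
          simp only [Matrix.mulVec_mulVec, Matrix.mul_assoc]
      _ = (k : ℂ) • (pd deg 1 *ᵥ (π k *ᵥ v)) := by
          rw [h4, Matrix.smul_mulVec, Matrix.mulVec_mulVec]
  refine int_of_evs fun v => ?_
  obtain ⟨x, rfl⟩ := E.ε.surjective v
  have hx : x ∈ Algebra.adjoin ℂ {x | ∀ i, E.deg i ≠ 1 → E.ε x i = 0} := by
    rw [E.gen]; trivial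
  induction hx using Algebra.adjoin_induction with
  | mem x hx => exact hV _ hx
  | algebraMap r =>
    rw [Algebra.algebraMap_eq_smul_one, map_smul]
    exact Submodule.smul_mem _ _ hone
  | add x y _ _ hx hy => rw [map_add]; exact Submodule.add_mem _ hx hy
  | mul x y _ _ hx hy => exact hmul x y hx hy

variable (deg T) in
/-- The Lie algebra is spanned by commutators and by matrices which have small integral eigenvalues
in degree one. -/
def IntGen1 (w : ℕ) : Prop :=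
  ∀ y ∈ LT T, y ∈ Submodule.span ℂ ({m | ∃ a ∈ LT T, ∃ b ∈ LT T, m = a * b - b * a} ∪
    {m | m ∈ LT T ∧ IsInt w (m * pd deg 1)})

/-- Uniform bounds. -/
lemma IntGen1.bd {w : ℕ} (h : IntGen1 deg T w)
    (hi : ∀ m ∈ LT T, IsInt w (m * pd deg 1) → ∃ W, IsInt W m) :
    ∃ W, ∀ y ∈ LT T, y ∈ Submodule.span ℂ ({m | ∃ a ∈ LT T, ∃ b ∈ LT T, m = a * b - b * a} ∪
      {m | m ∈ LT T ∧ IsInt w (m * pd deg 1) ∧ IsInt W m}) := by
  classical
  have mono : ∀ {W W' : ℕ}, W ≤ W' →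
      Submodule.span ℂ ({m | ∃ a ∈ LT T, ∃ b ∈ LT T, m = a * b - b * a} ∪
        {m | m ∈ LT T ∧ IsInt w (m * pd deg 1) ∧ IsInt W m}) ≤
      Submodule.span ℂ ({m | ∃ a ∈ LT T, ∃ b ∈ LT T, m = a * b - b * a} ∪
        {m | m ∈ LT T ∧ IsInt w (m * pd deg 1) ∧ IsInt W' m}) := by
    intro W W' hW
    refine Submodule.span_mono (Set.union_subset_union_right _ ?_)
    rintro m ⟨h1, h2, h3⟩
    exact ⟨h1, h2, isInt_mono hW h3⟩
  have h1 : ∀ x ∈ LT T, ∃ W, x ∈ Submodule.span ℂ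
      ({m | ∃ a ∈ LT T, ∃ b ∈ LT T, m = a * b - b * a} ∪
        {m | m ∈ LT T ∧ IsInt w (m * pd deg 1) ∧ IsInt W m}) := by
    intro x hx
    have h2 := h x hx
    clear hx
    induction h2 using Submodule.span_induction with
    | mem m hm =>
      rcases hm with hm | ⟨hm, hm'⟩
      · exact ⟨0, Submodule.subset_span (Or.inl hm)⟩
      · obtain ⟨W, hW⟩ := hi m hm hm'
        exact ⟨W, Submodule.subset_span (Or.inr ⟨hm, hm', hW⟩)⟩
    | zero => exact ⟨0, Submodule.zero_mem _⟩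
    | add a b _ _ ha hb =>
      obtain ⟨W, hW⟩ := ha
      obtain ⟨W', hW'⟩ := hb
      exact ⟨max W W', Submodule.add_mem _ (mono (le_max_left _ _) hW)
        (mono (le_max_right _ _) hW')⟩
    | smul c a _ ha =>
      obtain ⟨W, hW⟩ := ha
      exact ⟨W, Submodule.smul_mem _ _ hW⟩
  obtain ⟨s, hs⟩ : (LT T).FG := IsNoetherian.noetherian _
  have h2 : ∀ x ∈ s, ∃ W, x ∈ Submodule.span ℂ
      ({m | ∃ a ∈ LT T, ∃ b ∈ LT T, m = a * b - b * a} ∪
        {m | m ∈ LT T ∧ IsInt w (m * pd deg 1) ∧ IsInt W m}) := fun x hx =>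
    h1 x (by rw [← hs]; exact Submodule.subset_span hx)
  choose! f hf using h2
  refine ⟨s.sup f, fun y hy => ?_⟩
  rw [← hs] at hy
  have h3 : Submodule.span ℂ (s : Set (Matrix ι ι ℂ)) ≤ _ := Submodule.span_le.2
    fun x hx => mono (Finset.le_sup (f := f) hx) (hf x hx)
  exact h3 hy

/-- The generators. -/
lemma genBy_int1 {w w' : ℕ} (D : Dat H A T w')
    (h : ∀ y ∈ LT T, y ∈ Submodule.span ℂ ({m | ∃ a ∈ LT T, ∃ b ∈ LT T, m = a * b - b * a} ∪
      {m | m ∈ LT T ∧ IsInt w (m * pd deg 1) ∧ IsInt w' m})) :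
    RP.GenBy D.hd fun σ => IsInt w (σ.1 * pd deg 1) := by
  intro m hm
  have h1 := h _ (D.mem_hn.1 hm)
  have h2 : m = RP.cji D.hd (RP.cj D.hd m) := (RP.cji_cj D.hd m).symm
  have e1 : ∀ x, RP.cji D.hd x = nz H x := fun x => rfl
  rw [h2, e1]
  generalize RP.cj D.hd m = y at h1
  induction h1 using Submodule.span_induction with
  | mem y hy =>
    rcases hy with ⟨a, ha, b, hb, rfl⟩ | ⟨hy, hy', hy''⟩
    · refine Submodule.subset_span (Or.inl ⟨nz H a, ?_, nz H b, ?_, ?_⟩)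
      · rw [D.mem_hn, ← e1, RP.cj_cji]; exact ha
      · rw [D.mem_hn, ← e1, RP.cj_cji]; exact hb
      · rw [nz_sub, nz_mul, nz_mul]
    · let σ : D.hd.S := (⟨y, hy, hy''⟩ : SS T w')
      have h3 : nz H y = RP.cji D.hd (RP.Ng D.hd σ) := by
        rw [D.Ng_eq σ]
        rfl
      exact Submodule.subset_span (Or.inr ⟨σ, hy', h3⟩)
  | zero =>
    have h0 : nz H (0 : Matrix ι ι ℂ) = 0 := by rw [nz, Matrix.mul_zero, Matrix.zero_mul]
    rw [h0]
    exact Submodule.zero_mem _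
  | add a b _ _ ha hb => rw [nz_add]; exact Submodule.add_mem _ ha hb
  | smul r a _ ha => rw [nz_smul]; exact Submodule.smul_mem _ _ ha

lemma isInt_pd {w : ℕ} {z : Matrix ι ι ℂ} (hp : z * pd deg 1 = pd deg 1 * z) (h : IsInt w z) :
    IsInt w (z * pd deg 1) := by
  obtain ⟨π, hπ⟩ := h
  refine isInt_of fun v => ?_
  have h1 : v = (∑ k ∈ Finset.Icc (-w : ℤ) w, pd deg 1 *ᵥ (π k *ᵥ v)) +
      (v - pd deg 1 *ᵥ v) := by
    rw [← Matrix.mulVec_sum, ← Matrix.sum_mulVec, hπ.sum, Matrix.one_mulVec]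
    abel
  rw [h1]
  refine Submodule.add_mem _ (Submodule.sum_mem _ fun k hk => Submodule.subset_span
    ⟨k, abs_le.2 (Finset.mem_Icc.1 hk), ?_⟩) (Submodule.subset_span ⟨0, by simp, ?_⟩)
  · have h4 : z * pd deg 1 * (pd deg 1 * π k) = (k : ℂ) • (pd deg 1 * π k) := by
      rw [Matrix.mul_assoc z, ← Matrix.mul_assoc (pd deg 1), pd_sq, ← Matrix.mul_assoc, hp,
        Matrix.mul_assoc, hπ.left k hk, Matrix.mul_smul]
    calc (z * pd deg 1) *ᵥ (pd deg 1 *ᵥ (π k *ᵥ v)) = (z * pd deg 1 * (pd deg 1 * π k)) *ᵥ v := by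
          simp only [Matrix.mulVec_mulVec, Matrix.mul_assoc]
      _ = (k : ℂ) • (pd deg 1 *ᵥ (π k *ᵥ v)) := by
          rw [h4, Matrix.smul_mulVec, Matrix.mulVec_mulVec]
  · rw [Matrix.mulVec_sub, Matrix.mulVec_mulVec, Matrix.mul_assoc, pd_sq, sub_self,
      Int.cast_zero, zero_smul]

namespace Crd2

variable [IsTopologicalGroup Γ] [CompactSpace Γ] (D : Crd2 deg j P H A N)
include D

/-- There is a height. -/
theorem exists_height1 : ∃ w, IntGen1 deg (TT j P) w := by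
  obtain ⟨w, hw⟩ := D.exists_height
  refine ⟨w, fun y hy => Submodule.span_mono (Set.union_subset_union_right _ ?_) (hw y hy)⟩
  rintro m ⟨h1, h2⟩
  exact ⟨h1, isInt_pd (D.LT_pd h1 1) h2⟩

variable (hE : E.deg = deg)
  (hmu : arr (E.mu * kp (Unit ⊕ Unit) H.Qir) ∈ AQ A (Unit ⊕ (Unit ⊕ Unit)))
include hE hmu

/-- **The general case.** -/
theorem all_gen1 (htop : ∃ v : Fin (finrank ℂ E.V) → E.V, pL E.L v ≠ 0) {d : ℕ}
    (hfin : finrank ℂ E.V = 2 * d) {w : ℕ} (hG : IntGen1 deg (TT j P) w) (h8 : 8 ≤ N)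
    (hN : 4 * (max 1 w * d ^ 2) ^ d ≤ N) (n : ℕ) :
    ∀ c ∈ TT j P n, c ∈ AC A (Fin (n + 1)) := by
  obtain ⟨w₁, hw₁⟩ := D.dat0.exists_w
  obtain ⟨W, hW⟩ := hG.bd fun m hm h1 => int_of_one E hE
    (der_LA E D.fam D.hinv hmu (D.LT_LA hm)) (D.LT_pd hm 1) h1
  have DD : Dat H A (TI j P) (max W w₁) :=
    D.dat0.dat_of (hw₁.trans (Dat0.spn_mono (le_max_right W w₁)))
  have hG' : ∀ y ∈ LT (TI j P), y ∈ Submodule.span ℂ
      ({m | ∃ a ∈ LT (TI j P), ∃ b ∈ LT (TI j P), m = a * b - b * a} ∪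
      {m | m ∈ LT (TI j P) ∧ IsInt w (m * pd deg 1) ∧ IsInt (max W w₁) m}) := by
    intro y hy
    have h1 := hW y (by rwa [← LT_TI])
    refine Submodule.span_mono ?_ h1
    rintro m (⟨a, ha, b, hb, rfl⟩ | ⟨h2, h3, h4⟩)
    · exact Or.inl ⟨a, by rwa [LT_TI], b, by rwa [LT_TI], rfl⟩
    · exact Or.inr ⟨by rwa [LT_TI], h3, isInt_mono (le_max_left _ _) h4⟩
  obtain ⟨AD, hAD⟩ : ∃ AD, AD = adata E DD hmu (fun y hy => D.hdegE E hE hy) := ⟨_, rfl⟩
  have htop' : ∃ v : Fin (finrank ℂ AD.V) → AD.V, pL AD.L v ≠ 0 := by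
    rw [hAD]
    exact htop
  have hfin' : finrank ℂ AD.V = 2 * d := by
    rw [hAD]
    exact hfin
  have hpr : AD.pr1 = pd deg 1 := by
    rw [RP.AData.pr1, hAD]
    change (Matrix.diagonal fun i => if E.deg i = 1 then (1 : ℂ) else 0) = _
    rw [hE]
    rfl
  have hV : ∀ u ∈ AD.V, pd deg 1 *ᵥ u = u := by
    intro u hu
    rw [hAD] at hu
    exact (aop_V E hE).1 hu
  intro c hc
  refine DD.all (N := N / 2) (fun n hn c hc => D.small' (by omega) hc)
    (fun g hfix => AD.fix_gen htop' ?_ (genBy_int1 DD hG') (le_max_left 1 w)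
      (fun σ hσ u hu hu0 μ hμ => ?_) hfin' (by omega) (by omega) hfix) n c (TT_le_TI n hc)
  · rw [Qir_eq, hpr, RP.cQ_eq]
    exact D.pd_Qir
  · rw [DD.Ng_eq] at hμ
    obtain ⟨a, ha, h1⟩ := eig_int (y := σ.1 * pd deg 1) hσ hu0 (μ := μ) (by
      rw [← Matrix.mulVec_mulVec, hV u hu]; exact hμ)
    exact ⟨a, ha.trans (by exact_mod_cast le_max_right 1 w), h1⟩

end Crd2

end Pool.Agent.L0h10.RU
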