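import Pool.Agent.L0h10.RW.Alg3

/-!
# Central isometries which fix all invariant tensors
-/

set_option linter.unusedSectionVars false

namespace Pool.Agent.L0h10.RP

open Matrix Pool.Agent.N996.BP Pool.Agent.N996.FP ComplexConjugate ComplexOrder

variable {ι : Type} [Fintype ι] [DecidableEq ι] {H : HData ι}
  {A : Type} [Ring A] [Algebra ℂ A]

namespace AData

variable (D : AData H A)

/-- The degree one part in orthonormal coordinates. -/
noncomputable def Vn : Submodule ℂ (ι → ℂ) := D.V.comap (Matrix.mulVecLin (Mi H))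

lemma mem_Vn {v : ι → ℂ} : v ∈ D.Vn ↔ Mi H *ᵥ v ∈ D.V := Iff.rfl

lemma Vn_hn {w : Matrix ι ι ℂ} (hw : w ∈ hn H) {v : ι → ℂ} (hv : v ∈ D.Vn) : w *ᵥ v ∈ D.Vn := by
  rw [mem_Vn, Mi_mulVec]
  exact D.V_ho hw hv

lemma Vn_Z {z : Matrix ι ι ℂ} (hz : IsZ H z) {v : ι → ℂ} (hv : v ∈ D.Vn) : z *ᵥ v ∈ D.Vn := by
  rw [mem_Vn, Mi_mulVec]
  exact D.V_stab (hz.comm_HE D.pr1_HE) hv

/-- The coordinates. -/
noncomputable def εn : A ≃ₗ[ℂ] (ι → ℂ) :=
  D.ε.trans
    { toFun := fun v => Mm H *ᵥ v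
      map_add' := Matrix.mulVec_add _
      map_smul' := fun c v => Matrix.mulVec_smul _ c v
      invFun := fun v => Mi H *ᵥ v
      left_inv := fun v => by
        change Mi H *ᵥ (Mm H *ᵥ v) = v
        rw [Matrix.mulVec_mulVec, Mi_Mm, Matrix.one_mulVec]
      right_inv := fun v => by
        change Mm H *ᵥ (Mi H *ᵥ v) = v
        rw [Matrix.mulVec_mulVec, Mm_Mi, Matrix.one_mulVec] }

lemma εn_apply (a : A) : D.εn a = Mm H *ᵥ D.ε a := rfl

lemma εn_symm (v : ι → ℂ) : D.εn.symm v = D.ε.symm (Mi H *ᵥ v) := rfl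

lemma aop_εn (w : Matrix ι ι ℂ) (a : A) : aop D.εn w a = aop D.ε (cj H w) a := by
  rw [aop_apply, aop_apply, εn_symm, εn_apply, Mi_mulVec, Matrix.mulVec_mulVec _ _ (Mm H), Mi_Mm,
    Matrix.one_mulVec]

/-- The equivalence of the degree one parts. -/
noncomputable def eV : D.V ≃ₗ[ℂ] D.Vn where
  toFun v := ⟨Mm H *ᵥ (v : ι → ℂ), by
    rw [mem_Vn, Matrix.mulVec_mulVec, Mi_Mm, Matrix.one_mulVec]
    exact v.2⟩
  map_add' a b := Subtype.ext (Matrix.mulVec_add _ _ _)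
  map_smul' c a := Subtype.ext (Matrix.mulVec_smul _ _ _)
  invFun v := ⟨Mi H *ᵥ (v : ι → ℂ), v.2⟩
  left_inv v := Subtype.ext (by
    change Mi H *ᵥ (Mm H *ᵥ (v : ι → ℂ)) = _
    rw [Matrix.mulVec_mulVec, Mi_Mm, Matrix.one_mulVec])
  right_inv v := Subtype.ext (by
    change Mm H *ᵥ (Mi H *ᵥ (v : ι → ℂ)) = _
    rw [Matrix.mulVec_mulVec, Mm_Mi, Matrix.one_mulVec])

/-- The algebra of derivations in orthonormal coordinates. -/
noncomputable def toPD (htop : ∃ v : Fin (Module.finrank ℂ D.V) → D.V, pL D.L v ≠ 0)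
    {z : Matrix ι ι ℂ} (hz : D.IsCI z) : PD (hn H) (cji H z) A where
  ε := D.εn
  V := D.Vn
  der w hw a b := by
    rw [aop_εn, aop_εn, aop_εn]
    exact D.der_ho hw a b
  stab w hw v hv := D.Vn_hn hw hv
  mul a b := by
    rw [aop_εn, aop_εn, aop_εn, cj_cji]
    exact hz.mul a b
  one := by
    rw [aop_εn, cj_cji]
    exact hz.one
  sq v := by
    have h1 : iL D.εn D.Vn v = D.L ⟨Mi H *ᵥ (v : ι → ℂ), v.2⟩ := rfl
    rw [h1]
    exact D.L_sq _
  top := by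
    obtain ⟨v, hv⟩ := htop
    have he : Module.finrank ℂ D.Vn = Module.finrank ℂ D.V := D.eV.finrank_eq.symm
    refine ⟨fun i => D.eV (v (Fin.cast he i)), ?_⟩
    have h1 : pL (iL D.εn D.Vn) (fun i => D.eV (v (Fin.cast he i))) = pL D.L v := by
      rw [pL, pL]
      congr 1
      have h2 : ∀ (m m' : ℕ) (hm : m' = m) (v : Fin m → D.V),
          (List.ofFn fun i : Fin m' => iL D.εn D.Vn (D.eV (v (Fin.cast hm i)))) =
            List.ofFn fun i => D.L (v i) := by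
        rintro m m' rfl v
        congr 1
        funext i
        change D.ε.symm (Mi H *ᵥ (Mm H *ᵥ (v i : ι → ℂ))) = D.ε.symm (v i : ι → ℂ)
        rw [Matrix.mulVec_mulVec, Mi_Mm, Matrix.one_mulVec]
      exact h2 _ _ he v
    rw [h1]
    exact hv
  gen := by
    rw [← D.gen]
    congr 1
    ext a
    change Mi H *ᵥ (Mm H *ᵥ D.ε a) ∈ D.V ↔ _
    rw [Matrix.mulVec_mulVec, Mi_Mm, Matrix.one_mulVec]
    rfl

lemma toPD_V (htop : ∃ v : Fin (Module.finrank ℂ D.V) → D.V, pL D.L v ≠ 0)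
    {z : Matrix ι ι ℂ} (hz : D.IsCI z) : (D.toPD htop hz).V = D.Vn := rfl

/-- **Central isometries which fix the Hodge classes of bounded degree.** -/
theorem ci_So (htop : ∃ v : Fin (Module.finrank ℂ D.V) → D.V, pL D.L v ≠ 0)
    {z z' : Matrix ι ι ℂ} (hz : D.IsCI z) (hinv : z' * z = 1) {M : ℕ}
    (hfix : Fixes H z (Fin M ⊕ Fin M))
    (hM : ∀ (x : Matrix ι ι ℂ) (n : ℕ) (B : Bz (hn H) x (cji H z) D.Vn n), IsReg (hn H) x →
      ∀ s : Multiset (Fin n), B.tot s = 0 →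
      (∀ t ≤ s, B.tot t ∈ QL (hn H) x → t = 0 ∨ t = s) → ∀ (i : Fin n) (p : Fin n → Prop)
      [DecidablePred p], (∀ j, p j → B.T j - B.T i ∈ QL (hn H) x) → (s.filter p).card ≤ M) :
    z ∈ So H := by
  obtain ⟨x, hxh, hxH, hxr⟩ := exists_regular (hn H)
  have hx : IsReg (hn H) x := ⟨hxh, hxH, hxr⟩
  have hZ := isZ_of hz.comm hz.commE
  obtain ⟨n, ⟨B⟩⟩ := exists_Bz (V := D.Vn) (isLA_hn H) hx (hZ.comm x hxh).symm hZ.normal
    (fun v hv => D.Vn_hn hxh hv) (fun v hv => D.Vn_Z hZ hv) (fun v hv => D.Vn_Z hZ.star hv)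
  have hζ : ∀ i, B.ζ i ≠ 0 := by
    intro i h0
    have h1 := B.ez i
    rw [h0, zero_smul] at h1
    have h2 : cji H z' *ᵥ (cji H z *ᵥ (B.v i : ι → ℂ)) = 0 := by rw [h1, Matrix.mulVec_zero]
    rw [Matrix.mulVec_mulVec, ← cji_mul, hinv, cji_one, Matrix.one_mulVec] at h2
    exact B.v_ne i h2
  have hs : ∀ s : Multiset (Fin n), B.tot s ∈ QL (hn H) x → B.zt s = 1 := fun s hs =>
    no_bad (D.toPD htop hz) (isLA_hn H) hx hZ.comm B hζ (hM x n B hx)
      (pres_fix H (by rw [cj_cji]; exact hfix)) hs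
  intro κ _ _ a ha
  have h1 := fix_zero (D.toPD htop hz) B hs (κ := κ) (a := kp κ (Mm H) *ᵥ ca a)
    fun t ht _ => by
      rw [Matrix.mulVec_mulVec, dk_cj_Mm, ← Matrix.mulVec_mulVec, ht κ a ha, Matrix.mulVec_zero]
  rw [Matrix.mulVec_mulVec, kp_cj_Mm, cj_cji, ← Matrix.mulVec_mulVec] at h1
  have h2 := congrArg (fun w => kp κ (Mi H) *ᵥ w) h1
  simp only [Matrix.mulVec_mulVec, ← Matrix.mul_assoc, ← kp_mul, Mi_Mm, kp_one, Matrix.one_mul,
    Matrix.one_mulVec] at h2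
  exact h2

end AData

end Pool.Agent.L0h10.RP
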