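import Pool.Agent.L0h10.RW.Irr

/-!
# Matrices fixing the invariant tensors of bounded degree: structures of abelian type
-/

set_option linter.unusedSectionVars false

namespace Pool.Agent.L0h10.RP

open Matrix Pool.Agent.N996.BP Pool.Agent.N996.FP ComplexConjugate ComplexOrder

variable {ι : Type} [Fintype ι] [DecidableEq ι] {H : HData ι}
  {A : Type} [Ring A] [Algebra ℂ A]

namespace AData

variable (D : AData H A) (htop : ∃ v : Fin (Module.finrank ℂ D.V) → D.V, pL D.L v ≠ 0)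
include htop

/-- **Matrices fixing the invariant tensors of bounded degree fix all invariant tensors.** -/
theorem fix_of {N M : ℕ} (h4 : 4 ≤ N) (hMN : 2 * M ≤ N)
    (hMM : ∀ (z : Matrix ι ι ℂ), D.IsCI z → ∀ (x : Matrix ι ι ℂ) (n : ℕ)
      (B : Bz (hn H) x (cji H z) D.Vn n), IsReg (hn H) x → ∀ s : Multiset (Fin n), B.tot s = 0 →
      (∀ t ≤ s, B.tot t ∈ QL (hn H) x → t = 0 ∨ t = s) → ∀ (i : Fin n) (p : Fin n → Prop)
      [DecidablePred p], (∀ j, p j → B.T j - B.T i ∈ QL (hn H) x) → (s.filter p).card ≤ M)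
    {g : Matrix ι ι ℂ} (hfix : ∀ (κ : Type) [Fintype κ] [DecidableEq κ], Fintype.card κ ≤ N →
      Fixes H g κ) : g ∈ So H := by
  obtain ⟨q, hq, z, hz, hgq⟩ := D.exists_qz htop (p := g) fun κ _ _ hκ =>
    hfix κ (hκ.trans h4)
  obtain ⟨q', hq', hqq⟩ := So_ex_inv hq
  have hzg : z = q' * g := by
    rw [hgq, ← Matrix.mul_assoc, mul_eq_one_comm.1 hqq, Matrix.one_mul]
  have hfixz : ∀ (κ : Type) [Fintype κ] [DecidableEq κ], Fintype.card κ ≤ N →
      Fixes H z κ := fun κ _ _ hκ a ha => by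
    rw [hzg, kp_mul, ← Matrix.mulVec_mulVec, hfix κ hκ a ha, hq' κ a ha]
  obtain ⟨z', -, hzz⟩ := Fixes.inv (hfixz (Unit ⊕ Unit) (by simp; omega))
  have hzS : z ∈ So H := D.ci_So htop hz (mul_eq_one_comm.1 hzz) (M := M)
    (hfixz _ (by rw [Fintype.card_sum, Fintype.card_fin]; omega)) (hMM z hz)
  rw [hgq]
  exact Submonoid.mul_mem _ hq hzS

/-- **Self-adjoint centres.** -/
theorem fix_adj (hR : ∀ x, D.IsCE x → cQ x * cQ H.Qir = cQ H.Qir * (cQ x)ᵀ) {N : ℕ} (h4 : 4 ≤ N)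
    {g : Matrix ι ι ℂ} (hfix : ∀ (κ : Type) [Fintype κ] [DecidableEq κ], Fintype.card κ ≤ N →
      Fixes H g κ) : g ∈ So H :=
  D.fix_of htop (M := 2) h4 (by omega)
    (fun _ _ _ _ B hx _ _ hirr i p _ hp => B.count_le hirr two_pos le_rfl (D.two_mem hR hx B i) p
      hp) hfix

/-- **The trace condition.** -/
theorem fix_tr (hP : cQ D.pr1 * cQ H.Qir = cQ H.Qir * (cQ D.pr1)ᵀ)
    (hT : ∀ (σ : H.S) x, D.IsCE x → (cQ x * Ng H σ).trace = 0) {d : ℕ}
    (hg : Module.finrank ℂ D.V = 2 * d) {N : ℕ} (h4 : 4 ≤ N) (hN : 2 * d ≤ N)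
    {g : Matrix ι ι ℂ} (hfix : ∀ (κ : Type) [Fintype κ] [DecidableEq κ], Fintype.card κ ≤ N →
      Fixes H g κ) : g ∈ So H := by
  classical
  refine D.fix_of htop (M := max 2 d) h4 (by omega)
    (fun z hz x m B hx s _ hirr i p _ hp => ?_) hfix
  obtain ⟨r, hr1, hr2, hr3⟩ : ∃ r : ℕ, 0 < r ∧ r ≤ max 2 d ∧ r • B.T i ∈ QL (hn H) x := by
    by_cases h2 : 2 • B.T i ∈ QL (hn H) x
    · exact ⟨2, two_pos, le_max_left _ _, h2⟩
    let S : Finset (Fin m) := Finset.univ.filter fun j => B.T j - B.T i ∈ QL (hn H) x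
    have hS : ∀ j, j ∈ S ↔ B.T j - B.T i ∈ QL (hn H) x := fun j => by simp [S]
    have hi : i ∈ S := (hS i).2 (by rw [sub_self]; exact (QL _ x).zero_mem)
    have hm : m = 2 * d := by
      have h3 := Module.finrank_eq_card_basis B.bas
      rw [Fintype.card_fin] at h3
      rw [← h3, ← hg]
      exact D.eV.finrank_eq.symm
    have hc := D.half hP hx B i h2 S fun j hj => (hS j).1 hj
    refine ⟨S.card, Finset.card_pos.2 ⟨i, hi⟩, le_trans (by omega) (le_max_right _ _), ?_⟩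
    have h3 := D.tot_coset htop hz B hT hx i S hS
    have h4 : ∑ j ∈ S, (B.T j - B.T i) ∈ QL (hn H) x :=
      (QL (hn H) x).sum_mem fun j hj => (hS j).1 hj
    rw [Finset.sum_sub_distrib, h3, Finset.sum_const, zero_sub] at h4
    exact (QL (hn H) x).neg_mem_iff.1 h4
  exact B.count_le hirr hr1 hr2 hr3 p hp

/-- **The general case.** -/
theorem fix_gen (hP : cQ D.pr1 * cQ H.Qir = cQ H.Qir * (cQ D.pr1)ᵀ)
    {q : H.S → Prop} (hq : GenBy H q) {w : ℕ} (hw1 : 1 ≤ w)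
    (hE : ∀ (σ : H.S), q σ → ∀ (u : ι → ℂ), u ∈ D.V → u ≠ 0 → ∀ μ : ℂ,
      Ng H σ *ᵥ u = μ • u → ∃ a : ℤ, |a| ≤ w ∧ μ = a) {d : ℕ}
    (hg : Module.finrank ℂ D.V = 2 * d) {N : ℕ} (h4 : 4 ≤ N) (hN : 2 * (w * d ^ 2) ^ d ≤ N)
    {g : Matrix ι ι ℂ} (hfix : ∀ (κ : Type) [Fintype κ] [DecidableEq κ], Fintype.card κ ≤ N →
      Fixes H g κ) : g ∈ So H :=
  D.fix_of htop (M := max 2 ((w * d ^ 2) ^ d)) h4 (by omega)
    (fun _ hz _ _ B hx _ hs hirr i p _ hp =>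
      D.irr_count hq hw1 hE htop hz hP hg hx B hs hirr i p hp) hfix

end AData

end Pool.Agent.L0h10.RP
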