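import Pool.Agent.L0h10.RU.Core3
import Pool.Agent.L0h10.RW.Crd4

/-!
# Abelian varieties: the situation in coordinates
-/

set_option linter.unusedSectionVars false

open CategoryTheory AlgebraicGeometry TensorProduct Matrix

universe u v

namespace Pool.Agent.L0h10.RU

open Module
open Pool.Agent.H914 Pool.Agent.H914.VarClass Pool.Agent.H914.VarClass.Obj
  Pool.Agent.H914.WeilCohomology
open Pool.Agent.Y133.Half (pw pfst psnd wb wb_zero wb_succ ClassPred PH)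
open Pool.Agent.N996.BP Pool.Agent.N996.FP Pool.Agent.N996.BP.Geo
open Pool.Agent.N996.FP.Geo (DD rab isCd_rab cQ2 mu_clw gdata e3 exists_topc)
open Pool.Agent.Y121.AH

section Mu

variable {k : Type u} [Field k] {𝒱 : VarClass k} {ops : CycleOps 𝒱} {T : HodgeTheory ops}
  {X : 𝒱.Obj}
  {ι : Type} [Fintype ι] [DecidableEq ι] {e : Basis ι T.W.K (T.W.H X)} {deg : ι → ℕ}
  {H : HData ι} {ψ : LinearMap.BilinForm T.W.K (T.W.H X)} {Q : ClassPred T.W}
  (hψ : IsPHS (tauT T) (Fx T X) ψ X.dim)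
  (hdeg : ∀ j, e j ∈ T.W.gr X (deg j)) (ho : e H.D.o = 1)
  (hH : ∀ t : ℂ, t ≠ 0 → H.l t = mG hψ.int e (fun k => t ^ k))
  (hgen : Algebra.adjoin T.W.K (T.W.gr X 1 : Set (T.W.H X)) = ⊤)

/-- The multiplication belongs to the family. -/
lemma mu_memA (hfam : RFam H fun n => arrc e (Q.sys.csys X) n)
    (hinv : arr (kp Unit H.Qir) ∈ AQ (fun n => arrc e (Q.sys.csys X) n) (Unit ⊕ Unit)) :
    arr ((DD hψ hdeg ho hH hgen).mu * kp (Unit ⊕ Unit) H.Qir) ∈
      AQ (fun n => arrc e (Q.sys.csys X) n) (Unit ⊕ (Unit ⊕ Unit)) := by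
  have hq : cQ2 e H.Qir ∈ Q.sp (pw X 1) := by
    have h1 := hinv 1 Pool.Agent.N996.FP.Geo.e2
    have h3 : rei Pool.Agent.N996.FP.Geo.e2 (arr (kp Unit H.Qir)) =
        fun w : Fin (1 + 1) → ι => H.Qir (w 0) (w 1) := by
      funext w
      rw [rei, arr, kp_apply, Fintype.prod_unique]
      rfl
    rw [h3] at h1
    exact h1
  have hev : T.W.map (rab X 0 1) (cQ2 e H.Qir) ∈ PH T.W (pw X 2) 0 :=
    PH.map _ (Q.sys.even hq)
  refine hfam.of (n := 2) e3 ?_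
  rw [mem_arrc]
  have hc : ∀ i j, e i * e j = ∑ k,
      (((DD hψ hdeg ho hH hgen).c k i j : ℚ) : T.W.K) • e k := by
    intro i j
    conv_lhs => rw [← e.sum_repr (e i * e j)]
    refine Finset.sum_congr rfl fun k _ => ?_
    congr 1
    exact ((gdata e hdeg ho hH hgen).rq_spec _).symm
  have h4 := mu_clw e hc hev
  have h5 : (rei e3 (arr ((DD hψ hdeg ho hH hgen).mu * kp (Unit ⊕ Unit) H.Qir))) =
      fun w : Fin (2 + 1) → ι => ∑ x, ∑ y, (DD hψ hdeg ho hH hgen).c (w 0) x y *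
        (H.Qir x (w 2) * H.Qir y (w 1)) := by
    funext w
    rw [rei, arr, Matrix.mul_apply, sum_sumElim, sum_unit]
    refine Finset.sum_congr rfl fun x _ => ?_
    rw [sum_unit]
    refine Finset.sum_congr rfl fun y _ => ?_
    rw [kp_apply, Fintype.prod_sum_type, Fintype.prod_unique, Fintype.prod_unique]
    rfl
  rw [h5, ← h4]
  exact Q.sys.mul (Q.sys.map _ hq) (Q.sys.map _ hq)

include hψ hdeg ho hH hgen in
/-- The algebra in coordinates. -/
theorem exists_E [Nontrivial (T.W.H X)] (hb : finrank T.W.K (T.W.gr X 1) = 2 * X.dim)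
    (hfam : RFam H fun n => arrc e (Q.sys.csys X) n)
    (hinv : arr (kp Unit H.Qir) ∈ AQ (fun n => arrc e (Q.sys.csys X) n) (Unit ⊕ Unit)) :
    ∃ (B : Type) (_ : Ring B) (_ : Algebra ℂ B) (E : AData H B), E.deg = deg ∧
      arr (E.mu * kp (Unit ⊕ Unit) H.Qir) ∈
        AQ (fun n => arrc e (Q.sys.csys X) n) (Unit ⊕ (Unit ⊕ Unit)) ∧
      (∃ v : Fin (finrank ℂ E.V) → E.V, pL E.L v ≠ 0) ∧ finrank ℂ E.V = 2 * X.dim := by
  refine ⟨_, inferInstance, inferInstance, DD hψ hdeg ho hH hgen, rfl,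
    mu_memA hψ hdeg ho hH hgen hfam hinv, ?_, ((gdata e hdeg ho hH hgen).finrank_V).trans hb⟩
  obtain ⟨v, hv, hv0⟩ := exists_topc hgen
  have hfin : finrank T.W.K ((gdata e hdeg ho hH hgen).gr 1) = 2 * X.dim := hb
  have key : ∀ m, m = 2 * X.dim → ∃ v : Fin m → T.W.H X,
      (∀ i, v i ∈ (gdata e hdeg ho hH hgen).gr 1) ∧ (List.ofFn v).prod ≠ 0 := by
    rintro m rfl
    exact ⟨v, hv, hv0⟩
  obtain ⟨v, hv, hv0⟩ := key _ hfin
  exact (gdata e hdeg ho hH hgen).exists_top v hv hv0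

end Mu

end Pool.Agent.L0h10.RU
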