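import Pool.Agent.L0h10.RW.Geo

/-!
# Abelian varieties: the situation in coordinates, II
-/

set_option linter.unusedSectionVars false

open CategoryTheory AlgebraicGeometry TensorProduct Matrix

universe u v

namespace Pool.Agent.L0h10.RU

open Module
open Pool.Agent.H914 Pool.Agent.H914.VarClass Pool.Agent.H914.VarClass.Obj
  Pool.Agent.H914.WeilCohomology
open Pool.Agent.Y121.AHS
open Pool.Agent.Y133.Half (pw pfst psnd wb wb_zero wb_succ ClassPred PH)
open Pool.Agent.Y121.AH (hodgePred)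
open Pool.Agent.N996.BP Pool.Agent.N996.FP Pool.Agent.N996.BP.Geo
open Pool.Agent.N996.FP.Geo (form_gr)
open Pool.Agent.L0h10.TS (GaloisAction IsTate cross_one isDeg_mapL mapL_em mapL_smL mapL_add
  mapL_zero smL_one emL_add emL_smul emL_zero exists_cl ve emL_clw cL toRep isT_iff isDeg_ve
  wb_mem hp desc_span ar2 ar2_inj ar2_surj kp_ar2 sum_fin2 GRep isTp_iff vB vB_apply gal_vB mt
  isDeg_vB Q_gr Operators IsInfinitesimal KillsTate opOf opOf_zero inf_eq opOf_kill up_ve up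
  IsComb jj vB_inj vB_smul smL_eq ActsSemisimply ss_coord gal_ve ve_smul)
open Pool.Agent.L0h10.RQ Pool.Agent.L0h10.RT

variable {k : Type u} [Field k] {𝒱 : VarClass k} {ops : CycleOps 𝒱} {T : HodgeTheory ops}
  {X : 𝒱.Obj} {Γ : Type v} [Group Γ] [TopologicalSpace Γ]
  {ℓ : ℕ} [hℓ : Fact ℓ.Prime] [Algebra T.W.K ℚ_[ℓ]] {G : GaloisAction T X Γ ℚ_[ℓ]}

theorem exists_crdA {Q : ClassPred T.W} [IsTopologicalGroup Γ] [Nontrivial (T.W.H X)]
    (j : ℚ_[ℓ] →+* ℂ)
    {ψ : Pool.Agent.N996.FP.RForm T.W X} (hψ : IsPHS (tauT (toH T)) (Fx (toH T) X) ψ X.dim)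
    (hX : OfAbelianType T X)
    (hQH : ∀ n, Q.sp (pw X n) ≤ (hodgePred (toH T)).sp (pw X n))
    (hQT : QTate G Q) (hI : InvForm G (formL ℚ_[ℓ] ψ)) (hc : IsCts G)
    {N : ℕ} (hN : 4 ≤ N) (hT : TateQ G Q (N - 1)) :
    ∃ (ι : Type) (_ : Fintype ι) (_ : DecidableEq ι) (e : Basis ι T.W.K (T.W.H X)) (deg : ι → ℕ)
      (hdeg : ∀ i, e i ∈ T.W.gr X (deg i)) (H : HData ι) (r : ℂ),
      cQ H.Qr = r • (fM e ψ)ᵀ ∧ Crd1 deg j (toRep G e hdeg) H (AA Q e) N ∧
      ∃ (B : Type) (_ : Ring B) (_ : Algebra ℂ B) (E : AData H B), E.deg = deg ∧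
        arr (E.mu * kp (Unit ⊕ Unit) H.Qir) ∈ AQ (AA Q e) (Unit ⊕ (Unit ⊕ Unit)) ∧
        (∃ v : Fin (finrank ℂ E.V) → E.V, pL E.L v ≠ 0) ∧ finrank ℂ E.V = 2 * X.dim := by
  classical
  have hnt : Nontrivial ((toH T).W.H X) := inferInstanceAs (Nontrivial (T.W.H X))
  obtain ⟨ι, _, _, e, o, deg, heo, hdeg⟩ := exists_ubasis (toH T).W X
  have ho : (1 : ℂ) ⊗ₜ[(toH T).W.K] e o ∈ Fx (toH T) X (0, 0) := by
    rw [heo]
    have h1 := (isHodge_one (T := toH T) (X := X)).2
    exact h1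
  obtain ⟨H, hHo, hHw, hH, r, hr, hQ⟩ := hψ.exists_hdata2 e o ho
  have hd : Hom2 deg H := hom2_of (T := T) (e := e) hdeg hψ hQ
  obtain ⟨Δ, hInv⟩ := invQ_of (T := T) (e := e) (G := G) (j := j) hdeg hψ hQ hI
  have hsmall : ∀ n, n + 1 ≤ N → TateQ G Q n := fun n hn =>
    tateQ_mono hQT (show n ≤ N - 1 by omega) hT
  have hT1 : TateQ G Q 1 := hsmall 1 (by omega)
  have hdp : dp T.W X ∈ Q.sp (pw X 1) := dp_Q (T := T) (e := e) hdeg hQT hT1 j
  -- the parities
  let p : ι → Fin 2 := fun j => ⟨deg j % 2, Nat.mod_lt _ two_pos⟩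
  have hp : ∀ j, e j ∈ PH T.W X (p j : ℕ) := fun j =>
    PH.of' (by change deg j % 2 = (deg j % 2) % 2; omega) (hdeg j)
  obtain ⟨q, hq, hqQ⟩ := exists_qQ (T := T) (e := e) hdeg hQT hT1 hInv hd
  have hqE : q ∈ PH T.W (X.prod X) 0 := Q.sys.even hq
  have hfam : RFam H (AA (T := T) Q e) :=
    { perm := fun n σ a ha => arrc_perm (W := T.W) hp hdp n σ ha
      tens := fun n m a b ha hb => arrc_tens (W := T.W) e n m ha hb
      contr := fun n a ha => arrc_contr (W := T.W) (fun j => ⟨_, hp j⟩) hq hqE hqQ n ha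
      le := fun n a ha => (inv_cls (T := toH T) e hH n a).1 (inv_iff.2 (hQH n ha)) }
  have D : Crd1 deg j (toRep G e hdeg) H (AA Q e) N :=
    { hd := hd
      par := par_of (T := toH T) (X := X) (e := e) hdeg hψ.int hH
      fam := hfam
      huni := by
        intro n e'
        obtain rfl : n = 0 := by
          have := Fintype.card_congr e'
          rw [Fintype.card_fin, Fintype.card_unit] at this
          omega
        have h1 : rei e' (uni ℚ H.D.o Unit) = uni ℚ H.D.o (Fin (0 + 1)) := by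
          funext w
          rw [rei, uni, uni]
          exact Equiv.prod_comp e' fun k => if w k = H.D.o then (1 : ℚ) else 0
        rw [h1]
        refine mem_AA.2 ?_
        have h2 : clw (W := T.W) e 0 (uni ℚ H.D.o (Fin (0 + 1))) = 1 :=
          (clw_uni (T := T) e H.D.o).trans (by rw [hHo]; exact heo)
        rw [h2]
        exact ClassPred.sp_of (one_P (T := T) (Q := Q) X)
      le := fun n a ha => AA_TT (T := T) hdeg hQT ha
      form := ⟨Δ, hInv⟩
      cts := cts_coord hdeg hc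
      hN := hN
      small := by
        intro n hn c hc
        have h1 := TT_AA (T := T) hdeg (hsmall n hn) hc
        refine Submodule.span_mono (Set.image_mono fun a ha => ?_) h1
        exact hfam.mem_iff.2 ha }
  refine ⟨ι, inferInstance, inferInstance, e, deg, hdeg, H, r, hQ, D, ?_⟩
  exact exists_E (T := toH T) (X := X) (Q := Q) hψ hdeg (by rw [hHo]; exact heo) hH hX.1 hX.2 hfam
    D.hinv

end Pool.Agent.L0h10.RU
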