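import Pool.Agent.L0h10.RW.Geo2

/-!
# The centre of the endomorphisms of the degree one part, in coordinates
-/

set_option linter.unusedSectionVars false

open CategoryTheory AlgebraicGeometry TensorProduct Matrix

universe u v

namespace Pool.Agent.L0h10.RU

open Module
open Pool.Agent.H914 Pool.Agent.H914.VarClass Pool.Agent.H914.VarClass.Obj
  Pool.Agent.H914.WeilCohomology
open Pool.Agent.Y121.AHS
open Pool.Agent.Y133.Half (pw pfst psnd wb wb_zero wb_succ ClassPred PH)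
open Pool.Agent.Y121.AH (hodgePred)
open Pool.Agent.N996.BP Pool.Agent.N996.FP Pool.Agent.N996.BP.Geo
open Pool.Agent.N996.FP.Geo (form_gr adj_of_fM)
open Pool.Agent.L0h10.TS (GaloisAction IsTate ve toRep isT_iff isDeg_ve
  vB vB_apply gal_vB mt mt_spec mt_inj vB_single up_em IsLin
  isDeg_vB Operators IsInfinitesimal KillsTate opOf opOf_zero opOf_inf inf_eq opOf_kill up_ve up
  IsComb jj vB_inj vB_smul smL_eq ActsSemisimply ss_coord gal_ve ve_smul map_mul_th GRep)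
open Pool.Agent.L0h10.RQ Pool.Agent.L0h10.RT

variable {k : Type u} [Field k] {𝒱 : VarClass k} {ops : CycleOps 𝒱} {T : HodgeTheory ops}
  {X : 𝒱.Obj} {Γ : Type v} [Group Γ] [TopologicalSpace Γ]
  {ℓ : ℕ} [hℓ : Fact ℓ.Prime] [Algebra T.W.K ℚ_[ℓ]] (G : GaloisAction T X Γ ℚ_[ℓ])

/-- The endomorphisms of the representation `H^1(X, L)` of open subgroups. -/
structure IsTateEndo1 (f : HL T.W ℚ_[ℓ] (pw X 0) → HL T.W ℚ_[ℓ] (pw X 0)) : Prop where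
  add : ∀ x y, f (x + y) = f x + f y
  smul : ∀ l x, f (smL l x) = smL l (f x)
  deg : ∀ x, IsDeg 1 x → IsDeg 1 (f x)
  comm : ∃ Δ : OpenSubgroup Γ, ∀ g ∈ Δ, ∀ x, IsDeg 1 x → f (G.ρ 0 g x) = G.ρ 0 g (f x)

/-- The central endomorphisms of `H^1(X, L)` are self-adjoint. -/
def CentreAdj1 (φ : HL T.W ℚ_[ℓ] X → HL T.W ℚ_[ℓ] X → ℚ_[ℓ]) : Prop :=
  ∀ f, IsTateEndo1 G f → (∀ h, IsTateEndo1 G h → ∀ x, IsDeg 1 x → f (h x) = h (f x)) →
    ∀ x y : HL T.W ℚ_[ℓ] (pw X 0), IsDeg 1 x → IsDeg 1 y → φ (f x) y = φ x (f y)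

variable {ι : Type} [Fintype ι] [DecidableEq ι] {e : Basis ι T.W.K (T.W.H X)} {deg : ι → ℕ}
  (hdeg : ∀ i, e i ∈ T.W.gr X (deg i)) {H : HData ι}

include hdeg in
lemma isDeg_pd (v : ι → ℚ_[ℓ]) :
    IsDeg (X := X) 1 (vB ℚ_[ℓ] e (pdL ℚ_[ℓ] deg 1 *ᵥ v) : HL T.W ℚ_[ℓ] X) := by
  refine (isDeg_vB hdeg).2 fun w hw => ?_
  by_contra h
  apply hw
  rw [pdL, Matrix.mulVec_diagonal, if_neg h, zero_mul]

include hdeg in
lemma pd_of_isDeg {v : ι → ℚ_[ℓ]} (h : IsDeg (X := X) 1 (vB ℚ_[ℓ] e v : HL T.W ℚ_[ℓ] X)) :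
    pdL ℚ_[ℓ] deg 1 *ᵥ v = v := by
  funext i
  rw [pdL, Matrix.mulVec_diagonal]
  by_cases hi : deg i = 1
  · rw [if_pos hi, one_mul]
  · rw [if_neg hi, zero_mul]
    by_contra h0
    exact hi ((isDeg_vB hdeg).1 h i (Ne.symm h0))

lemma mt_eq1 {f : HL T.W ℚ_[ℓ] (pw X 0) → HL T.W ℚ_[ℓ] (pw X 0)} (hf : IsTateEndo1 G f)
    (v : ι → ℚ_[ℓ]) : f (vB ℚ_[ℓ] e v : HL T.W ℚ_[ℓ] X) =
      (vB ℚ_[ℓ] e (mt (Z := X) e f *ᵥ v) : HL T.W ℚ_[ℓ] X) :=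
  mt_spec (Z := X) e (f := f) ⟨hf.add, hf.smul⟩ v

include hdeg in
lemma pMp {f : HL T.W ℚ_[ℓ] (pw X 0) → HL T.W ℚ_[ℓ] (pw X 0)} (hf : IsTateEndo1 G f) :
    pdL ℚ_[ℓ] deg 1 * (mt (Z := X) e f * pdL ℚ_[ℓ] deg 1) =
      mt (Z := X) e f * pdL ℚ_[ℓ] deg 1 := by
  apply Matrix.mulVec_injective
  funext v
  change (pdL ℚ_[ℓ] deg 1 * (mt (Z := X) e f * pdL ℚ_[ℓ] deg 1)) *ᵥ v =
    (mt (Z := X) e f * pdL ℚ_[ℓ] deg 1) *ᵥ v
  rw [← Matrix.mulVec_mulVec]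
  refine pd_of_isDeg (T := T) (X := X) (e := e) hdeg ?_
  rw [← Matrix.mulVec_mulVec]
  have h1 := hf.deg _ (isDeg_pd (T := T) (X := X) (e := e) hdeg v)
  have h2 := mt_eq1 (e := e) G hf (pdL ℚ_[ℓ] deg 1 *ᵥ v)
  exact h2 ▸ h1

/-- The matrices of endomorphisms. -/
lemma mt_E1 {f : HL T.W ℚ_[ℓ] (pw X 0) → HL T.W ℚ_[ℓ] (pw X 0)} (hf : IsTateEndo1 G f) :
    IsE1 (toRep G e hdeg) (mt (Z := X) e f * pdL ℚ_[ℓ] deg 1) := by
  have hsupp : ∀ i k, deg i ≠ 1 ∨ deg k ≠ 1 →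
      (mt (Z := X) e f * pdL ℚ_[ℓ] deg 1) i k = 0 := by
    intro i k h
    rcases h with h | h
    · rw [← pMp (e := e) G hdeg hf, pdL, Matrix.diagonal_mul, if_neg h, zero_mul]
    · rw [pdL, Matrix.mul_diagonal, if_neg h, mul_zero]
  refine ⟨⟨fun i k hik => ?_, ?_⟩, hsupp⟩
  · by_cases hi : deg i = 1
    · exact hsupp i k (Or.inr fun hk => hik (hi.trans hk.symm))
    · exact hsupp i k (Or.inl hi)
  · obtain ⟨Δ, hΔ⟩ := hf.comm
    refine ⟨Δ, fun g hg => ?_⟩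
    have hR := pdL_comm (M := (toRep G e hdeg).R g) (deg := deg)
      (fun i k h => (toRep G e hdeg).deg' g i k h) 1
    have h2 : ∀ v : ι → ℚ_[ℓ], G.ρ 0 g (vB ℚ_[ℓ] e v : HL T.W ℚ_[ℓ] X) =
        (vB ℚ_[ℓ] e ((toRep G e hdeg).R g *ᵥ v) : HL T.W ℚ_[ℓ] X) := fun v => gal_vB G e g v
    have h3 : mt (Z := X) e f * (toRep G e hdeg).R g * pdL ℚ_[ℓ] deg 1 =
        (toRep G e hdeg).R g * (mt (Z := X) e f * pdL ℚ_[ℓ] deg 1) := by
      apply Matrix.mulVec_injective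
      funext v
      change (mt (Z := X) e f * (toRep G e hdeg).R g * pdL ℚ_[ℓ] deg 1) *ᵥ v =
        ((toRep G e hdeg).R g * (mt (Z := X) e f * pdL ℚ_[ℓ] deg 1)) *ᵥ v
      have h4 := hΔ g hg _ (isDeg_pd (T := T) (X := X) (e := e) hdeg v)
      rw [h2, mt_eq1 (e := e) G hf, mt_eq1 (e := e) G hf, h2] at h4
      have h5 := vB_inj h4
      rw [Matrix.mulVec_mulVec, Matrix.mulVec_mulVec, Matrix.mulVec_mulVec,
        Matrix.mulVec_mulVec] at h5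
      simp only [Matrix.mul_assoc] at h5 ⊢
      exact h5
    rw [Matrix.mul_assoc, ← hR, ← Matrix.mul_assoc, h3]

/-- The operators of matrices. -/
lemma opM_endo1 {u : Matrix ι ι ℚ_[ℓ]} (hu : IsE1 (toRep G e hdeg) u) :
    IsTateEndo1 G (opM e u) := by
  have h := opM_endo G hdeg hu.1
  obtain ⟨Δ, hΔ⟩ := h.comm
  exact ⟨h.add, h.smul, h.deg 1, Δ, fun g hg x _ => hΔ g hg x⟩

/-- The operators of central matrices are central. -/
lemma opM_central1 {u : Matrix ι ι ℚ_[ℓ]} (hu : IsCE1 (toRep G e hdeg) u)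
    {f : HL T.W ℚ_[ℓ] (pw X 0) → HL T.W ℚ_[ℓ] (pw X 0)} (hf : IsTateEndo1 G f)
    (x : HL T.W ℚ_[ℓ] (pw X 0)) (hx : IsDeg 1 x) : opM e u (f x) = f (opM e u x) := by
  obtain ⟨v, rfl⟩ := (vB ℚ_[ℓ] e).surjective (show HL T.W ℚ_[ℓ] X from x)
  refine (congrArg (opM e u) (mt_eq1 (e := e) G hf v)).trans ((opM_vB u _).trans ?_)
  refine Eq.trans ?_ ((congrArg f (opM_vB u v)).trans (mt_eq1 (e := e) G hf _)).symm
  have hv := pd_of_isDeg (T := T) (X := X) (e := e) hdeg hx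
  have hup : pdL ℚ_[ℓ] deg 1 * u = u := by
    ext i k
    rw [pdL, Matrix.diagonal_mul]
    by_cases hi : deg i = 1
    · rw [if_pos hi, one_mul]
    · rw [if_neg hi, zero_mul, hu.1.2 i k (Or.inl hi)]
  have h1 := hu.2 _ (mt_E1 G hdeg hf)
  have h2 : u *ᵥ (mt (Z := X) e f *ᵥ v) = mt (Z := X) e f *ᵥ (u *ᵥ v) := by
    calc u *ᵥ (mt (Z := X) e f *ᵥ v) =
        (u * (mt (Z := X) e f * pdL ℚ_[ℓ] deg 1)) *ᵥ v := by
          conv_lhs => rw [← hv]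
          simp only [Matrix.mulVec_mulVec]
      _ = (mt (Z := X) e f * (pdL ℚ_[ℓ] deg 1 * u)) *ᵥ v := by
          rw [h1, Matrix.mul_assoc]
      _ = mt (Z := X) e f *ᵥ (u *ᵥ v) := by rw [hup, Matrix.mulVec_mulVec]
  rw [h2]

include hdeg in
lemma adj_form1 {φ : HL T.W ℚ_[ℓ] X → HL T.W ℚ_[ℓ] X → ℚ_[ℓ]}
    (h : CentreAdj1 G φ) {u : Matrix ι ι ℚ_[ℓ]} (hu : IsCE1 (toRep G e hdeg) u) {a b : ι}
    (ha : deg a = 1) (hb : deg b = 1) :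
    φ (vB ℚ_[ℓ] e (u *ᵥ Pi.single a 1)) (vB ℚ_[ℓ] e (Pi.single b 1)) =
      φ (vB ℚ_[ℓ] e (Pi.single a 1)) (vB ℚ_[ℓ] e (u *ᵥ Pi.single b 1)) := by
  have h2 := h (opM e u) (opM_endo1 G hdeg hu.1)
    (fun f hf x hx => opM_central1 G hdeg hu hf x hx)
    (vB ℚ_[ℓ] e (Pi.single a 1) : HL T.W ℚ_[ℓ] X) (vB ℚ_[ℓ] e (Pi.single b 1) : HL T.W ℚ_[ℓ] X)
    (ha ▸ isDeg_single hdeg a) (hb ▸ isDeg_single hdeg b)
  have h3 : (show HL T.W ℚ_[ℓ] X from opM e u (vB ℚ_[ℓ] e (Pi.single a 1) : HL T.W ℚ_[ℓ] X)) =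
      vB ℚ_[ℓ] e (u *ᵥ Pi.single a 1) := opM_vB u _
  have h4 : (show HL T.W ℚ_[ℓ] X from opM e u (vB ℚ_[ℓ] e (Pi.single b 1) : HL T.W ℚ_[ℓ] X)) =
      vB ℚ_[ℓ] e (u *ᵥ Pi.single b 1) := opM_vB u _
  rw [← h3, ← h4]
  exact h2

/-- Self-adjoint centres in coordinates. -/
lemma adj_coord1 {ψ : Pool.Agent.N996.FP.RForm T.W X}
    (hψ : IsPHS (tauT (toH T)) (Fx (toH T) X) ψ X.dim) {r : ℂ} (hQ : cQ H.Qr = r • (fM e ψ)ᵀ)
    (h : CentreAdj1 G (formL ℚ_[ℓ] ψ)) {j : ℚ_[ℓ] →+* ℂ} {u : Matrix ι ι ℚ_[ℓ]}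
    (hu : IsCE1 (toRep G e hdeg) u) : u.map j * cQ H.Qir = cQ H.Qir * (u.map j)ᵀ := by
  obtain ⟨F, hF⟩ := exists_Fq e ψ
  have hFd := Fq_deg hdeg hψ hF
  suffices key : cQ F * u.map j = (u.map j)ᵀ * cQ F by
    rw [← fM_eq hF] at key
    exact adj_of_fM (T := toH T) (X := X) (e := e) (ψ := ψ) hQ key
  ext a b
  by_cases hab : deg a = 1 ∧ deg b = 1
  · have h3 := adj_form1 G hdeg h hu hab.1 hab.2
    rw [formL_vB hF, formL_vB hF, sum_mul_single _ b fun i m => ((F i m : ℚ) : ℚ_[ℓ]),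
      sum_single_mul _ a fun i m => ((F i m : ℚ) : ℚ_[ℓ])] at h3
    have h5 := congrArg j h3
    rw [Matrix.mulVec_single_one, Matrix.mulVec_single_one] at h5
    simp only [map_sum, map_mul, map_ratCast, Matrix.col_apply] at h5
    rw [Matrix.mul_apply, Matrix.mul_apply]
    simp only [cQ, Matrix.map_apply, Matrix.transpose_apply]
    rw [h5]
    exact Finset.sum_congr rfl fun m _ => mul_comm _ _
  · have hab' : deg a ≠ 1 ∨ deg b ≠ 1 := by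
      by_contra hcon
      push Not at hcon
      exact hab hcon
    rw [Matrix.mul_apply, Matrix.mul_apply, Finset.sum_eq_zero, Finset.sum_eq_zero]
    · intro m _
      rw [Matrix.transpose_apply, Matrix.map_apply, cQ, Matrix.map_apply]
      by_cases hm : deg m = 1
      · rcases hab' with ha | hb
        · rw [hu.1.2 m a (Or.inr ha), map_zero, zero_mul]
        · rw [hFd m b (fun h => hb (h ▸ hm)), Rat.cast_zero, mul_zero]
      · rw [hu.1.2 m a (Or.inl hm), map_zero, zero_mul]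
    · intro m _
      rw [Matrix.map_apply, cQ, Matrix.map_apply]
      by_cases hm : deg m = 1
      · rcases hab' with ha | hb
        · rw [hFd a m (fun h => ha (h.trans hm)), Rat.cast_zero, zero_mul]
        · rw [hu.1.2 m b (Or.inr hb), map_zero, mul_zero]
      · rw [hu.1.2 m b (Or.inl hm), map_zero, mul_zero]

end Pool.Agent.L0h10.RU
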