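import Pool.Agent.L0h10.RW.Crd4

/-!
# Semisimplicity of the degree one part
-/

set_option linter.unusedSectionVars false

namespace Pool.Agent.L0h10.RU

open Matrix Module
open Pool.Agent.N996.BP Pool.Agent.N996.FP
open Pool.Agent.L0h10.TS (ar2 ar2_inj ar2_surj dk_ar2 kp_ar2 dk_rei dk_empty dk_mulVec_apply GRep
  desc_sol desc_span dv dv_eq dv_map)
open Pool.Agent.L0h10.RQ

variable {ι : Type} [Fintype ι] [DecidableEq ι] {deg : ι → ℕ} {L : Type} [Field L] [CharZero L]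
  {j : L →+* ℂ} {Γ : Type*} [Group Γ] [TopologicalSpace Γ] {P : GRep deg L Γ}
  {H : HData ι} {A : ∀ n : ℕ, Submodule ℚ ((Fin (n + 1) → ι) → ℚ)} {N : ℕ}

variable (P) in
/-- The group acts semisimply on the vectors of degree one. -/
def SS1 : Prop := ∀ U : Submodule L (ι → L), (∀ u ∈ U, pdL L deg 1 *ᵥ u = u) →
  (∀ g : Γ, ∀ u ∈ U, P.R g *ᵥ u ∈ U) → ∃ U' : Submodule L (ι → L),
    (∀ u ∈ U', pdL L deg 1 *ᵥ u = u) ∧ (∀ g : Γ, ∀ u ∈ U', P.R g *ᵥ u ∈ U') ∧
    (∀ u ∈ U, u ∈ U' → u = 0) ∧ ∀ v, pdL L deg 1 *ᵥ v = v → v ∈ U ⊔ U'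

/-- **The radical kills the degree one part.** -/
theorem rad_pd [IsTopologicalGroup Γ] (hS : SS1 P) (hd : Hom2 deg H) {Δ : OpenSubgroup Γ}
    (hQ : InvQ j P H Δ) {x : Matrix ι ι L} (hx : x ∈ rad j P) : x * pdL L deg 1 = 0 := by
  classical
  have hpp := pdL_sq (ι := ι) L deg 1
  have hxp : ∀ x ∈ rad j P, x * pdL L deg 1 = pdL L deg 1 * x := fun x hx =>
    pdL_comm (M := x) (deg := deg) (fun i k h => gL_deg hd hQ hx.1 h) 1
  have hRp : ∀ g : Γ, P.R g * pdL L deg 1 = pdL L deg 1 * P.R g := fun g =>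
    pdL_comm (M := P.R g) (deg := deg) (fun i k h => P.deg' g i k h) 1
  -- the invariants
  let V0 : Submodule L (ι → L) :=
    { carrier := {v | pdL L deg 1 *ᵥ v = v ∧ ∀ x ∈ rad j P, x *ᵥ v = 0}
      add_mem' := fun {a b} ha hb => ⟨by rw [Matrix.mulVec_add, ha.1, hb.1], fun x hx => by
        rw [Matrix.mulVec_add, ha.2 x hx, hb.2 x hx, add_zero]⟩
      zero_mem' := ⟨Matrix.mulVec_zero _, fun x _ => Matrix.mulVec_zero _⟩
      smul_mem' := fun c a ha => ⟨by rw [Matrix.mulVec_smul, ha.1], fun x hx => by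
        rw [Matrix.mulVec_smul, ha.2 x hx, smul_zero]⟩ }
  have hV0 : ∀ v, v ∈ V0 ↔ pdL L deg 1 *ᵥ v = v ∧ ∀ x ∈ rad j P, x *ᵥ v = 0 :=
    fun v => Iff.rfl
  have hst : ∀ g : Γ, ∀ v ∈ V0, P.R g *ᵥ v ∈ V0 := by
    intro g v hv
    rw [hV0] at hv ⊢
    refine ⟨?_, fun x hx => ?_⟩
    · rw [Matrix.mulVec_mulVec, ← hRp g, ← Matrix.mulVec_mulVec, hv.1]
    · have h1 := hv.2 _ (rad_conj hx g⁻¹)
      rw [inv_inv] at h1
      have h2 := congrArg (fun u => P.R g *ᵥ u) h1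
      beta_reduce at h2
      rw [Matrix.mulVec_zero, Matrix.mulVec_mulVec, ← Matrix.mul_assoc, ← Matrix.mul_assoc, R_inv,
        Matrix.one_mul, ← Matrix.mulVec_mulVec] at h2
      exact h2
  obtain ⟨U₁, h11, h12, h13, h14⟩ := hS V0 (fun u hu => hu.1) hst
  -- a complement
  let U' : Submodule L (ι → L) := U₁ ⊔ LinearMap.ker (Matrix.toLin' (pdL L deg 1))
  have hker : ∀ v, v ∈ LinearMap.ker (Matrix.toLin' (pdL L deg 1)) ↔ pdL L deg 1 *ᵥ v = 0 :=
    fun v => by rw [LinearMap.mem_ker, Matrix.toLin'_apply]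
  have hU'g : ∀ g : Γ, ∀ v ∈ U', P.R g *ᵥ v ∈ U' := by
    intro g v hv
    obtain ⟨a, ha, b, hb, rfl⟩ := Submodule.mem_sup.1 hv
    rw [Matrix.mulVec_add]
    refine Submodule.add_mem _ (Submodule.mem_sup_left (h12 g a ha))
      (Submodule.mem_sup_right ((hker _).2 ?_))
    rw [Matrix.mulVec_mulVec, ← hRp g, ← Matrix.mulVec_mulVec, (hker b).1 hb, Matrix.mulVec_zero]
  have hc : IsCompl V0 U' := by
    constructor
    · rw [Submodule.disjoint_def]
      intro v hv hv'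
      obtain ⟨a, ha, b, hb, h1⟩ := Submodule.mem_sup.1 hv'
      have h2 : v = a := by
        have h3 := congrArg (fun u => pdL L deg 1 *ᵥ u) h1
        beta_reduce at h3
        rw [Matrix.mulVec_add, h11 a ha, (hker b).1 hb, add_zero, hv.1] at h3
        exact h3.symm
      exact h13 v hv (h2 ▸ ha)
    · rw [codisjoint_iff, Submodule.eq_top_iff']
      intro v
      have h1 : v = pdL L deg 1 *ᵥ v + (v - pdL L deg 1 *ᵥ v) := by abel
      rw [h1]
      have h2 : v - pdL L deg 1 *ᵥ v ∈ V0 ⊔ U' := by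
        refine Submodule.mem_sup_right (Submodule.mem_sup_right ((hker _).2 ?_))
        rw [Matrix.mulVec_sub, Matrix.mulVec_mulVec, hpp, sub_self]
      have h3 : pdL L deg 1 *ᵥ v ∈ V0 ⊔ U' := by
        have h4 := h14 (pdL L deg 1 *ᵥ v) (by rw [Matrix.mulVec_mulVec, hpp])
        exact sup_le_sup_left le_sup_left V0 h4
      exact Submodule.add_mem _ h3 h2
  let f : (ι → L) →ₗ[L] (ι → L) := V0.subtype ∘ₗ V0.projectionOnto U' hc
  have hf0 : ∀ v, f v ∈ V0 := fun v => (V0.projectionOnto U' hc v).2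
  have hf1 : ∀ v ∈ V0, f v = v := by
    intro v hv
    change ((V0.projectionOnto U' hc v : V0) : ι → L) = v
    have := Submodule.projectionOnto_apply_left hc ⟨v, hv⟩
    rw [this]
  have hf2 : ∀ v ∈ U', f v = 0 := by
    intro v hv
    change ((V0.projectionOnto U' hc v : V0) : ι → L) = 0
    have := Submodule.projectionOnto_apply_right hc ⟨v, hv⟩
    rw [this]
    rfl
  have hf3 : ∀ g : Γ, ∀ v, f (P.R g *ᵥ v) = P.R g *ᵥ f v := by
    intro g v
    have hv : v ∈ V0 ⊔ U' := by rw [hc.sup_eq_top]; exact Submodule.mem_top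
    obtain ⟨a, ha, b, hb, rfl⟩ := Submodule.mem_sup.1 hv
    rw [Matrix.mulVec_add, map_add, hf1 _ (hst g a ha), hf2 _ (hU'g g b hb),
      map_add, hf1 a ha, hf2 b hb, add_zero, add_zero]
  obtain ⟨q, hq⟩ : ∃ q, q = LinearMap.toMatrix' f := ⟨_, rfl⟩
  have hqv : ∀ v, q *ᵥ v = f v := by
    intro v
    rw [hq, ← Matrix.toLin'_apply, Matrix.toLin'_toMatrix']
  have hqR : ∀ g : Γ, q * P.R g = P.R g * q := by
    intro g
    apply Matrix.mulVec_injective
    funext v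
    change (q * P.R g) *ᵥ v = (P.R g * q) *ᵥ v
    rw [← Matrix.mulVec_mulVec, ← Matrix.mulVec_mulVec, hqv, hqv, hf3]
  have hqp : pdL L deg 1 * q = q := by
    apply Matrix.mulVec_injective
    funext v
    change (pdL L deg 1 * q) *ᵥ v = q *ᵥ v
    rw [← Matrix.mulVec_mulVec, hqv, (hf0 v).1]
  have hqp' : q * pdL L deg 1 = q := by
    apply Matrix.mulVec_injective
    funext v
    change (q * pdL L deg 1) *ᵥ v = q *ᵥ v
    have h1 : f (v - pdL L deg 1 *ᵥ v) = 0 := hf2 _ (Submodule.mem_sup_right ((hker _).2 (by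
      rw [Matrix.mulVec_sub, Matrix.mulVec_mulVec, hpp, sub_self])))
    rw [map_sub, sub_eq_zero] at h1
    rw [← Matrix.mulVec_mulVec, hqv, hqv, h1]
  have hqd : ∀ i k, deg i ≠ deg k → q i k = 0 := by
    intro i k h
    by_cases hi : deg i = 1
    · rw [← hqp', pdL, Matrix.mul_diagonal, if_neg (fun hk => h (hi.trans hk.symm)), mul_zero]
    · rw [← hqp, pdL, Matrix.diagonal_mul, if_neg hi, zero_mul]
  -- it commutes with the Lie algebra
  have hTT : ar2 (q.map j * cQ H.Qir) ∈ TT j P 1 := by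
    refine comm_TT hd (Δ' := ⊤) hQ (fun i k h => ?_) fun g _ => ?_
    · rw [Matrix.map_apply, hqd i k h, map_zero]
    · rw [← map_mul_j, hqR, map_mul_j]
  have hcomm : ∀ x ∈ rad j P, x * q = q * x := by
    intro x hx
    apply map_inj_j (j := j)
    rw [map_mul_j, map_mul_j]
    exact LT_comm hd hQ hTT hx.1
  -- the kernel
  let W : Submodule L (ι → L) := LinearMap.ker (Matrix.toLin' q) ⊓
    LinearMap.ker (Matrix.toLin' (1 - pdL L deg 1))
  have hW : ∀ v, v ∈ W ↔ q *ᵥ v = 0 ∧ pdL L deg 1 *ᵥ v = v := fun v => by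
    rw [Submodule.mem_inf, LinearMap.mem_ker, Matrix.toLin'_apply, LinearMap.mem_ker,
      Matrix.toLin'_apply, Matrix.sub_mulVec, Matrix.one_mulVec, sub_eq_zero]
    exact and_congr Iff.rfl eq_comm
  have hW0 : W = ⊥ := by
    by_contra hne
    obtain ⟨v, hv, hv0, h1⟩ := engel (r := rad j P) (fun x hx y hy => rad_br hx hy)
      (fun x hx => rad_nil hx) (W := W) (fun x hx v hv => by
        rw [hW] at hv ⊢
        refine ⟨?_, ?_⟩
        · rw [Matrix.mulVec_mulVec, ← hcomm x hx, ← Matrix.mulVec_mulVec, hv.1,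
            Matrix.mulVec_zero]
        · rw [Matrix.mulVec_mulVec, ← hxp x hx, ← Matrix.mulVec_mulVec, hv.2]) hne
    rw [hW] at hv
    have h2 : v ∈ V0 := (hV0 v).2 ⟨hv.2, h1⟩
    rw [hqv, hf1 v h2] at hv
    exact hv0 hv.1
  apply Matrix.mulVec_injective
  funext v
  change (x * pdL L deg 1) *ᵥ v = 0 *ᵥ v
  rw [Matrix.zero_mulVec, ← Matrix.mulVec_mulVec]
  obtain ⟨u, hu⟩ : ∃ u, u = pdL L deg 1 *ᵥ v := ⟨_, rfl⟩
  have hup : pdL L deg 1 *ᵥ u = u := by rw [hu, Matrix.mulVec_mulVec, hpp]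
  have h2 : u - q *ᵥ u ∈ W := by
    rw [hW, Matrix.mulVec_sub, Matrix.mulVec_sub, Matrix.mulVec_mulVec, Matrix.mulVec_mulVec, hqp,
      hup]
    refine ⟨?_, rfl⟩
    rw [← Matrix.mulVec_mulVec, hqv (q *ᵥ u), hqv u, hf1 _ (hf0 u), sub_self]
  rw [hW0, Submodule.mem_bot, sub_eq_zero] at h2
  rw [← hu, h2, hqv]
  exact (hf0 u).2 x hx

end Pool.Agent.L0h10.RU
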