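import Pool.Agent.L0h10.RW.Geo3
import Pool.Agent.L0h10.RW.Sem

/-!
# The height in degree one and semisimplicity in degree one, in coordinates
-/

set_option linter.unusedSectionVars false

open CategoryTheory AlgebraicGeometry TensorProduct Matrix

universe u v

namespace Pool.Agent.L0h10.RU

open Module
open Pool.Agent.H914 Pool.Agent.H914.VarClass Pool.Agent.H914.VarClass.Obj
  Pool.Agent.H914.WeilCohomology
open Pool.Agent.Y121.AHS
open Pool.Agent.Y133.Half (pw pfst psnd wb wb_zero wb_succ ClassPred PH)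
open Pool.Agent.Y121.AH (hodgePred)
open Pool.Agent.N996.BP Pool.Agent.N996.FP Pool.Agent.N996.BP.Geo
open Pool.Agent.L0h10.TS (GaloisAction IsTate ve ve_zero toRep isT_iff isDeg_ve
  vB vB_apply gal_vB mt mt_spec mt_inj vB_single up_em IsLin
  isDeg_vB Operators IsInfinitesimal KillsTate opOf opOf_zero opOf_inf inf_eq opOf_kill up_ve up
  IsComb jj vB_inj vB_smul smL_eq ActsSemisimply ss_coord gal_ve ve_smul map_mul_th GRep)
open Pool.Agent.L0h10.RQ Pool.Agent.L0h10.RT

variable {k : Type u} [Field k] {𝒱 : VarClass k} {ops : CycleOps 𝒱} {T : HodgeTheory ops}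
  {X : 𝒱.Obj} {L Ω : Type} [Field L] [Field Ω] [Algebra T.W.K L] [Algebra T.W.K Ω] [Algebra L Ω]
  [IsScalarTower T.W.K L Ω] {Γ : Type v} [Group Γ] [TopologicalSpace Γ] (G : GaloisAction T X Γ L)

/-- An infinitesimal operator which kills the Tate classes and such that `H^1(X)` is contained in the
span of the eigenvectors with integral eigenvalues of absolute value at most `w`. -/
structure IsWeight1 (w : ℕ) (D : Operators T X Ω) : Prop where
  inf : IsInfinitesimal D
  tate : KillsTate G D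
  int : ∀ x : HL T.W L (pw X 0), IsDeg 1 x → IsComb Ω (fun y : HL T.W Ω (pw X 0) =>
    ∃ m : ℤ, |m| ≤ w ∧ smL (m : Ω) y = D 0 y) (up Ω x)

variable (Ω) in
/-- All infinitesimal operators which kill the Tate classes are combinations of such operators and
of commutators. -/
def HGT1 (w : ℕ) : Prop := ∀ D : Operators T X Ω, IsInfinitesimal D → KillsTate G D →
    IsComb Ω (fun f : HL T.W Ω (pw X 0) → HL T.W Ω (pw X 0) =>
      (∃ E : Operators T X Ω, IsWeight1 G w E ∧ E 0 = f) ∨
      ∃ E F : Operators T X Ω, (IsInfinitesimal E ∧ KillsTate G E) ∧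
        (IsInfinitesimal F ∧ KillsTate G F) ∧ comm0 (E 0) (F 0) = f) (D 0)

/-- Stable subspaces of `H^1(X, L)`. -/
def StG (U : Submodule L (HL T.W L (pw X 0))) : Prop :=
  (∀ x ∈ U, IsDeg 1 x) ∧ ∀ g, ∀ x ∈ U, G.ρ 0 g x ∈ U

/-- The representation `H^1(X, L)` is semisimple. -/
def SSG : Prop := ∀ U : Submodule L (HL T.W L (pw X 0)), StG G U →
  ∃ U' : Submodule L (HL T.W L (pw X 0)), StG G U' ∧ (∀ x ∈ U, x ∈ U' → x = 0) ∧
    ∀ x : HL T.W L (pw X 0), IsDeg 1 x → ∃ a ∈ U, ∃ b ∈ U', x = a + b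

variable [CharZero L]
  {ι : Type} [Fintype ι] [DecidableEq ι] {e : Basis ι T.W.K (T.W.H X)} {deg : ι → ℕ}
  (hdeg : ∀ i, e i ∈ T.W.gr X (deg i))

include hdeg in
lemma isDeg1_iff {v : ι → L} : IsDeg (X := X) 1 (vB L e v : HL T.W L X) ↔
    pdL L deg 1 *ᵥ v = v := by
  rw [isDeg_vB hdeg]
  constructor
  · intro h
    funext i
    rw [pdL, Matrix.mulVec_diagonal]
    by_cases hi : deg i = 1
    · rw [if_pos hi, one_mul]
    · rw [if_neg hi, zero_mul]
      by_contra h0
      exact hi (h i (Ne.symm h0))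
  · intro h w hw
    by_contra hi
    rw [← h, pdL, Matrix.mulVec_diagonal, if_neg hi, zero_mul] at hw
    exact hw rfl

/-- Semisimplicity in degree one in coordinates. -/
lemma ss1_coord (h : SSG G) : SS1 (toRep G e hdeg) := by
  intro U hU1 hU2
  let φ : (ι → L) ≃ₗ[L] HL T.W L X := vB L e
  obtain ⟨V, ⟨hV1, hV2⟩, hV3, hV4⟩ := h (U.map φ.toLinearMap) (by
    constructor
    · rintro _ ⟨u, hu, rfl⟩
      exact (isDeg1_iff (L := L) hdeg).2 (hU1 u hu)
    · rintro g _ ⟨u, hu, rfl⟩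
      have h1 := gal_vB G e g u
      exact ⟨mt (Z := X) e (G.ρ 0 g) *ᵥ u, hU2 g u hu, h1.symm⟩)
  let V' : Submodule L (HL T.W L X) := V
  refine ⟨V'.comap φ.toLinearMap, fun u hu => ?_, fun g u hu => ?_, fun u hu hu' => ?_,
    fun v hv => ?_⟩
  · exact (isDeg1_iff (L := L) hdeg).1 (hV1 _ hu)
  · have h1 := gal_vB G e g u
    change vB L e (mt (Z := X) e (G.ρ 0 g) *ᵥ u) ∈ V'
    rw [← h1]
    exact hV2 g _ hu
  · have h1 := hV3 (φ u) ⟨u, hu, rfl⟩ hu'
    exact φ.injective (h1.trans (map_zero φ).symm)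
  · obtain ⟨a, ⟨u, hu, rfl⟩, b, hb, h1⟩ := hV4 (φ v) ((isDeg1_iff (L := L) hdeg).2 hv)
    obtain ⟨b', hb'⟩ := φ.surjective (show HL T.W L X from b)
    have h2 : v = u + b' := by
      apply φ.injective
      rw [map_add, hb']
      exact h1
    rw [h2]
    refine Submodule.add_mem_sup hu ?_
    change φ b' ∈ V'
    rw [hb']
    exact hb

lemma up_vB (v : ι → L) : (up Ω (vB L e v : HL T.W L X) : HL T.W Ω X) =
    vB Ω e fun i => algebraMap L Ω (v i) := by
  have h1 := up_ve (Ω := Ω) (W := T.W) (e := e) 0 fun w => v (w 0)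
  rw [ve_zero, ve_zero] at h1
  exact h1

/-- Weight operators in coordinates. -/
lemma weight1_int (θ : Ω ≃+* ℂ)
    (hp : ∀ m ∈ LT (TT (jj L θ) (toRep G e hdeg)), m * pd deg 1 = pd deg 1 * m)
    {w : ℕ} {E : Operators T X Ω} (hE : IsWeight1 G w E) :
    (mt (Z := X) e (E 0)).map θ ∈ LT (TT (jj L θ) (toRep G e hdeg)) ∧
      IsInt w ((mt (Z := X) e (E 0)).map θ * pd deg 1) := by
  obtain ⟨y, hy⟩ : ∃ y, y = mt (Z := X) e (E 0) := ⟨_, rfl⟩
  have h1 : E = opOf e y := by rw [hy]; exact inf_eq hE.inf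
  rw [← hy]
  have hyL : y.map θ ∈ LT (TT (jj L θ) (toRep G e hdeg)) := by
    refine (kt_iff G hdeg θ y).1 ?_
    rw [← h1]
    exact hE.tate
  refine ⟨hyL, isInt_of fun v => ?_⟩
  have key : ∀ x ∈ Submodule.span Ω {z : HL T.W Ω X | ∃ m : ℤ, |m| ≤ w ∧ smL (m : Ω) z =
      (E 0 z : HL T.W Ω X)}, (fun i => θ ((vB Ω e).symm x i)) ∈
      Submodule.span ℂ {u | ∃ m : ℤ, |m| ≤ w ∧ (y.map θ) *ᵥ u = (m : ℂ) • u} := by
    intro x hx
    induction hx using Submodule.span_induction with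
    | mem x hx =>
      obtain ⟨m, hm, h2⟩ := hx
      obtain ⟨u, rfl⟩ := (vB Ω e).surjective x
      rw [LinearEquiv.symm_apply_apply]
      refine Submodule.subset_span ⟨m, hm, ?_⟩
      have h3 : opOf e y 0 (vB Ω e u : HL T.W Ω X) = (vB Ω e (y *ᵥ u) : HL T.W Ω X) :=
        opOf_zero e y u
      rw [h1, h3, ← vB_smul] at h2
      have h4 := vB_inj h2
      funext i
      have h5 := congrArg θ (congrFun h4 i)
      rw [Pi.smul_apply, smul_eq_mul, map_mul, map_intCast, Matrix.mulVec, dotProduct,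
        map_sum] at h5
      rw [Pi.smul_apply, smul_eq_mul, h5, Matrix.mulVec, dotProduct]
      refine Finset.sum_congr rfl fun t _ => ?_
      rw [map_mul, Matrix.map_apply]
    | zero =>
      have h5 : (fun i => θ ((vB Ω e).symm (0 : HL T.W Ω X) i)) = 0 := by
        funext i
        rw [map_zero]
        exact map_zero θ
      rw [h5]
      exact Submodule.zero_mem _
    | add a b _ _ ha hb =>
      have h5 : (fun i => θ ((vB Ω e).symm (a + b) i)) =
          (fun i => θ ((vB Ω e).symm a i)) + fun i => θ ((vB Ω e).symm b i) := by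
        funext i
        rw [map_add]
        exact map_add θ _ _
      rw [h5]
      exact Submodule.add_mem _ ha hb
    | smul c a _ ha =>
      have h5 : (fun i => θ ((vB Ω e).symm (c • a) i)) =
          θ c • fun i => θ ((vB Ω e).symm a i) := by
        funext i
        rw [map_smul]
        exact map_mul θ _ _
      rw [h5]
      exact Submodule.smul_mem _ _ ha
  -- the basis vectors of degree one
  have hbas : ∀ i, deg i = 1 → (Pi.single i 1 : ι → ℂ) ∈
      Submodule.span ℂ {u | ∃ m : ℤ, |m| ≤ w ∧ (y.map θ) *ᵥ u = (m : ℂ) • u} := by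
    intro i hi
    have h2 : IsDeg 1 (emL T.W L (e i) : HL T.W L X) :=
      hi ▸ (Submodule.tmul_mem_baseChange_of_mem _ (hdeg i))
    have h3 := key _ (hE.int (emL T.W L (e i) : HL T.W L X) h2)
    have h4 : (up Ω (emL T.W L (e i) : HL T.W L X) : HL T.W Ω X) = vB Ω e (Pi.single i 1) := by
      rw [vB_single]
      exact up_em (e i)
    have h5 : (fun t => θ ((vB Ω e).symm (up Ω (emL T.W L (e i) : HL T.W L X) : HL T.W Ω X) t)) =
        Pi.single i 1 := by
      rw [h4]
      funext t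
      rw [LinearEquiv.symm_apply_apply, Pi.single_apply, Pi.single_apply]
      split_ifs
      · exact map_one θ
      · exact map_zero θ
    have h6 : (fun t => θ ((vB Ω e).symm (up Ω (emL T.W L (e i) : HL T.W L X) : HL T.W Ω X) t)) ∈
        Submodule.span ℂ {u | ∃ m : ℤ, |m| ≤ w ∧ (y.map θ) *ᵥ u = (m : ℂ) • u} := h3
    rw [h5] at h6
    exact h6
  have hpv : pd deg 1 *ᵥ v ∈
      Submodule.span ℂ {u | ∃ m : ℤ, |m| ≤ w ∧ (y.map θ) *ᵥ u = (m : ℂ) • u} := by
    rw [sum_single (pd deg 1 *ᵥ v)]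
    refine Submodule.sum_mem _ fun i _ => ?_
    by_cases hi : deg i = 1
    · exact Submodule.smul_mem _ _ (hbas i hi)
    · rw [pd, Matrix.mulVec_diagonal, if_neg hi, zero_mul, zero_smul]
      exact Submodule.zero_mem _
  have hcm := hp _ hyL
  have hpp : ∀ u ∈ Submodule.span ℂ {u | ∃ m : ℤ, |m| ≤ w ∧ (y.map θ) *ᵥ u = (m : ℂ) • u},
      pd deg 1 *ᵥ u ∈ Submodule.span ℂ {u | ∃ m : ℤ, |m| ≤ w ∧
        (y.map θ * pd deg 1) *ᵥ u = (m : ℂ) • u} := by
    intro u hu
    induction hu using Submodule.span_induction with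
    | mem u hu =>
      obtain ⟨m, hm, h2⟩ := hu
      refine Submodule.subset_span ⟨m, hm, ?_⟩
      rw [Matrix.mulVec_mulVec, Matrix.mul_assoc, pd_sq, hcm, ← Matrix.mulVec_mulVec, h2,
        Matrix.mulVec_smul]
    | zero => rw [Matrix.mulVec_zero]; exact Submodule.zero_mem _
    | add a b _ _ ha hb => rw [Matrix.mulVec_add]; exact Submodule.add_mem _ ha hb
    | smul c a _ ha => rw [Matrix.mulVec_smul]; exact Submodule.smul_mem _ _ ha
  have h2 : v = pd deg 1 *ᵥ (pd deg 1 *ᵥ v) + (v - pd deg 1 *ᵥ v) := by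
    rw [Matrix.mulVec_mulVec, pd_sq]; abel
  rw [h2]
  refine Submodule.add_mem _ (hpp _ hpv) (Submodule.subset_span ⟨0, by simp, ?_⟩)
  rw [Matrix.mulVec_sub, Matrix.mulVec_mulVec, Matrix.mul_assoc, pd_sq, sub_self, Int.cast_zero,
    zero_smul]

/-- The generators in coordinates. -/
lemma hgt1_coord (θ : Ω ≃+* ℂ)
    (hp : ∀ m ∈ LT (TT (jj L θ) (toRep G e hdeg)), m * pd deg 1 = pd deg 1 * m)
    {w : ℕ} (h : HGT1 Ω G w) :
    IntGen1 deg (TT (jj L θ) (toRep G e hdeg)) w := by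
  intro y hy
  obtain ⟨y', hy'⟩ : ∃ y' : Matrix ι ι Ω, y' = y.map θ.symm := ⟨_, rfl⟩
  have hyy : y'.map θ = y := by
    rw [hy']
    ext i j
    exact θ.apply_symm_apply _
  have h1 := h (opOf e y') (opOf_inf e y') ((kt_iff G hdeg θ y').2 (by rw [hyy]; exact hy))
  have key : ∀ f ∈ Submodule.span Ω {f : HL T.W Ω (pw X 0) → HL T.W Ω (pw X 0) |
      (∃ E : Operators T X Ω, IsWeight1 G w E ∧ E 0 = f) ∨
      ∃ E F : Operators T X Ω, (IsInfinitesimal E ∧ KillsTate G E) ∧
        (IsInfinitesimal F ∧ KillsTate G F) ∧ comm0 (E 0) (F 0) = f},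
      (mt (Z := X) e f).map θ ∈ Submodule.span ℂ
        ({m | ∃ a ∈ LT (TT (jj L θ) (toRep G e hdeg)), ∃ b ∈ LT (TT (jj L θ) (toRep G e hdeg)),
          m = a * b - b * a} ∪
        {m | m ∈ LT (TT (jj L θ) (toRep G e hdeg)) ∧ IsInt w (m * pd deg 1)}) := by
    intro f hf
    induction hf using Submodule.span_induction with
    | mem f hf =>
      rcases hf with ⟨E, hE, rfl⟩ | ⟨E, F, ⟨hE, hE'⟩, ⟨hF, hF'⟩, rfl⟩
      · exact Submodule.subset_span (Or.inr (weight1_int G hdeg θ hp hE))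
      · rw [mt_comm0 hE hF, map_sub_th, map_mul_th, map_mul_th]
        have e1 : E = opOf e (mt (Z := X) e (E 0)) := inf_eq hE
        have e2 : F = opOf e (mt (Z := X) e (F 0)) := inf_eq hF
        exact Submodule.subset_span (Or.inl ⟨_, (kt_iff G hdeg θ _).1 (by rw [← e1]; exact hE'), _,
          (kt_iff G hdeg θ _).1 (by rw [← e2]; exact hF'), rfl⟩)
    | zero =>
      have h2 : (mt (Z := X) e (0 : HL T.W Ω (pw X 0) → HL T.W Ω (pw X 0))).map θ = 0 := by
        ext i k
        change θ ((vB Ω e).symm (0 : HL T.W Ω X) i) = 0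
        rw [map_zero]
        exact map_zero θ
      rw [h2]
      exact Submodule.zero_mem _
    | add f g _ _ hf hg =>
      have h2 : (mt (Z := X) e (f + g)).map θ = (mt (Z := X) e f).map θ +
          (mt (Z := X) e g).map θ := by
        ext i k
        rw [Matrix.add_apply]
        have h3 : (vB Ω e).symm ((f (emL T.W Ω (e k) : HL T.W Ω X) : HL T.W Ω X) +
          (g (emL T.W Ω (e k) : HL T.W Ω X) : HL T.W Ω X)) i =
            (vB Ω e).symm (f (emL T.W Ω (e k) : HL T.W Ω X) : HL T.W Ω X) i +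
            (vB Ω e).symm (g (emL T.W Ω (e k) : HL T.W Ω X) : HL T.W Ω X) i := by
          exact congrFun ((vB Ω e).symm.map_add
            (show HL T.W Ω X from f (emL T.W Ω (e k) : HL T.W Ω X))
            (show HL T.W Ω X from g (emL T.W Ω (e k) : HL T.W Ω X))) i
        exact (congrArg θ h3).trans (map_add θ _ _)
      rw [h2]
      exact Submodule.add_mem _ hf hg
    | smul c f _ hf =>
      have h2 : (mt (Z := X) e (c • f)).map θ = θ c • (mt (Z := X) e f).map θ := by
        ext i k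
        rw [Matrix.smul_apply]
        have h3 : (vB Ω e).symm (c • (f (emL T.W Ω (e k) : HL T.W Ω X) : HL T.W Ω X)) i =
            c * (vB Ω e).symm (f (emL T.W Ω (e k) : HL T.W Ω X) : HL T.W Ω X) i := by
          exact congrFun ((vB Ω e).symm.map_smul c
            (show HL T.W Ω X from f (emL T.W Ω (e k) : HL T.W Ω X))) i
        exact (congrArg θ h3).trans (map_mul θ _ _)
      rw [h2]
      exact Submodule.smul_mem _ _ hf
  have h2 := key _ h1
  rw [mt_opOf, hyy] at h2
  exact h2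


/-- Weight operators from coordinates. -/
lemma weight1_of (θ : Ω ≃+* ℂ)
    (hp : ∀ m ∈ LT (TT (jj L θ) (toRep G e hdeg)), m * pd deg 1 = pd deg 1 * m)
    {w : ℕ} {y : Matrix ι ι Ω}
    (h1 : y.map θ ∈ LT (TT (jj L θ) (toRep G e hdeg))) (h2 : IsInt w (y.map θ * pd deg 1)) :
    IsWeight1 G w (opOf (T := T) (X := X) e y) := by
  refine ⟨opOf_inf e y, (kt_iff G hdeg θ y).2 h1, fun x hx => ?_⟩
  have hcm := hp _ h1
  obtain ⟨π, hπ⟩ := h2
  obtain ⟨v, rfl⟩ := (vB L e).surjective (show HL T.W L X from x)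
  have hv := (isDeg1_iff (L := L) hdeg).1 hx
  obtain ⟨v', hv'⟩ : ∃ v' : ι → Ω, v' = fun i => algebraMap L Ω (v i) := ⟨_, rfl⟩
  have hv1 : pdL Ω deg 1 *ᵥ v' = v' := by
    funext i
    rw [hv', pdL, Matrix.mulVec_diagonal]
    by_cases hi : deg i = 1
    · rw [if_pos hi, one_mul]
    · have h3 : v i = 0 := by
        rw [← hv, pdL, Matrix.mulVec_diagonal, if_neg hi, zero_mul]
      rw [if_neg hi, zero_mul]
      change 0 = algebraMap L Ω (v i)
      rw [h3, map_zero]
  let p : ℤ → Matrix ι ι Ω := fun k => (pd deg 1 * π k).map θ.symm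
  have hpk : ∀ k, (p k).map θ = pd deg 1 * π k := fun k => by
    ext i j
    exact θ.apply_symm_apply _
  have hinj : ∀ a b : Matrix ι ι Ω, a.map θ = b.map θ → a = b := fun a b hab => by
    ext i j
    exact θ.injective (congrFun (congrFun hab i) j)
  have hsum : ∑ k ∈ Finset.Icc (-w : ℤ) w, p k = pdL Ω deg 1 := by
    apply hinj
    have h3 : (∑ k ∈ Finset.Icc (-w : ℤ) w, p k).map θ =
        ∑ k ∈ Finset.Icc (-w : ℤ) w, (p k).map θ := by
      ext i j
      rw [Matrix.map_apply, Matrix.sum_apply, Matrix.sum_apply, map_sum]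
      rfl
    rw [h3, Finset.sum_congr rfl fun k _ => hpk k, ← Matrix.mul_sum, hπ.sum, Matrix.mul_one]
    ext i j
    rw [Matrix.map_apply, pdL, pd, Matrix.diagonal_apply, Matrix.diagonal_apply]
    split_ifs
    · exact (map_one θ).symm
    · exact (map_zero θ).symm
    · exact (map_zero θ).symm
  have hleft : ∀ k ∈ Finset.Icc (-w : ℤ) w, y * p k = (k : Ω) • p k := by
    intro k hk
    apply hinj
    have h4 : y.map θ * (pd deg 1 * π k) = (k : ℂ) • (pd deg 1 * π k) := by
      have h5 := hπ.left k hk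
      have h6 : y.map θ * (pd deg 1 * π k) = pd deg 1 * (y.map θ * pd deg 1 * π k) := by
        rw [hcm, ← Matrix.mul_assoc, hcm, ← Matrix.mul_assoc, ← Matrix.mul_assoc, pd_sq]
      rw [h6, h5, Matrix.mul_smul]
    rw [map_mul_th, hpk, h4]
    ext i j
    rw [Matrix.smul_apply, Matrix.map_apply, Matrix.smul_apply, smul_eq_mul, smul_eq_mul,
      map_mul, map_intCast]
    exact congrArg _ (congrFun (congrFun (hpk k) i) j).symm
  have h3 : vB Ω e v' = ∑ k ∈ Finset.Icc (-w : ℤ) w, vB Ω e (p k *ᵥ v') := by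
    rw [← map_sum, ← Matrix.sum_mulVec, hsum, hv1]
  have h4 : ∀ k ∈ Finset.Icc (-w : ℤ) w, vB Ω e (p k *ᵥ v') ∈
      Submodule.span Ω {z : HL T.W Ω X | ∃ m : ℤ, |m| ≤ w ∧ smL (m : Ω) z =
        (opOf e y 0 z : HL T.W Ω X)} := by
    intro k hk
    refine Submodule.subset_span ⟨k, abs_le.2 (Finset.mem_Icc.1 hk), ?_⟩
    have h5 : opOf e y 0 (vB Ω e (p k *ᵥ v') : HL T.W Ω X) =
      (vB Ω e (y *ᵥ (p k *ᵥ v')) : HL T.W Ω X) := opOf_zero e y _
    rw [h5, Matrix.mulVec_mulVec, hleft k hk, Matrix.smul_mulVec, vB_smul]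
  have h5 := Submodule.sum_mem _ h4
  rw [← h3, hv', ← up_vB] at h5
  exact h5

/-- The generators from coordinates. -/
lemma hgt1_of (θ : Ω ≃+* ℂ)
    (hp : ∀ m ∈ LT (TT (jj L θ) (toRep G e hdeg)), m * pd deg 1 = pd deg 1 * m)
    {w : ℕ} (h : IntGen1 deg (TT (jj L θ) (toRep G e hdeg)) w) :
    HGT1 Ω G w := by
  intro D hD hD'
  have e1 : D = opOf e (mt (Z := X) e (D 0)) := inf_eq hD
  obtain ⟨y, hy⟩ : ∃ y, y = (mt (Z := X) e (D 0)).map θ := ⟨_, rfl⟩
  have hback : ∀ y : Matrix ι ι ℂ, (y.map θ.symm).map θ = y := fun y => by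
    ext i j
    exact θ.apply_symm_apply _
  have hback' : mt (Z := X) e (D 0) = y.map θ.symm := by
    rw [hy]
    ext i j
    exact (θ.symm_apply_apply _).symm
  have hyL : y ∈ LT (TT (jj L θ) (toRep G e hdeg)) := by
    rw [hy]
    exact (kt_iff G hdeg θ _).1 (by rw [← e1]; exact hD')
  have key : ∀ m ∈ Submodule.span ℂ
        ({m | ∃ a ∈ LT (TT (jj L θ) (toRep G e hdeg)), ∃ b ∈ LT (TT (jj L θ) (toRep G e hdeg)),
          m = a * b - b * a} ∪
        {m | m ∈ LT (TT (jj L θ) (toRep G e hdeg)) ∧ IsInt w (m * pd deg 1)}),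
      (opOf (T := T) (X := X) e (m.map θ.symm) 0) ∈
        Submodule.span Ω {f : HL T.W Ω (pw X 0) → HL T.W Ω (pw X 0) |
      (∃ E : Operators T X Ω, IsWeight1 G w E ∧ E 0 = f) ∨
      ∃ E F : Operators T X Ω, (IsInfinitesimal E ∧ KillsTate G E) ∧
        (IsInfinitesimal F ∧ KillsTate G F) ∧ comm0 (E 0) (F 0) = f} := by
    intro m hm
    induction hm using Submodule.span_induction with
    | mem m hm =>
      rcases hm with ⟨a, ha, b, hb, rfl⟩ | ⟨h1, h2⟩
      · refine Submodule.subset_span (Or.inr ⟨opOf e (a.map θ.symm), opOf e (b.map θ.symm),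
          ⟨opOf_inf e _, (kt_iff G hdeg θ _).2 (by rw [hback]; exact ha)⟩,
          ⟨opOf_inf e _, (kt_iff G hdeg θ _).2 (by rw [hback]; exact hb)⟩, ?_⟩)
        funext x
        obtain ⟨v, rfl⟩ := (vB Ω e).surjective (show HL T.W Ω X from x)
        have h3 : ∀ (y : Matrix ι ι Ω) (v : ι → Ω), opOf e y 0 (vB Ω e v : HL T.W Ω X) =
          (vB Ω e (y *ᵥ v) : HL T.W Ω X) := fun y v => opOf_zero e y v
        change opOf e (a.map θ.symm) 0 (opOf e (b.map θ.symm) 0 (vB Ω e v : HL T.W Ω X)) -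
          opOf e (b.map θ.symm) 0 (opOf e (a.map θ.symm) 0 (vB Ω e v : HL T.W Ω X)) =
          opOf e ((a * b - b * a).map θ.symm) 0 (vB Ω e v : HL T.W Ω X)
        have h4 : (a * b - b * a).map θ.symm = a.map θ.symm * b.map θ.symm -
            b.map θ.symm * a.map θ.symm := by
          have hm : ∀ a b : Matrix ι ι ℂ, (a * b).map θ.symm = a.map θ.symm * b.map θ.symm :=
            fun a b => Matrix.map_mul (f := (θ.symm : ℂ →+* Ω))
          rw [← hm, ← hm]
          ext i k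
          exact map_sub θ.symm _ _
        rw [h3, h3, h3, h3, h3, h4, Matrix.sub_mulVec, map_sub, Matrix.mulVec_mulVec,
          Matrix.mulVec_mulVec]
        rfl
      · exact Submodule.subset_span (Or.inl ⟨_, weight1_of G hdeg θ hp (by rw [hback]; exact h1)
          (by rw [hback]; exact h2), rfl⟩)
    | zero =>
      have h2 : opOf (T := T) (X := X) e ((0 : Matrix ι ι ℂ).map θ.symm) 0 = 0 := by
        funext x
        obtain ⟨v, rfl⟩ := (vB Ω e).surjective (show HL T.W Ω X from x)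
        have h3 : opOf e ((0 : Matrix ι ι ℂ).map θ.symm) 0 (vB Ω e v : HL T.W Ω X) =
          (vB Ω e ((0 : Matrix ι ι ℂ).map θ.symm *ᵥ v) : HL T.W Ω X) := opOf_zero e _ v
        refine h3.trans ?_
        have h4 : (0 : Matrix ι ι ℂ).map θ.symm = 0 := by
          ext i k
          exact map_zero θ.symm
        rw [h4, Matrix.zero_mulVec, map_zero]
        rfl
      rw [h2]
      exact Submodule.zero_mem _
    | add a b _ _ ha hb =>
      have h2 : opOf (T := T) (X := X) e ((a + b).map θ.symm) 0 =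
          opOf (T := T) (X := X) e (a.map θ.symm) 0 + opOf (T := T) (X := X) e (b.map θ.symm) 0 := by
        funext x
        obtain ⟨v, rfl⟩ := (vB Ω e).surjective (show HL T.W Ω X from x)
        have h3 : ∀ (y : Matrix ι ι Ω) (v : ι → Ω), opOf e y 0 (vB Ω e v : HL T.W Ω X) =
          (vB Ω e (y *ᵥ v) : HL T.W Ω X) := fun y v => opOf_zero e y v
        change opOf e ((a + b).map θ.symm) 0 (vB Ω e v : HL T.W Ω X) =
          opOf e (a.map θ.symm) 0 (vB Ω e v : HL T.W Ω X) +
          opOf e (b.map θ.symm) 0 (vB Ω e v : HL T.W Ω X)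
        have h4 : (a + b).map θ.symm = a.map θ.symm + b.map θ.symm := by
          ext i k
          exact map_add θ.symm _ _
        rw [h3, h3, h3, h4, Matrix.add_mulVec, map_add]
        rfl
      rw [h2]
      exact Submodule.add_mem _ ha hb
    | smul c a _ ha =>
      have h2 : opOf (T := T) (X := X) e ((c • a).map θ.symm) 0 =
          θ.symm c • opOf (T := T) (X := X) e (a.map θ.symm) 0 := by
        funext x
        obtain ⟨v, rfl⟩ := (vB Ω e).surjective (show HL T.W Ω X from x)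
        have h3 : ∀ (y : Matrix ι ι Ω) (v : ι → Ω), opOf e y 0 (vB Ω e v : HL T.W Ω X) =
          (vB Ω e (y *ᵥ v) : HL T.W Ω X) := fun y v => opOf_zero e y v
        change opOf e ((c • a).map θ.symm) 0 (vB Ω e v : HL T.W Ω X) =
          smL (θ.symm c) (opOf e (a.map θ.symm) 0 (vB Ω e v : HL T.W Ω X))
        have h4 : (c • a).map θ.symm = θ.symm c • a.map θ.symm := by
          ext i k
          exact map_mul θ.symm _ _
        rw [h3, h3, h4, Matrix.smul_mulVec, vB_smul]
        rfl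
      rw [h2]
      exact Submodule.smul_mem _ _ ha
  have h2 := key y (h y hyL)
  rw [← hback', ← e1] at h2
  exact h2

end Pool.Agent.L0h10.RU
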