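import Pool.Agent.L0h10.RW.Cha

/-!
# Irreducible multisets of weights
-/

set_option linter.unusedSectionVars false

namespace Pool.Agent.L0h10.RP

open Matrix Pool.Agent.N996.BP Pool.Agent.N996.FP ComplexConjugate ComplexOrder

variable {ι : Type} [Fintype ι] [DecidableEq ι] {H : HData ι}
  {A : Type} [Ring A] [Algebra ℂ A]

namespace AData

variable (D : AData H A) {x z : Matrix ι ι ℂ} {n : ℕ}

/-- **The bound for irreducible multisets of weights.** -/
theorem irr_count {q : H.S → Prop} (hq : GenBy H q) {w : ℕ} (hw1 : 1 ≤ w)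
    (hE : ∀ (σ : H.S), q σ → ∀ (u : ι → ℂ), u ∈ D.V → u ≠ 0 → ∀ μ : ℂ,
      Ng H σ *ᵥ u = μ • u → ∃ a : ℤ, |a| ≤ w ∧ μ = a)
    (htop : ∃ v : Fin (Module.finrank ℂ D.V) → D.V, pL D.L v ≠ 0)
    (hz : D.IsCI z) (hP : cQ D.pr1 * cQ H.Qir = cQ H.Qir * (cQ D.pr1)ᵀ) {g : ℕ}
    (hg : Module.finrank ℂ D.V = 2 * g) (hx : IsReg (hn H) x)
    (B : Bz (hn H) x (cji H z) D.Vn n) {s : Multiset (Fin n)} (hs : B.tot s = 0)
    (hirr : ∀ t ≤ s, B.tot t ∈ QL (hn H) x → t = 0 ∨ t = s) (i : Fin n) (p : Fin n → Prop)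
    [DecidablePred p] (hp : ∀ j, p j → B.T j - B.T i ∈ QL (hn H) x) :
    (s.filter p).card ≤ max 2 ((w * g ^ 2) ^ g) := by
  classical
  by_cases h2i : 2 • B.T i ∈ QL (hn H) x
  · exact (B.count_le hirr two_pos le_rfl h2i p hp).trans (le_max_left _ _)
  by_cases hcs : s.card ≤ 2
  · exact ((Multiset.card_le_card (Multiset.filter_le p s)).trans hcs).trans (le_max_left _ _)
  push Not at hcs
  refine le_trans ?_ (le_max_right _ _)
  rcases Multiset.empty_or_exists_mem (s.filter p) with h0 | ⟨j₀, hj₀⟩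
  · rw [h0, Multiset.card_zero]
    exact Nat.zero_le _
  have hj₀s := Multiset.mem_of_mem_filter hj₀
  have hj₀p := hp j₀ (Multiset.of_mem_filter hj₀)
  have hm : n = 2 * g := by
    have h3 := Module.finrank_eq_card_basis B.bas
    rw [Fintype.card_fin] at h3
    rw [← h3, ← hg]
    exact D.eV.finrank_eq.symm
  -- the classes
  let Pc : Fin n → Fin n → Prop := fun a c => B.T a - B.T c ∈ QL (hn H) x
  have hPc : ∀ a c, Pc a c ↔ B.T a - B.T c ∈ QL (hn H) x := fun _ _ => Iff.rfl
  have hrefl : ∀ a, Pc a a := fun a => by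
    rw [hPc, sub_self]; exact (QL _ x).zero_mem
  have hsymm : ∀ {a b}, Pc a b → Pc b a := fun {a b} h => by
    rw [hPc] at h ⊢
    have := (QL _ x).neg_mem h
    rwa [neg_sub] at this
  have htrans : ∀ {a b c}, Pc a b → Pc b c → Pc a c := fun {a b c} h h' => by
    rw [hPc] at h h' ⊢
    have := (QL _ x).add_mem h h'
    rwa [sub_add_sub_cancel] at this
  let S : Fin n → Finset (Fin n) := fun k => Finset.univ.filter fun j => Pc j k
  have hS : ∀ k i, i ∈ S k ↔ B.T i - B.T k ∈ QL (hn H) x := fun k i => by simp [S, Pc]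
  have hSne : ∀ k, (S k).Nonempty := fun k => ⟨k, (hS k k).2 (hrefl k)⟩
  let rep : Fin n → Fin n := fun k => (S k).min' (hSne k)
  have hrep : ∀ k, Pc (rep k) k := fun k => (hS k _).1 ((S k).min'_mem (hSne k))
  have hSeq : ∀ {a b}, Pc a b → S a = S b := fun {a b} h => by
    ext c
    rw [hS, hS]
    exact ⟨fun h' => htrans h' h, fun h' => htrans h' (hsymm h)⟩
  have hrepeq : ∀ {a b}, Pc a b → rep a = rep b := fun {a b} h => by
    simp only [rep, hSeq h]
  -- the opposite classes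
  have hopp : ∀ i j, (2 • B.T i ∉ QL (hn H) x ∧ ∃ j ∈ s, Pc i j) →
      (2 • B.T j ∉ QL (hn H) x ∧ ∃ i ∈ s, Pc j i) → B.T i + B.T j ∉ QL (hn H) x := by
    rintro i j ⟨hi, i', hi's, hii⟩ ⟨hj, j', hj's, hjj⟩ hij
    by_cases hne : i' = j'
    · subst hne
      apply hi
      have h1 := (QL _ x).add_mem hij ((QL _ x).sub_mem hii hjj)
      have h2 : B.T i + B.T j + (B.T i - B.T i' - (B.T j - B.T i')) = 2 • B.T i := by
        rw [two_nsmul]; abel
      rwa [h2] at h1
    · have h1 : i' ::ₘ ({j'} : Multiset (Fin n)) ≤ s := by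
        rw [Multiset.le_iff_count]
        intro a
        rw [Multiset.count_cons, Multiset.count_singleton]
        by_cases h3 : a = j'
        · have h4 : a ≠ i' := fun h => hne (h ▸ h3)
          rw [if_pos h3, if_neg h4, h3]
          exact Multiset.one_le_count_iff_mem.2 hj's
        · rw [if_neg h3]
          by_cases h4 : a = i'
          · rw [if_pos h4, h4]
            exact Multiset.one_le_count_iff_mem.2 hi's
          · rw [if_neg h4]
            exact Nat.zero_le _
      have h2 : B.tot (i' ::ₘ ({j'} : Multiset (Fin n))) ∈ QL (hn H) x := by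
        rw [B.tot_cons, Bz.tot, Multiset.map_singleton, Multiset.sum_singleton]
        have h3 := (QL _ x).sub_mem hij ((QL _ x).add_mem hii hjj)
        have h4 : B.T i + B.T j - (B.T i - B.T i' + (B.T j - B.T j')) = B.T i' + B.T j' := by
          abel
        rwa [h4] at h3
      rcases hirr _ h1 h2 with h3 | h3
      · exact Multiset.cons_ne_zero h3
      · rw [← h3, Multiset.card_cons, Multiset.card_singleton] at hcs
        omega
  let U : Finset (Fin n) := Finset.univ.filter fun i => 2 • B.T i ∉ QL (hn H) x ∧ ∃ j ∈ s, Pc i j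
  have hU : ∀ i, i ∈ U ↔ (2 • B.T i ∉ QL (hn H) x ∧ ∃ j ∈ s, Pc i j) := fun i => by simp [U]
  have hUg : U.card ≤ g := by
    have h1 := D.half_of hP hx B U fun i hi j hj h0 => by
      refine hopp i j ((hU i).1 hi) ((hU j).1 hj) ?_
      rw [h0]
      exact (QL _ x).zero_mem
    omega
  let R : Finset (Fin n) := U.filter fun c => rep c = c
  have hR : ∀ c, c ∈ R ↔ c ∈ U ∧ rep c = c := fun c => by simp [R]
  have hUrep : ∀ i ∈ U, rep i ∈ R := by
    intro i hi
    obtain ⟨h1, j, hj, hij⟩ := (hU i).1 hi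
    refine (hR _).2 ⟨(hU _).2 ⟨fun h3 => h1 ?_, j, hj, htrans (hrep i) hij⟩,
      hrepeq (hrep i)⟩
    have h4 := (QL _ x).nsmul_mem (hrep i) 2
    have h5 := (QL _ x).sub_mem h3 h4
    have h6 : 2 • B.T (rep i) - 2 • (B.T (rep i) - B.T i) = 2 • B.T i := by
      rw [smul_sub, sub_sub_cancel]
    rwa [h6] at h5
  have hdis : ∀ a, ∀ c ∈ R, ∀ c' ∈ R, Pc a c → Pc a c' → c = c' := by
    intro a c hc c' hc' h h'
    rw [← ((hR c).1 hc).2, ← ((hR c').1 hc').2]
    exact hrepeq (htrans (hsymm h) h')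
  have hSU : ∀ c ∈ R, S c ⊆ U := by
    intro c hc j hj
    have hjc : Pc j c := (hS c j).1 hj
    obtain ⟨h1, j', hj', hcj'⟩ := (hU c).1 ((hR c).1 hc).1
    refine (hU j).2 ⟨fun h3 => h1 ?_, j', hj', htrans hjc hcj'⟩
    have h4 := (QL _ x).nsmul_mem hjc 2
    have h5 := (QL _ x).sub_mem h3 h4
    have h6 : 2 • B.T j - 2 • (B.T j - B.T c) = 2 • B.T c := by
      rw [smul_sub, sub_sub_cancel]
    rwa [h6] at h5
  have hmg : ∀ c ∈ R, (S c).card ≤ g := fun c hc => (Finset.card_le_card (hSU c hc)).trans hUg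
  have hRg : R.card ≤ g := (Finset.card_le_card (Finset.filter_subset _ _)).trans hUg
  -- the data of the relations
  choose lam hlam1 hlam2 using fun (c : R) (σ : {σ : H.S // q σ}) =>
    D.char_int htop hz (hE σ.1 σ.2) hx B (hS c)
  let m : R → ℕ := fun c => (S c).card
  let nn : R → ℕ := fun c => (s.filter fun a => Pc a c).card
  have hm0 : ∀ c : R, 0 < m c := fun c => Finset.card_pos.2 (hSne c)
  have hDm : ∀ c, ∑ j ∈ S c, B.T j - (S c).card • B.T c ∈ QL (hn H) x := by
    intro c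
    have h4 : ∑ j ∈ S c, (B.T j - B.T c) ∈ QL (hn H) x :=
      (QL (hn H) x).sum_mem fun j hj => (hS c j).1 hj
    rwa [Finset.sum_sub_distrib, Finset.sum_const] at h4
  have hQt : ∀ (t q : Matrix ι ι ℂ), (∀ q ∈ QL (hn H) x, (t * q).trace = 0) →
      q ∈ QL (hn H) x → (q * t).trace = 0 := fun t q ht hq => by
    rw [Matrix.trace_mul_comm]; exact ht q hq
  -- the relation
  obtain ⟨Δ, hΔ⟩ : ∃ Δ : Matrix ι ι ℂ, Δ = ∑ c : R, ((nn c : ℂ) / (m c : ℂ)) •
    ∑ j ∈ S c, B.T j := ⟨_, rfl⟩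
  have hΔH : Δᴴ = Δ := by
    rw [hΔ, Matrix.conjTranspose_sum]
    refine Finset.sum_congr rfl fun c _ => ?_
    rw [Matrix.conjTranspose_smul, Matrix.conjTranspose_sum]
    congr 1
    · rw [star_div₀]
      simp
    · exact Finset.sum_congr rfl fun j _ => (B.wt j).herm
  have hΔQ : ∀ q ∈ QL (hn H) x, (Δ * q).trace = 0 := by
    intro q hq
    rw [hΔ, Finset.sum_mul, Matrix.trace_sum]
    refine Finset.sum_eq_zero fun c _ => ?_
    rw [Matrix.smul_mul, Matrix.trace_smul, D.char_root htop hz hx B (hS c) hq, smul_zero]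
  have hΔ0 : Δ = 0 := by
    -- values on the weights
    let F : Fin n → ℂ := fun a => (B.T a * Δ).trace
    have hker : ∀ q ∈ QL (hn H) x, (q * Δ).trace = 0 := fun q hq => hQt Δ q hΔQ hq
    have h1 := sum_classes (P := Pc) (⊥ : AddSubgroup ℂ) F R hdis (fun a c _ hac => by
        rw [AddSubgroup.mem_bot]
        change (B.T a * Δ).trace - (B.T c * Δ).trace = 0
        rw [← Matrix.trace_sub, ← Matrix.sub_mul]
        exact hker _ hac) s (fun a ha hna => by
        rw [AddSubgroup.mem_bot]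
        change (B.T a * Δ).trace = 0
        by_cases h2a : 2 • B.T a ∈ QL (hn H) x
        · have h3 := hker _ h2a
          rw [two_nsmul, Matrix.add_mul, Matrix.trace_add] at h3
          rwa [← two_mul, mul_eq_zero, or_iff_right two_ne_zero] at h3
        · exfalso
          exact hna (rep a) (hUrep a ((hU a).2 ⟨h2a, a, ha, hrefl a⟩)) (hsymm (hrep a)))
    rw [AddSubgroup.mem_bot, sub_eq_zero] at h1
    have h2 : (s.map F).sum = 0 := by
      have h3 : ∀ u : Multiset (Fin n), (u.map F).sum = (B.tot u * Δ).trace := by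
        intro u
        induction u using Multiset.induction_on with
        | empty =>
          rw [Multiset.map_zero, Multiset.sum_zero, Bz.tot, Multiset.map_zero,
            Multiset.sum_zero, Matrix.zero_mul, Matrix.trace_zero]
        | cons a u ih =>
          rw [Multiset.map_cons, Multiset.sum_cons, ih, B.tot_cons, Matrix.add_mul,
            Matrix.trace_add]
      rw [h3, hs, Matrix.zero_mul, Matrix.trace_zero]
    have h3 : (Δ * Δ).trace = 0 := by
      have h4 : (Δ * Δ).trace = ∑ c : R, (nn c : ℂ) * F c := by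
        conv_lhs => rw [hΔ]
        rw [Finset.sum_mul, Matrix.trace_sum]
        refine Finset.sum_congr rfl fun c _ => ?_
        rw [Matrix.smul_mul, Matrix.trace_smul, smul_eq_mul, ← hΔ]
        have h5 : ((∑ j ∈ S c, B.T j) * Δ).trace = (m c : ℂ) * F c := by
          have h6 := hker _ (hDm c)
          rw [Matrix.sub_mul, Matrix.trace_sub, sub_eq_zero] at h6
          rw [h6, Matrix.smul_mul, Matrix.trace_smul, nsmul_eq_mul]
        rw [h5]
        have h7 : (m c : ℂ) ≠ 0 := by exact_mod_cast (hm0 c).ne'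
        field_simp
      rw [h4, Finset.sum_coe_sort R (fun c => ((s.filter fun a => Pc a c).card : ℂ) * F c),
        ← h2, h1]
      exact Finset.sum_congr rfl fun c _ => (nsmul_eq_mul _ _).symm
    have h4 : nsq Δ = 0 := by rw [nsq, hΔH]; exact h3
    exact nsq_eq_zero h4
  have hrel : IsRel lam fun c => (nn c : ℚ) / (m c : ℚ) := by
    intro σ
    have h1 : (Δ * cji H (Ng H σ)).trace = 0 := by
      rw [hΔ0, Matrix.zero_mul, Matrix.trace_zero]
    rw [hΔ, Finset.sum_mul, Matrix.trace_sum] at h1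
    have h2 : ∑ c : R, (((nn c : ℚ) / (m c : ℚ) * (lam c σ : ℚ) : ℚ) : ℂ) = 0 := by
      rw [← h1]
      refine Finset.sum_congr rfl fun c _ => ?_
      rw [Matrix.smul_mul, Matrix.trace_smul, smul_eq_mul, hlam2 c σ]
      push_cast
      rfl
    exact_mod_cast h2
  -- irreducibility
  have hirr2 : ∀ y : R → ℕ, y ≠ 0 → IsRel lam (fun c => (y c : ℚ)) →
      (∀ c, m c * y c ≤ nn c) → ∀ c, m c * y c = nn c := by
    intro y hy0 hyr hyn
    let y' : Fin n → ℕ := fun c => if h : c ∈ R then y ⟨c, h⟩ else 0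
    have hy' : ∀ c : R, y' c = y c := fun c => by simp only [y']; rw [dif_pos c.2]
    have hy'' : ∀ c, c ∉ R → y' c = 0 := fun c hc => by simp only [y']; rw [dif_neg hc]
    have h1 : ∑ k, (y' k : ℂ) • ∑ j ∈ S k, B.T j = 0 := by
      refine D.char_rel htop hz hq hx B hS y' fun σ hσ => ?_
      have h2 : ∑ k, (y' k : ℂ) * ((∑ j ∈ S k, B.T j) * cji H (Ng H σ)).trace =
          ∑ c : R, (((y c : ℚ) * (lam c ⟨σ, hσ⟩ : ℚ) : ℚ) : ℂ) := by
        rw [← Finset.sum_subset (Finset.subset_univ R), ← Finset.sum_coe_sort R]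
        · refine Finset.sum_congr rfl fun c _ => ?_
          rw [hy' c, hlam2 c ⟨σ, hσ⟩]
          push_cast
          rfl
        · intro c _ hc
          rw [hy'' c hc, Nat.cast_zero, zero_mul]
      rw [h2, ← Rat.cast_sum, hyr ⟨σ, hσ⟩, Rat.cast_zero]
    obtain ⟨t, hts, htc, htP⟩ := exists_sub (P := Pc) s (fun c => (S c).card * y' c) R hdis
      (fun c hc => by
        have h2 := hyn ⟨c, hc⟩
        rw [← hy' ⟨c, hc⟩] at h2
        exact h2)
    have htQ : B.tot t ∈ QL (hn H) x := by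
      have h2 := sum_classes (P := Pc) (QL (hn H) x) B.T R hdis (fun a c _ hac => hac) t
        (fun a ha hna => by
          obtain ⟨c, hc, hac⟩ := htP a ha
          exact absurd hac (hna c hc))
      rw [Finset.sum_congr rfl fun c hc => by rw [htc c hc]] at h2
      have h3 : ∑ c ∈ R, y' c • ((S c).card • B.T c - ∑ j ∈ S c, B.T j) ∈ QL (hn H) x := by
        refine (QL (hn H) x).sum_mem fun c _ => (QL (hn H) x).nsmul_mem ?_ _
        have := (QL (hn H) x).neg_mem (hDm c)
        rwa [neg_sub] at this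
      have h4 : ∑ c ∈ R, y' c • ∑ j ∈ S c, B.T j = 0 := by
        rw [← h1, ← Finset.sum_subset (Finset.subset_univ R)]
        · refine Finset.sum_congr rfl fun c _ => ?_
          rw [Nat.cast_smul_eq_nsmul]
        · intro c _ hc
          rw [hy'' c hc, Nat.cast_zero, zero_smul]
      simp only [smul_sub, Finset.sum_sub_distrib] at h3
      rw [h4, sub_zero] at h3
      have h5 := (QL (hn H) x).add_mem h2 h3
      have h6 : (t.map B.T).sum - ∑ c ∈ R, ((S c).card * y' c) • B.T c +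
          ∑ c ∈ R, y' c • (S c).card • B.T c = (t.map B.T).sum := by
        have h7 : ∑ c ∈ R, ((S c).card * y' c) • B.T c = ∑ c ∈ R, y' c • (S c).card • B.T c :=
          Finset.sum_congr rfl fun c _ => by rw [smul_smul, mul_comm]
        rw [h7, sub_add_cancel]
      rw [h6] at h5
      exact h5
    intro c
    rcases hirr t hts htQ with h2 | h2
    · exfalso
      apply hy0
      funext c
      have h3 := htc c c.2
      rw [h2, Multiset.filter_zero, Multiset.card_zero, hy' c] at h3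
      exact (Nat.mul_eq_zero.1 h3.symm).resolve_left (hm0 c).ne'
    · have h3 := htc c c.2
      rw [h2, hy' c] at h3
      exact h3.symm
  -- the bound
  have hl : ∀ (c : R) (σ : {σ : H.S // q σ}), |lam c σ| ≤ ((w * g : ℕ) : ℤ) := fun c σ =>
    (hlam1 c σ).trans (by
      push_cast
      exact mul_le_mul_of_nonneg_left (by exact_mod_cast hmg c c.2) (by positivity))
  have hiU : i ∈ U := (hU i).2 ⟨h2i, j₀, hj₀s, hsymm hj₀p⟩
  have hc₀ : rep i ∈ R := hUrep i hiU
  have hg1 : 1 ≤ g := (Finset.card_pos.2 ⟨i, hiU⟩).trans_le hUg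
  have hwg1 : 1 ≤ w * g := Nat.mul_pos hw1 hg1
  have hfin := irr_bound hwg1 hl hm0 hrel hirr2 ⟨rep i, hc₀⟩
  have h1 : (s.filter p).card ≤ nn ⟨rep i, hc₀⟩ := by
    refine Multiset.card_le_card (Multiset.monotone_filter_right s fun a ha => ?_)
    exact htrans (hp a ha) (hsymm (hrep i))
  refine h1.trans (hfin.trans ?_)
  rw [Fintype.card_coe]
  have h3 : 1 ≤ R.card := Finset.card_pos.2 ⟨_, hc₀⟩
  have h4 : (R.card * (w * g)) ^ (R.card - 1) ≤ (g * (w * g)) ^ (g - 1) := by
    have h5 : 1 ≤ g * (w * g) := Nat.mul_pos hg1 hwg1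
    exact (Nat.pow_le_pow_left (Nat.mul_le_mul_right (w * g) hRg) _).trans
      (Nat.pow_le_pow_right h5 (by omega))
  calc m ⟨rep i, hc₀⟩ * (R.card * (R.card * (w * g)) ^ (R.card - 1)) ≤
      g * (g * (g * (w * g)) ^ (g - 1)) :=
        Nat.mul_le_mul (hmg _ hc₀) (Nat.mul_le_mul hRg h4)
    _ = g * g * (w * g ^ 2) ^ (g - 1) := by ring
    _ ≤ (w * g ^ 2) * (w * g ^ 2) ^ (g - 1) := by
        refine Nat.mul_le_mul_right _ ?_
        rw [← pow_two]
        exact Nat.le_mul_of_pos_left _ hw1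
    _ = (w * g ^ 2) ^ g := by
        obtain ⟨g', rfl⟩ : ∃ g', g = g' + 1 := ⟨g - 1, by omega⟩
        rw [Nat.add_sub_cancel, ← pow_succ']

end AData

end Pool.Agent.L0h10.RP
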